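import Pool.Agent.Run7.h688.Seg.Alg3

/-!
# Piece S_ALG of MP_beb3fe_lc: straight lines with the signs of the arrangement of a program give
a solution
-/

set_option autoImplicit false

namespace Run7.h688.Seg

open Run7.h749 Run7.h749.Arr Pool.Agent.NPC.ER.Oslp Pool.Agent.NPC.ER.Sgn
open Pool.Agent.K1H23.PC.BS (PH mono1 mono2 kap kap_pos kap_neg root PH_sub)

variable {p : List Ins}

section

variable {g : GD p}

/-- The lower bound of a value. -/
noncomputable def Ch.lo (C : Ch g) (a : ℕ) : ℝ :=
  C.Y (g.X (true, Sa p a) (false, 2 + 2 * sp p a))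

/-- The upper bound of a value. -/
noncomputable def Ch.hi (C : Ch g) (a : ℕ) : ℝ :=
  C.Y (g.X (true, Sa p a) (false, 3 + 2 * sp p a))

theorem Sa_bd {a : ℕ} (ha : a < G p) : 2 ≤ Sa p a ∧ Sa p a < 10 * G p + 3 := by
  unfold Sa
  omega

theorem Ch.fRight (C : Ch g) {a : ℕ} (ha : a < G p) {z : ℝ × ℝ} {j s : ℕ} (h : At g z j s)
    (hj : Sa p a < j) (h1 : 4 * sp p a + 5 < s) (h2 : s < 4 * sp p a + 7) :
    C.lo a < C.Y z ∧ C.Y z < C.hi a := by
  obtain ⟨s1, s2⟩ := Sa_bd ha
  have hd := (h.dom (by omega)).le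
  have hb := sp_bd ha
  have hS := (h.2 (Sa p a) s1 s2 (xc_false (inS_Sa a))).1 hj
  constructor
  · refine (C.cmp s1 s2 (r := 2 + 2 * sp p a) (by omega) (by omega) (inS_Sa a) hd).2.2.1
      (by omega) ?_ hS
    exact (h.1 (2 + 2 * sp p a) (by omega) (by omega)).1 (by omega)
  · refine (C.cmp s1 s2 (r := 3 + 2 * sp p a) (by omega) (by omega) (inS_Sa a) hd).1
      (by omega) ?_ hS
    exact (h.1 (3 + 2 * sp p a) (by omega) (by omega)).2 (by omega)

theorem Ch.fAbove (C : Ch g) {a : ℕ} (ha : a < G p) {z : ℝ × ℝ} {j s : ℕ} (h : At g z j s)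
    (hj2 : 2 < j) (hj : j < Sa p a) (h1 : 4 * sp p a + 7 < s) : C.hi a < C.Y z := by
  obtain ⟨s1, s2⟩ := Sa_bd ha
  have hd := (h.dom hj2).le
  have hb := sp_bd ha
  have hS := (h.2 (Sa p a) s1 s2 (xc_false (inS_Sa a))).2 hj
  refine (C.cmp s1 s2 (r := 3 + 2 * sp p a) (by omega) (by omega) (inS_Sa a) hd).2.1
    (by omega) ?_ hS
  exact (h.1 (3 + 2 * sp p a) (by omega) (by omega)).1 (by omega)

theorem Ch.fBelow (C : Ch g) {a : ℕ} (ha : a < G p) {z : ℝ × ℝ} {j s : ℕ} (h : At g z j s)
    (hj2 : 2 < j) (hj : j < Sa p a) (h1 : s < 4 * sp p a + 5) : C.Y z < C.lo a := by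
  obtain ⟨s1, s2⟩ := Sa_bd ha
  have hd := (h.dom hj2).le
  have hb := sp_bd ha
  have hS := (h.2 (Sa p a) s1 s2 (xc_false (inS_Sa a))).2 hj
  refine (C.cmp s1 s2 (r := 2 + 2 * sp p a) (by omega) (by omega) (inS_Sa a) hd).2.2.2
    (by omega) ?_ hS
  exact (h.1 (2 + 2 * sp p a) (by omega) (by omega)).2 (by omega)

theorem Ch.fSep (C : Ch g) {t : ℕ} (ht : t < T p) {z z' : ℝ × ℝ} {j s j' s' : ℕ}
    (h : At g z j s) (h' : At g z' j' s') (hd : 0 ≤ ev (g.f (true, 2)) z)
    (hd' : 0 ≤ ev (g.f (true, 2)) z') (h1 : s < 4 * t + 5) (h2 : 4 * t + 7 < s') :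
    C.Y z < C.Y z' :=
  C.sep ht hd hd' ((h.1 _ (by omega) (by omega)).2 (by omega))
    ((h.1 _ (by omega) (by omega)).2 (by omega)) ((h'.1 _ (by omega) (by omega)).1 (by omega))
    ((h'.1 _ (by omega) (by omega)).1 (by omega))

theorem XS (g : GD p) {a r : ℕ} (ha : a < G p) (hr : 2 ≤ r) (hr' : r < 2 * T p + 2) :
    At g (g.X (true, Sa p a) (false, r)) (Sa p a) (2 * r + 1) ∧
      0 ≤ ev (g.f (true, 2)) (g.X (true, Sa p a) (false, r)) := by
  obtain ⟨s1, s2⟩ := Sa_bd ha
  obtain ⟨h1, h2, -⟩ := XR_at g s1 s2 hr hr'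
  refine ⟨h1, ?_⟩
  rcases Nat.eq_or_lt_of_le s1 with h | h
  · rw [← h] at h2 ⊢
    exact h2.ge
  · exact (h1.dom h).le

theorem Ch.hl (C : Ch g) {a a' : ℕ} (ha : a < G p) (ha' : a' < G p)
    (h : sp p a + 2 ≤ sp p a') : C.hi a < C.lo a' := by
  have b1 := sp_bd ha
  have b2 := sp_bd ha'
  obtain ⟨x1, x2⟩ := XS g ha (r := 3 + 2 * sp p a) (by omega) (by omega)
  obtain ⟨y1, y2⟩ := XS g ha' (r := 2 + 2 * sp p a') (by omega) (by omega)
  exact C.fSep (t := sp p a + 1) (by omega) x1 y1 x2 y2 (by omega) (by omega)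

/-- The exact value is in the bounds. -/
def Ch.Bd (C : Ch g) (a : ℕ) (x : ℝ) : Prop := C.lo a < x ∧ x < C.hi a

theorem Ch.exact (C : Ch g) (hp : WF 2 p) :
    ∀ M ≤ G p, ∃ E : ℕ → ℝ, (∀ a < M, C.Bd a (E a)) ∧
      ∀ k < M, ∀ o l i j, opd p k = some (o, l, i, j) →
        PH (E k) (E o) (E l) (E i) (E j) (E 0) = 0
  | 0, _ => ⟨fun _ => 0, fun a ha => absurd ha (Nat.not_lt_zero a),
      fun a ha => absurd ha (Nat.not_lt_zero a)⟩
  | M + 1, hM => by
    obtain ⟨E, h1, h2⟩ := Ch.exact C hp M (by omega)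
    have hN : G p = p.length + 2 := rfl
    have hT : T p = 2 * G p := rfl
    -- extension by a value
    have ext : ∀ x : ℝ, C.Bd M x →
        (∀ o l i j, opd p M = some (o, l, i, j) → PH x (E o) (E l) (E i) (E j) (E 0) = 0) →
        ∃ E : ℕ → ℝ, (∀ a < M + 1, C.Bd a (E a)) ∧
      ∀ k < M + 1, ∀ o l i j, opd p k = some (o, l, i, j) →
        PH (E k) (E o) (E l) (E i) (E j) (E 0) = 0 := by
      intro x hx hroot
      refine ⟨Function.update E M x, ?_, ?_⟩
      · intro a ha
        by_cases haM : a = M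
        · subst haM
          rw [Function.update_self]
          exact hx
        · rw [Function.update_of_ne haM]
          exact h1 a (by omega)
      · intro k hk o l i j hc
        obtain ⟨w1, w2, w3, w4, w5, w6, w7⟩ := opd_wf hp hc
        rw [Function.update_of_ne (by omega : o ≠ M), Function.update_of_ne (by omega : l ≠ M),
          Function.update_of_ne (by omega : i ≠ M), Function.update_of_ne (by omega : j ≠ M),
          Function.update_of_ne (by omega : 0 ≠ M)]
        by_cases hkM : k = M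
        · subst hkM
          rw [Function.update_self]
          exact hroot o l i j hc
        · rw [Function.update_of_ne hkM]
          exact h2 k (by omega) o l i j hc
    rcases hop : opd p M with _ | ⟨o, l, i, j⟩
    · have hmr : mr p = 2 * T p + 4 := rfl
      have hmc : mc p = 10 * G p + 5 := rfl
      have hb := sp_bd (p := p) (a := M) (by omega)
      have hW := W_at g (k := 4 * sp p M + 6) (by omega) (by omega)
      have hS := Sa_bd (p := p) (a := M) (by omega)
      refine ext _ (C.fRight (by omega) hW ?_ (by omega) (by omega)) ?_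
      · unfold Sa at hS ⊢
        omega
      · intro o l i j hc
        rw [hop] at hc
        simp at hc
    · obtain ⟨w1, w2, w3, w4, w5, w6, w7⟩ := opd_wf hp hop
      -- the values
      have B0 := h1 0 (by omega)
      have Bo := h1 o (by omega)
      have Bl := h1 l (by omega)
      have Bi := h1 i (by omega)
      have Bj := h1 j (by omega)
      unfold Ch.Bd at B0 Bo Bl Bi Bj
      have sM := spp (p := p) (a := M) (by omega)
      have sl := spp (p := p) (a := l) (by omega)
      have si := spp (p := p) (a := i) (by omega)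
      have sj := spp (p := p) (a := j) (by omega)
      have s0 := sp0 (p := p)
      have El : E l < E i := (Bl.2.trans (C.hl (by omega) (by omega) (by omega))).trans Bi.1
      have El' : E l < E j := (Bl.2.trans (C.hl (by omega) (by omega) (by omega))).trans Bj.1
      have Ei : E i < E 0 := (Bi.2.trans (C.hl (by omega) (by omega) (by omega))).trans B0.1
      have Ej : E j < E 0 := (Bj.2.trans (C.hl (by omega) (by omega) (by omega))).trans B0.1
      -- the two slabs; `y` upper (`b = 0`), `x` lower (`b = 1`)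
      obtain ⟨y, hy, PHy⟩ := C.slab hp hop (by omega) (b := 0) (by omega)
      obtain ⟨x, hx, PHx⟩ := C.slab hp hop (by omega) (b := 1) (by omega)
      have hs1 : ∀ b, hs p (o, l, i, j) M b 1 = 4 * sp p M + 6 := fun b => by simp [hs, vl]
      have e00 : hs p (o, l, i, j) M 0 0 = 4 * sp p 0 + 8 := by simp [hs, vl]
      have e02 : hs p (o, l, i, j) M 0 2 = 4 * sp p i + 8 := by simp [hs, vl]
      have e03 : hs p (o, l, i, j) M 0 3 = 4 * sp p j + 8 := by simp [hs, vl]
      have e04 : hs p (o, l, i, j) M 0 4 = 4 * sp p l + 4 := by simp [hs, vl]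
      have e05 : hs p (o, l, i, j) M 0 5 = 4 * sp p o + 8 := by simp [hs, vl]
      have e10 : hs p (o, l, i, j) M 1 0 = 4 * sp p 0 + 4 := by simp [hs, vl]
      have e12 : hs p (o, l, i, j) M 1 2 = 4 * sp p i + 4 := by simp [hs, vl]
      have e13 : hs p (o, l, i, j) M 1 3 = 4 * sp p j + 4 := by simp [hs, vl]
      have e14 : hs p (o, l, i, j) M 1 4 = 4 * sp p l + 8 := by simp [hs, vl]
      have e15 : hs p (o, l, i, j) M 1 5 = 4 * sp p o + 4 := by simp [hs, vl]
      obtain ⟨j0, J0, K0, A0⟩ := hy 0 (by omega)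
      obtain ⟨j1, J1, K1, A1⟩ := hy 1 (by omega)
      obtain ⟨j2, J2, K2, A2⟩ := hy 2 (by omega)
      obtain ⟨j3, J3, K3, A3⟩ := hy 3 (by omega)
      obtain ⟨j4, J4, K4, A4⟩ := hy 4 (by omega)
      obtain ⟨j5, J5, K5, A5⟩ := hy 5 (by omega)
      obtain ⟨i0, I0, L0, D0⟩ := hx 0 (by omega)
      obtain ⟨i1, I1, L1, D1⟩ := hx 1 (by omega)
      obtain ⟨i2, I2, L2, D2⟩ := hx 2 (by omega)
      obtain ⟨i3, I3, L3, D3⟩ := hx 3 (by omega)
      obtain ⟨i4, I4, L4, D4⟩ := hx 4 (by omega)
      obtain ⟨i5, I5, L5, D5⟩ := hx 5 (by omega)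
      rw [e00] at A0
      rw [hs1] at A1 D1
      rw [e02] at A2
      rw [e03] at A3
      rw [e04] at A4
      rw [e05] at A5
      rw [e10] at D0
      rw [e12] at D2
      rw [e13] at D3
      rw [e14] at D4
      rw [e15] at D5
      have SM : Sa p M = 2 + 10 * (G p - 1 - M) := rfl
      have S0 : Sa p 0 = 2 + 10 * (G p - 1 - 0) := rfl
      have So : Sa p o = 2 + 10 * (G p - 1 - o) := rfl
      have Sl : Sa p l = 2 + 10 * (G p - 1 - l) := rfl
      have Si : Sa p i = 2 + 10 * (G p - 1 - i) := rfl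
      have Sj : Sa p j = 2 + 10 * (G p - 1 - j) := rfl
      -- comparisons of the lower slab with the exact values
      have c0 : C.Y (x 2) < E i := (C.fBelow (by omega) D2 (by omega) (by omega)
        (by omega)).trans Bi.1
      have c1 : E l < C.Y (x 4) := Bl.2.trans (C.fAbove (by omega) D4 (by omega) (by omega)
        (by omega))
      have c2 : C.Y (x 5) < E o := (C.fBelow (by omega) D5 (by omega) (by omega)
        (by omega)).trans Bo.1
      have c3 : C.Y (x 0) < E 0 := (C.fBelow (by omega) D0 (by omega) (by omega)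
        (by omega)).trans B0.1
      have c4 : C.Y (x 3) < E j := (C.fBelow (by omega) D3 (by omega) (by omega)
        (by omega)).trans Bj.1
      have c5 := C.fRight (a := M) (by omega) D1 (by omega) (by omega) (by omega)
      have d0 : E i < C.Y (y 2) := Bi.2.trans (C.fAbove (by omega) A2 (by omega) (by omega)
        (by omega))
      have d1 : C.Y (y 4) < E l := (C.fBelow (by omega) A4 (by omega) (by omega)
        (by omega)).trans Bl.1
      have d2 : E o < C.Y (y 5) := Bo.2.trans (C.fAbove (by omega) A5 (by omega) (by omega)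
        (by omega))
      have d3 : E 0 < C.Y (y 0) := B0.2.trans (C.fAbove (by omega) A0 (by omega) (by omega)
        (by omega))
      have d4 : E j < C.Y (y 3) := Bj.2.trans (C.fAbove (by omega) A3 (by omega) (by omega)
        (by omega))
      have d5 := C.fRight (a := M) (by omega) A1 (by omega) (by omega) (by omega)
      -- comparisons between the heights
      have f1 : C.Y (x 4) < C.Y (x 2) := C.fSep (t := sp p l + 1) (by omega) D4 D2
        (D4.dom (by omega)).le (D2.dom (by omega)).le (by omega) (by omega)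
      have f2 : C.Y (x 4) < C.Y (x 3) := C.fSep (t := sp p l + 1) (by omega) D4 D3
        (D4.dom (by omega)).le (D3.dom (by omega)).le (by omega) (by omega)
      have f3 : E i < C.Y (x 1) := Bi.2.trans (C.fAbove (by omega) D1 (by omega) (by omega)
        (by omega))
      have f4 : E j < C.Y (x 1) := Bj.2.trans (C.fAbove (by omega) D1 (by omega) (by omega)
        (by omega))
      have f5 : C.Y (x 1) < C.Y (x 0) := C.fSep (t := sp p M + 1) (by omega) D1 D0
        (D1.dom (by omega)).le (D0.dom (by omega)).le (by omega) (by omega)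
      have e1 : C.Y (y 2) < C.Y (y 1) := C.fSep (t := sp p i + 1) (by omega) A2 A1
        (A2.dom (by omega)).le (A1.dom (by omega)).le (by omega) (by omega)
      have e2 : C.Y (y 3) < C.Y (y 1) := C.fSep (t := sp p j + 1) (by omega) A3 A1
        (A3.dom (by omega)).le (A1.dom (by omega)).le (by omega) (by omega)
      have e3 : C.Y (y 1) < E 0 := (C.fBelow (by omega) A1 (by omega) (by omega)
        (by omega)).trans B0.1
      rcases Nat.eq_zero_or_pos o with ho | ho
      · -- addition
        subst ho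
        have hk : 0 < kap (E 0) (E l) (E i) (E j) (E 0) :=
          kap_pos El (El.trans Ei) Ei Ej
        obtain ⟨r, hr⟩ := root hk.ne'
        have f6 : C.Y (x 1) < C.Y (x 5) := C.fSep (t := sp p M + 1) (by omega) D1 D5
          (D1.dom (by omega)).le (D5.dom (by omega)).le (by omega) (by omega)
        have S0 := PH_sub (C.Y (x 1)) r (E 0) (E l) (E i) (E j) (E 0)
        have S1 := PH_sub (C.Y (y 1)) r (E 0) (E l) (E i) (E j) (E 0)
        -- `PH (x 1) (E …) ≤ 0`
        obtain ⟨m0, hm0, M0⟩ := mono2 c2.le f6 c1.le f1 c0.le f3 f2 c4.le f4 f5 c3.le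
        obtain ⟨m1, hm1, M1⟩ := mono2 d2.le e3 d1.le El d0.le e1 El' d4.le e2 e3 d3.le
        rw [PHx, neg_zero] at M0
        rw [PHy, neg_zero, mul_zero] at M1
        have Q0 : PH (C.Y (x 1)) (E 0) (E l) (E i) (E j) (E 0) ≤ 0 := by
          have := nonneg_of_mul_nonneg_right M0 hm0
          linarith
        have Q1 : 0 ≤ PH (C.Y (y 1)) (E 0) (E l) (E i) (E j) (E 0) := by linarith
        have T0 : C.Y (x 1) ≤ r := by
          by_contra hcon
          push Not at hcon
          have := mul_pos (sub_pos.mpr hcon) hk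
          linarith
        have T1 : r ≤ C.Y (y 1) := by
          by_contra hcon
          push Not at hcon
          have := mul_neg_of_neg_of_pos (sub_neg.mpr hcon) hk
          linarith
        refine ext r ⟨c5.1.trans_le T0, T1.trans_lt d5.2⟩ ?_
        intro o' l' i' j' hc
        rw [hop] at hc
        simp only [Option.some.injEq, Prod.mk.injEq] at hc
        obtain ⟨rfl, rfl, rfl, rfl⟩ := hc
        exact hr
      · -- multiplication
        have so := spp (p := p) (a := o) ho
        have Eo : E o < E l := (Bo.2.trans (C.hl (by omega) (by omega) (by omega))).trans Bl.1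
        have hk : kap (E o) (E l) (E i) (E j) (E 0) < 0 := kap_neg Eo El El' Ej
        obtain ⟨r, hr⟩ := root hk.ne
        have e4 : C.Y (y 5) < C.Y (y 4) := C.fSep (t := sp p o + 1) (by omega) A5 A4
          (A5.dom (by omega)).le (A4.dom (by omega)).le (by omega) (by omega)
        obtain ⟨m0, hm0, M0⟩ := mono1 c2.le Eo c1.le f1 c0.le f3 f2 c4.le f4 f5 c3.le
        obtain ⟨m1, hm1, M1⟩ := mono1 d2.le e4 d1.le El d0.le e1 El' d4.le e2 e3 d3.le
        have S0 := PH_sub (C.Y (x 1)) r (E o) (E l) (E i) (E j) (E 0)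
        have S1 := PH_sub (C.Y (y 1)) r (E o) (E l) (E i) (E j) (E 0)
        rw [PHx] at M0
        rw [PHy, mul_zero] at M1
        have Q0 : 0 ≤ PH (C.Y (x 1)) (E o) (E l) (E i) (E j) (E 0) :=
          nonneg_of_mul_nonneg_right M0 hm0
        have Q1 : PH (C.Y (y 1)) (E o) (E l) (E i) (E j) (E 0) ≤ 0 := M1
        have T0 : C.Y (x 1) ≤ r := by
          by_contra hcon
          push Not at hcon
          have := mul_neg_of_pos_of_neg (sub_pos.mpr hcon) hk
          linarith
        have T1 : r ≤ C.Y (y 1) := by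
          by_contra hcon
          push Not at hcon
          have := mul_pos_of_neg_of_neg (sub_neg.mpr hcon) hk
          linarith
        refine ext r ⟨c5.1.trans_le T0, T1.trans_lt d5.2⟩ ?_
        intro o' l' i' j' hc
        rw [hop] at hc
        simp only [Option.some.injEq, Prod.mk.injEq] at hc
        obtain ⟨rfl, rfl, rfl, rfl⟩ := hc
        exact hr

end

theorem alg : S_ALG := by
  rintro p hp ⟨f, X, W, hX, hW⟩
  let g : GD p := ⟨f, X, W, hX, hW⟩
  obtain ⟨C⟩ := exists_ch g
  obtain ⟨E, h1, h2⟩ := C.exact hp (G p) le_rfl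
  have hN : G p = p.length + 2 := rfl
  have s0 := sp0 (p := p)
  have B0 := h1 0 (by omega)
  unfold Ch.Bd at B0
  have hE0 : ∀ a, 0 < a → a < G p → 0 < E 0 - E a := by
    intro a ha haN
    have Ba := h1 a haN
    unfold Ch.Bd at Ba
    have sa := spp (p := p) ha
    have := (Ba.2.trans (C.hl (by omega) (by omega) (by omega))).trans B0.1
    linarith
  have hEE : ∀ a b, 0 < a → a < b → b < G p → E a < E b := by
    intro a b ha hab hb
    have Ba := h1 a (by omega)
    have Bb := h1 b hb
    unfold Ch.Bd at Ba Bb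
    have sa := spp (p := p) ha
    have sb := spp (p := p) (ha.trans hab)
    exact (Ba.2.trans (C.hl (by omega) (by omega) (by omega))).trans Bb.1
  refine ⟨fun a => 1 / (E 0 - E a), run_iff.mpr fun k hk2 hkN => ⟨?_, ?_⟩⟩
  · have e1 := hE0 k (by omega) (by omega)
    have e2 := hEE (k - 1) k (by omega) (by omega) (by omega)
    exact one_div_lt_one_div_of_lt e1 (by linarith)
  · rcases hop : opd p k with _ | ⟨o, l, i, j⟩
    · trivial
    · obtain ⟨w1, w2, w3, w4, w5, w6, w7⟩ := opd_wf hp hop
      have hPH := h2 k (by omega) o l i j hop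
      have pk := hE0 k (by omega) (by omega)
      have pl' := hE0 l (by omega) (by omega)
      have pi' := hE0 i (by omega) (by omega)
      have pj := hE0 j (by omega) (by omega)
      refine ⟨fun ho => ?_, fun ho => ?_⟩
      · subst ho
        unfold PH at hPH
        have n1 := pk.ne'
        have n2 := pl'.ne'
        have n3 := pi'.ne'
        have n4 := pj.ne'
        rw [div_add_div _ _ n1 n2, div_add_div _ _ n3 n4, div_eq_div_iff
          (mul_ne_zero n1 n2) (mul_ne_zero n3 n4)]
        linear_combination hPH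
      · have po := hE0 o ho (by omega)
        unfold PH at hPH
        have n1 := pk.ne'
        have n2 := pl'.ne'
        have n3 := pi'.ne'
        have n4 := pj.ne'
        have n5 := po.ne'
        rw [div_sub_div _ _ n1 n5, div_sub_div _ _ n2 n5, div_sub_div _ _ n3 n5,
          div_sub_div _ _ n4 n5, div_mul_div_comm, div_mul_div_comm, div_eq_div_iff
          (mul_ne_zero (mul_ne_zero n1 n5) (mul_ne_zero n2 n5))
          (mul_ne_zero (mul_ne_zero n3 n5) (mul_ne_zero n4 n5))]
        linear_combination -(E 0 - E o) ^ 3 * hPH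

end Run7.h688.Seg
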