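import Pool.Agent.Run7.h749.Stm

/-!
# Piece S_ALG of MP_beb3fe_lc, part 1: the projective chart
-/

set_option autoImplicit false

namespace Run7.h688.Seg

open Run7.h749 Run7.h749.Arr Pool.Agent.NPC.ER.Oslp Pool.Agent.NPC.ER.Sgn

theorem ev_chart (c : ℝ × ℝ × ℝ) (P X : ℝ × ℝ) (hP : ev c P < 0) (hX : ev c X = 0) :
    ∃ (s : ℝ × ℝ → ℝ) (D E : ℝ × ℝ × ℝ → ℝ), D c = 0 ∧ ∀ f z,
      ev f z = D f * s z + E f * (1 - ev c z / ev c P) + ev f P := by
  have hn : 0 < c.1 ^ 2 + c.2.1 ^ 2 := by
    by_contra hcon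
    have h1 : c.1 = 0 := by nlinarith [sq_nonneg c.1, sq_nonneg c.2.1]
    have h2 : c.2.1 = 0 := by nlinarith [sq_nonneg c.1, sq_nonneg c.2.1]
    unfold ev at hP hX
    rw [h1, h2] at hP hX
    linarith
  refine ⟨fun z => (-c.2.1 * (z.1 - P.1) + c.1 * (z.2 - P.2)) / (c.1 ^ 2 + c.2.1 ^ 2),
    fun f => - f.1 * c.2.1 + f.2.1 * c.1,
    fun f => - ev c P * (f.1 * c.1 + f.2.1 * c.2.1) / (c.1 ^ 2 + c.2.1 ^ 2), by ring,
    fun f z => ?_⟩
  have h1 : ev f z - ev f P = f.1 * (z.1 - P.1) + f.2.1 * (z.2 - P.2) := by unfold ev; ring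
  have h2 : ev c z - ev c P = c.1 * (z.1 - P.1) + c.2.1 * (z.2 - P.2) := by unfold ev; ring
  have hP' : ev c P ≠ 0 := hP.ne
  have h3 : (1 - ev c z / ev c P) = - (c.1 * (z.1 - P.1) + c.2.1 * (z.2 - P.2)) / ev c P := by
    rw [← h2, eq_div_iff hP', sub_mul, div_mul_cancel₀ _ hP']
    ring
  have h4 : ev f z = ev f P + (f.1 * (z.1 - P.1) + f.2.1 * (z.2 - P.2)) := by linarith
  rw [h3, h4]
  field_simp
  ring

/-- The realisation by straight lines. -/
structure GD (p : List Ins) where
  f : Ln → ℝ × ℝ × ℝ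
  X : Ln → Ln → ℝ × ℝ
  W : Ln → ℕ → ℝ × ℝ
  hX : ∀ a b, (arrOf p).Re a → (arrOf p).Re b → a ≠ b → (arrOf p).cr a b = true →
    ev (f a) (X a b) = 0 ∧ ev (f b) (X a b) = 0 ∧ X a b = X b a ∧
    ∀ c s, c ≠ b → (arrOf p).Reg c s a ((arrOf p).sl a b) → 0 < sgn s * ev (f c) (X a b)
  hW : ∀ b k, (arrOf p).IsL b → k < (arrOf p).S → ∀ c s, (arrOf p).Reg c s b k →
    0 < sgn s * ev (f c) (W b k)

variable {p : List Ins}

/-- `z` is on the column `j` at the slot `k`, as far as signs are concerned. -/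
def At (g : GD p) (z : ℝ × ℝ) (j k : ℕ) : Prop :=
  (∀ i, 2 ≤ i → i < 2 * T p + 2 → (2 * i + 1 < k → 0 < ev (g.f (false, i)) z) ∧
    (k < 2 * i + 1 → ev (g.f (false, i)) z < 0)) ∧
  (∀ c, 2 ≤ c → c < 10 * G p + 3 → xc p j c = false → (c < j → 0 < ev (g.f (true, c)) z) ∧
    (j < c → ev (g.f (true, c)) z < 0))

theorem re_row {i : ℕ} (h : 2 ≤ i) (h' : i < 2 * T p + 2) : (arrOf p).Re (false, i) := by
  refine ⟨h, ?_⟩
  change i + 2 < (if false = true then mc p else mr p)
  rw [if_neg (by decide)]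
  unfold mr
  omega

theorem re_col {i : ℕ} (h : 2 ≤ i) (h' : i < 10 * G p + 3) : (arrOf p).Re (true, i) := by
  refine ⟨h, ?_⟩
  change i + 2 < (if true = true then mc p else mr p)
  rw [if_pos rfl]
  unfold mc
  omega

theorem reg_row {i j k : ℕ} (h : 2 ≤ i) (h' : i < 2 * T p + 2) (hj : 2 ≤ j)
    (hj' : j + 1 < mc p) (hk : 1 < k) (hk' : k < 2 * (mr p - 1) + 1) :
    (2 * i + 1 < k → (arrOf p).Reg (false, i) true (true, j) k) ∧
    (k < 2 * i + 1 → (arrOf p).Reg (false, i) false (true, j) k) := by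
  have e1 : ∀ i', (arrOf p).sd true j i' = 2 * i' + 1 := by
    intro i'
    change (if true = true then sdc p j i' else sdr p j i') = _
    rw [if_pos rfl, sdc, if_neg (by omega)]
  constructor
  · intro h1
    refine ⟨re_row h h', by simp, by simp only; omega, ?_, ?_⟩
    · exact hj'
    · rw [if_neg (by simp), if_pos rfl]
      simp only
      rw [e1, e1]
      refine ⟨h1, ?_⟩
      exact hk'
  · intro h1
    refine ⟨re_row h h', by simp, by simp only; omega, ?_, ?_⟩
    · exact hj'
    · rw [if_neg (by simp), if_neg (by simp)]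
      simp only
      rw [e1, e1]
      exact ⟨by omega, h1⟩

theorem reg_col {c j k : ℕ} (h : 2 ≤ c) (h' : c < 10 * G p + 3) (hj : 2 ≤ j)
    (hj' : j + 1 < mc p) (hk : 1 < k) (hk' : k < 2 * (mr p - 1) + 1) (hcj : c ≠ j)
    (hx : xc p j c = false) : (arrOf p).Reg (true, c) (decide (c < j)) (true, j) k := by
  have e1 : ∀ i', (arrOf p).sd true j i' = 2 * i' + 1 := by
    intro i'
    change (if true = true then sdc p j i' else sdr p j i') = _
    rw [if_pos rfl, sdc, if_neg (by omega)]
  refine ⟨re_col h h', ?_, by simp only; omega, hj', ?_⟩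
  · intro he
    exact hcj (Prod.ext_iff.1 he).2.symm
  · rw [if_pos rfl]
    simp only
    rw [e1, e1]
    refine ⟨by omega, ?_, ?_⟩
    · exact hk'
    · have e2 : (arrOf p).x true j c = false := by
        change (if true = true then xc p j c else xr p j c) = _
        rw [if_pos rfl, hx]
      rw [e2, if_neg (by simp)]
      trivial

theorem sgn_pos {x : ℝ} (h : 0 < sgn true * x) : 0 < x := by
  unfold sgn at h
  rwa [if_pos rfl, one_mul] at h

theorem sgn_neg {x : ℝ} (h : 0 < sgn false * x) : x < 0 := by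
  unfold sgn at h
  rw [if_neg (by decide)] at h
  linarith

theorem sgn_dec {x : ℝ} {c j : ℕ} (h : 0 < sgn (decide (c < j)) * x) :
    (c < j → 0 < x) ∧ (j < c → x < 0) := by
  constructor
  · intro h1
    rw [decide_eq_true h1] at h
    exact sgn_pos h
  · intro h1
    rw [decide_eq_false (by omega)] at h
    exact sgn_neg h

theorem at_of {g : GD p} {z : ℝ × ℝ} {j k : ℕ} (hj : 2 ≤ j)
    (hj' : j + 1 < mc p) (hk : 1 < k) (hk' : k < 2 * (mr p - 1) + 1)
    (hrow : ∀ i s, 2 ≤ i → i < 2 * T p + 2 → 2 * i + 1 ≠ k →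
      (arrOf p).Reg (false, i) s (true, j) k → 0 < sgn s * ev (g.f (false, i)) z)
    (hcol : ∀ c s, xc p j c = false → (arrOf p).Reg (true, c) s (true, j) k →
      0 < sgn s * ev (g.f (true, c)) z) : At g z j k := by
  constructor
  · intro i hi hi'
    obtain ⟨h1, h2⟩ := reg_row hi hi' hj hj' hk hk'
    exact ⟨fun h => sgn_pos (hrow i true hi hi' (by omega) (h1 h)),
      fun h => sgn_neg (hrow i false hi hi' (by omega) (h2 h))⟩
  · intro c hc hc' hx
    by_cases hcj : c = j
    · subst hcj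
      exact ⟨fun h => absurd h (lt_irrefl _), fun h => absurd h (lt_irrefl _)⟩
    · exact sgn_dec (hcol c _ hx (reg_col hc hc' hj hj' hk hk' hcj hx))

theorem W_at (g : GD p) {k : ℕ} (hk : 1 < k) (hk' : k < 2 * (mr p - 1) + 1) :
    At g (g.W (true, mc p - 2) k) (mc p - 2) k := by
  have hmc : mc p = 10 * G p + 5 := rfl
  have h1 : (arrOf p).IsL (true, mc p - 2) := by
    change mc p - 2 < mc p
    omega
  have h2 : k < (arrOf p).S := by
    change k < mc p + T p + 2 * mr p
    omega
  exact at_of (by omega) (by omega) hk hk' (fun i s _ _ _ h => g.hW _ k h1 h2 _ s h)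
    (fun c s _ h => g.hW _ k h1 h2 _ s h)

theorem XR_at (g : GD p) {S r : ℕ} (hS : 2 ≤ S) (hS' : S < 10 * G p + 3) (hr : 2 ≤ r)
    (hr' : r < 2 * T p + 2) :
    At g (g.X (true, S) (false, r)) S (2 * r + 1) ∧
      ev (g.f (true, S)) (g.X (true, S) (false, r)) = 0 ∧
      ev (g.f (false, r)) (g.X (true, S) (false, r)) = 0 := by
  have hmc : mc p = 10 * G p + 5 := rfl
  have hmr : mr p = 2 * T p + 4 := rfl
  obtain ⟨h1, h2, -, h3⟩ := g.hX (true, S) (false, r) (re_col hS hS') (re_row hr hr')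
    (by simp) (by unfold Arr.cr; simp)
  have hsl : (arrOf p).sl (true, S) (false, r) = 2 * r + 1 := by
    unfold Arr.sl
    rw [if_neg (by simp)]
    change (if true = true then sdc p S r else sdr p S r) = _
    rw [if_pos rfl, sdc, if_neg (by omega)]
  rw [hsl] at h3
  refine ⟨at_of hS (by omega) (by omega) (by omega) (fun i s _ _ hne h => h3 _ s ?_ h)
    (fun c s _ h => h3 _ s (by simp) h), h1, h2⟩
  intro he
  apply hne
  have := (Prod.ext_iff.1 he).2
  simp only at this
  omega

theorem XC_at (g : GD p) {c c' : ℕ} (hc : 2 ≤ c) (hc2 : c < 10 * G p + 3) (hc' : 2 ≤ c')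
    (hc2' : c' < 10 * G p + 3) (hx : xc p c c' = true) (hk : 1 < ssc p c c')
    (hk' : ssc p c c' < 2 * (mr p - 1) + 1) :
    At g (g.X (true, c) (true, c')) c (ssc p c c') ∧
      ev (g.f (true, c)) (g.X (true, c) (true, c')) = 0 ∧
      ev (g.f (true, c')) (g.X (true, c) (true, c')) = 0 ∧
      ∀ c'', 2 ≤ c'' → c'' < 10 * G p + 3 → c'' ≠ c → c'' ≠ c' → xc p c c'' = true →
        ssc p c c'' ≠ ssc p c c' → ev (g.f (true, c'')) (g.X (true, c) (true, c')) ≠ 0 := by
  have hmc : mc p = 10 * G p + 5 := rfl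
  have hmr : mr p = 2 * T p + 4 := rfl
  have hne : c ≠ c' := by
    rintro rfl
    unfold xc at hx
    simp at hx
  obtain ⟨h1, h2, -, h3⟩ := g.hX (true, c) (true, c') (re_col hc hc2) (re_col hc' hc2')
    (fun he => hne (Prod.ext_iff.1 he).2) (by
      unfold Arr.cr
      rw [if_pos rfl]
      change (if true = true then xc p c c' else xr p c c') = _
      rw [if_pos rfl, hx])
  have hsl : (arrOf p).sl (true, c) (true, c') = ssc p c c' := by
    unfold Arr.sl
    rw [if_pos rfl]
    change (if true = true then ssc p c c' else ssr p c c') = _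
    rw [if_pos rfl]
  rw [hsl] at h3
  refine ⟨at_of hc (by omega) hk hk' (fun i s _ _ _ h => h3 _ s (by simp) h)
    (fun d s hd h => h3 _ s ?_ h), h1, h2, ?_⟩
  · intro he
    have := (Prod.ext_iff.1 he).2
    simp only at this
    rw [this, hx] at hd
    exact absurd hd (by decide)
  · intro d hd hd' hdc hdc' hxd hsd h0
    have e1 : ∀ i', (arrOf p).sd true c i' = 2 * i' + 1 := by
      intro i'
      change (if true = true then sdc p c i' else sdr p c i') = _
      rw [if_pos rfl, sdc, if_neg (by omega)]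
    have e2 : (arrOf p).x true c d = true := by
      change (if true = true then xc p c d else xr p c d) = _
      rw [if_pos rfl, hxd]
    have e3 : (arrOf p).ss true c d = ssc p c d := by
      change (if true = true then ssc p c d else ssr p c d) = _
      rw [if_pos rfl]
    -- one of the two sides applies
    have key : ∃ s, (arrOf p).Reg (true, d) s (true, c) (ssc p c c') := by
      rcases Nat.lt_or_gt_of_ne hsd with h | h
      · refine ⟨decide (d < c), re_col hd hd', ?_, by simp only; omega, ?_, ?_⟩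
        · intro he
          exact hdc (Prod.ext_iff.1 he).2.symm
        · change c + 1 < mc p
          omega
        · rw [if_pos rfl]
          simp only
          rw [e1, e1, e2, if_pos rfl, if_pos trivial, e3]
          exact ⟨by omega, hk', h⟩
      · refine ⟨!decide (d < c), re_col hd hd', ?_, by simp only; omega, ?_, ?_⟩
        · intro he
          exact hdc (Prod.ext_iff.1 he).2.symm
        · change c + 1 < mc p
          omega
        · rw [if_pos rfl]
          simp only
          rw [e1, e1, e2, if_pos rfl, if_neg (by cases decide (d < c) <;> simp), e3]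
          exact ⟨by omega, hk', h⟩
    obtain ⟨s, hs⟩ := key
    have := h3 _ s (fun he => hdc' (Prod.ext_iff.1 he).2) hs
    rw [h0, mul_zero] at this
    exact absurd this (lt_irrefl _)

end Run7.h688.Seg
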