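import Pool.Agent.Run7.h688.Seg.Alg1

/-!
# Piece S_ALG of MP_beb3fe_lc, part 2: comparisons in the chart
-/

set_option autoImplicit false

namespace Run7.h688.Seg

open Run7.h749 Run7.h749.Arr Pool.Agent.NPC.ER.Oslp Pool.Agent.NPC.ER.Sgn

variable {p : List Ins}

/-- The chart. -/
structure Ch (g : GD p) where
  Y : ℝ × ℝ → ℝ
  h : ℝ × ℝ → ℝ
  D : Ln → ℝ
  E : Ln → ℝ
  π : Ln → ℝ
  pos : ∀ a z, 0 ≤ ev (g.f (true, 2)) z →
    ∃ u : ℝ, 0 < u ∧ ev (g.f a) z = u * (D a * Y z + E a + π a * h z)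
  h1 : ∀ z, ev (g.f (true, 2)) z = 0 → h z = 1
  h2 : ∀ z, 0 < ev (g.f (true, 2)) z → h z < 1
  hD : ∀ i, 2 ≤ i → i < 2 * T p + 2 → 0 < D (false, i)
  hD2 : D (true, 2) = 0
  hlo : ∀ i, 2 ≤ i → i < 2 * T p + 2 → i % 2 = 0 → 0 < π (false, i)
  hhi : ∀ i, 2 ≤ i → i < 2 * T p + 2 → i % 2 = 1 → π (false, i) < 0
  hcol : ∀ c, 2 ≤ c → c < 10 * G p + 3 → π (true, c) < 0

theorem T_pos (p : List Ins) : 4 ≤ T p := by unfold T G; omega

theorem P_signs (g : GD p) :
    (∀ i, 2 ≤ i → i < 2 * T p + 2 → i % 2 = 0 →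
      0 < ev (g.f (false, i)) (g.W (true, 1) (2 * T p + 4))) ∧
    (∀ i, 2 ≤ i → i < 2 * T p + 2 → i % 2 = 1 →
      ev (g.f (false, i)) (g.W (true, 1) (2 * T p + 4)) < 0) ∧
    ∀ c, 2 ≤ c → c < 10 * G p + 3 → ev (g.f (true, c)) (g.W (true, 1) (2 * T p + 4)) < 0 := by
  have hmc : mc p = 10 * G p + 5 := rfl
  have hmr : mr p = 2 * T p + 4 := rfl
  have hL : (arrOf p).IsL (true, 1) := by
    change 1 < mc p
    omega
  have hS : 2 * T p + 4 < (arrOf p).S := by
    change 2 * T p + 4 < mc p + T p + 2 * mr p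
    omega
  have e1 : ∀ i', (arrOf p).sd true 1 i' = 2 * str p i' + 1 := by
    intro i'
    change (if true = true then sdc p 1 i' else sdr p 1 i') = _
    rw [if_pos rfl, sdc, if_pos (by omega)]
  have e0 : str p 0 = 0 := by unfold str isR; simp
  have em : str p (mr p - 1) = mr p - 1 := by
    unfold str isR
    rw [hmr]
    simp
  have hW := g.hW (true, 1) (2 * T p + 4) hL hS
  refine ⟨fun i h h' hi => ?_, fun i h h' hi => ?_, fun c h h' => ?_⟩
  · refine sgn_pos (hW (false, i) true ⟨re_row h h', by simp, by simp only; omega, ?_, ?_⟩)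
    · change 1 + 1 < mc p
      omega
    · rw [if_neg (by simp), if_pos rfl]
      simp only
      rw [e1, e1]
      have : (arrOf p).m false = mr p := rfl
      rw [this, em]
      have e2 : str p i = 2 + (i - 2) / 2 := by
        unfold str isR
        rw [if_pos (by simp; omega), if_pos hi]
      rw [e2]
      omega
  · refine sgn_neg (hW (false, i) false ⟨re_row h h', by simp, by simp only; omega, ?_, ?_⟩)
    · change 1 + 1 < mc p
      omega
    · rw [if_neg (by simp), if_neg (by simp)]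
      simp only
      rw [e1, e1, e0]
      have e2 : str p i = 2 + T p + (i - 3) / 2 := by
        unfold str isR
        rw [if_pos (by simp; omega), if_neg (by omega)]
      rw [e2]
      omega
  · refine sgn_neg (hW (true, c) false ⟨re_col h h', ?_, by simp only; omega, ?_, ?_⟩)
    · intro he
      have := (Prod.ext_iff.1 he).2
      simp only at this
      omega
    · change 1 + 1 < mc p
      omega
    · rw [if_pos rfl]
      simp only
      rw [e1, e1, e0]
      have : (arrOf p).m (!true) = mr p := rfl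
      rw [this, em]
      have e2 : (arrOf p).x true 1 c = false := by
        change (if true = true then xc p 1 c else xr p 1 c) = _
        rw [if_pos rfl]
        unfold xc inS
        simp
      rw [e2, if_neg (by simp)]
      refine ⟨by omega, by omega, ?_⟩
      rw [decide_eq_false (by omega)]

theorem exists_ch (g : GD p) : Nonempty (Ch g) := by
  have hT := T_pos p
  have hG : T p = 2 * G p := rfl
  obtain ⟨P1, P2, P3⟩ := P_signs g
  set P := g.W (true, 1) (2 * T p + 4) with hP
  have hcP : ev (g.f (true, 2)) P < 0 := P3 2 le_rfl (by omega)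
  have hq : ∀ i, 2 ≤ i → i < 2 * T p + 2 → _ := fun i h h' =>
    XR_at g (S := 2) (r := i) le_rfl (by omega) h h'
  obtain ⟨s, D, E, hDc, hch⟩ := ev_chart (g.f (true, 2)) P (g.X (true, 2) (false, 2)) hcP
    (hq 2 le_rfl (by omega)).2.1
  -- on the reference column
  have hon : ∀ i, 2 ≤ i → i < 2 * T p + 2 → ∀ f, ev f (g.X (true, 2) (false, i)) =
      D f * s (g.X (true, 2) (false, i)) + E f + ev f P := by
    intro i h h' f
    rw [hch f, (hq i h h').2.1]
    ring
  have hsame : ∀ i i', 2 ≤ i → i < i' → i' < 2 * T p + 2 →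
      0 < D (g.f (false, i)) * D (g.f (false, i')) := by
    intro i i' h h' h''
    obtain ⟨a1, a2, a3⟩ := hq i h (by omega)
    obtain ⟨b1, b2, b3⟩ := hq i' (by omega) h''
    have c1 := (b1.1 i h (by omega)).1 (by omega)
    have c2 := (a1.1 i' (by omega) h'').2 (by omega)
    rw [hon i' (by omega) h''] at c1 b3
    rw [hon i h (by omega)] at c2 a3
    have c3 : 0 < D (g.f (false, i)) *
        (s (g.X (true, 2) (false, i')) - s (g.X (true, 2) (false, i))) := by nlinarith
    have c4 : 0 < D (g.f (false, i')) *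
        (s (g.X (true, 2) (false, i')) - s (g.X (true, 2) (false, i))) := by nlinarith
    have c5 := mul_pos c3 c4
    have c6 : D (g.f (false, i)) * (s (g.X (true, 2) (false, i')) - s (g.X (true, 2) (false, i))) *
        (D (g.f (false, i')) * (s (g.X (true, 2) (false, i')) - s (g.X (true, 2) (false, i)))) =
        (D (g.f (false, i)) * D (g.f (false, i'))) *
          (s (g.X (true, 2) (false, i')) - s (g.X (true, 2) (false, i))) ^ 2 := by ring
    rw [c6] at c5
    by_contra hcon
    push Not at hcon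
    have := mul_nonpos_of_nonpos_of_nonneg hcon
      (sq_nonneg (s (g.X (true, 2) (false, i')) - s (g.X (true, 2) (false, i))))
    linarith
  obtain ⟨ε, hε, hεD⟩ : ∃ ε : ℝ, ε * ε = 1 ∧ ∀ i, 2 ≤ i → i < 2 * T p + 2 →
      0 < ε * D (g.f (false, i)) := by
    have h23 := hsame 2 3 le_rfl (by omega) (by omega)
    have hne : D (g.f (false, 2)) ≠ 0 := by
      intro h0
      rw [h0, zero_mul] at h23
      exact lt_irrefl _ h23
    rcases lt_or_gt_of_ne hne with h0 | h0
    · refine ⟨-1, by norm_num, fun i h h' => ?_⟩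
      rcases Nat.eq_or_lt_of_le h with rfl | h2
      · linarith
      · have := hsame 2 i le_rfl h2 h'
        nlinarith
    · refine ⟨1, by norm_num, fun i h h' => ?_⟩
      rcases Nat.eq_or_lt_of_le h with rfl | h2
      · linarith
      · have := hsame 2 i le_rfl h2 h'
        nlinarith
  have hu : ∀ z, 0 ≤ ev (g.f (true, 2)) z → 1 ≤ 1 - ev (g.f (true, 2)) z / ev (g.f (true, 2)) P := by
    intro z hz
    have : ev (g.f (true, 2)) z / ev (g.f (true, 2)) P ≤ 0 := div_nonpos_of_nonneg_of_nonpos hz hcP.le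
    linarith
  refine ⟨{
    Y := fun z => ε * s z / (1 - ev (g.f (true, 2)) z / ev (g.f (true, 2)) P)
    h := fun z => 1 / (1 - ev (g.f (true, 2)) z / ev (g.f (true, 2)) P)
    D := fun a => ε * D (g.f a)
    E := fun a => E (g.f a)
    π := fun a => ev (g.f a) P
    pos := ?_
    h1 := ?_
    h2 := ?_
    hD := hεD
    hD2 := by rw [hDc, mul_zero]
    hlo := P1
    hhi := P2
    hcol := P3 }⟩
  · intro a z hz
    have h1 := hu z hz
    refine ⟨1 - ev (g.f (true, 2)) z / ev (g.f (true, 2)) P, by linarith, ?_⟩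
    set u := 1 - ev (g.f (true, 2)) z / ev (g.f (true, 2)) P with hudef
    have hu0 : u ≠ 0 := by linarith
    rw [hch (g.f a) z, ← hudef]
    field_simp
    linear_combination -(D (g.f a) * s z) * hε
  · intro z hz
    simp only [hz, zero_div, sub_zero, div_one]
  · intro z hz
    have : ev (g.f (true, 2)) z / ev (g.f (true, 2)) P < 0 := div_neg_of_pos_of_neg hz hcP
    rw [div_lt_one (by linarith)]
    linarith

section

variable {g : GD p}

theorem Ch.neg (C : Ch g) {a : Ln} {z : ℝ × ℝ} (hz : 0 ≤ ev (g.f (true, 2)) z)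
    (h : ev (g.f a) z < 0) : C.D a * C.Y z + C.E a + C.π a * C.h z < 0 := by
  obtain ⟨u, hu, he⟩ := C.pos a z hz
  rw [he] at h
  by_contra hcon
  push Not at hcon
  have := mul_nonneg hu.le hcon
  linarith

theorem Ch.posi (C : Ch g) {a : Ln} {z : ℝ × ℝ} (hz : 0 ≤ ev (g.f (true, 2)) z)
    (h : 0 < ev (g.f a) z) : 0 < C.D a * C.Y z + C.E a + C.π a * C.h z := by
  obtain ⟨u, hu, he⟩ := C.pos a z hz
  rw [he] at h
  exact (mul_pos_iff_of_pos_left hu).1 h

theorem Ch.zero (C : Ch g) {a : Ln} {z : ℝ × ℝ} (hz : 0 ≤ ev (g.f (true, 2)) z)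
    (h : ev (g.f a) z = 0) : C.D a * C.Y z + C.E a + C.π a * C.h z = 0 := by
  obtain ⟨u, hu, he⟩ := C.pos a z hz
  rw [he] at h
  rcases mul_eq_zero.1 h with h | h
  · linarith
  · exact h

/-- (a) Strips separate. -/
theorem Ch.sep (C : Ch g) {t : ℕ} (ht : t < T p) {z z' : ℝ × ℝ}
    (hz : 0 ≤ ev (g.f (true, 2)) z) (hz' : 0 ≤ ev (g.f (true, 2)) z')
    (h1 : ev (g.f (false, 2 + 2 * t)) z < 0) (h2 : ev (g.f (false, 3 + 2 * t)) z < 0)
    (h3 : 0 < ev (g.f (false, 2 + 2 * t)) z') (h4 : 0 < ev (g.f (false, 3 + 2 * t)) z') :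
    C.Y z < C.Y z' := by
  have e1 := C.neg hz h1
  have e2 := C.neg hz h2
  have e3 := C.posi hz' h3
  have e4 := C.posi hz' h4
  have p1 := C.hlo (2 + 2 * t) (by omega) (by omega) (by omega)
  have p2 := C.hhi (3 + 2 * t) (by omega) (by omega) (by omega)
  have d1 := C.hD (2 + 2 * t) (by omega) (by omega)
  have d2 := C.hD (3 + 2 * t) (by omega) (by omega)
  set π0 := C.π (false, 2 + 2 * t)
  set π1 := C.π (false, 3 + 2 * t)
  set D0 := C.D (false, 2 + 2 * t)
  set D1 := C.D (false, 3 + 2 * t)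
  set E0 := C.E (false, 2 + 2 * t)
  set E1 := C.E (false, 3 + 2 * t)
  have hK : 0 < -π1 * D0 + π0 * D1 := by
    have := mul_pos (neg_pos.2 p2) d1
    have := mul_pos p1 d2
    linarith
  have a1 := mul_neg_of_pos_of_neg (neg_pos.2 p2) e1
  have a2 := mul_neg_of_pos_of_neg p1 e2
  have a3 := mul_pos (neg_pos.2 p2) e3
  have a4 := mul_pos p1 e4
  have b : (-π1 * D0 + π0 * D1) * C.Y z < (-π1 * D0 + π0 * D1) * C.Y z' := by
    nlinarith
  exact lt_of_mul_lt_mul_left b hK.le

theorem xc_false {j c : ℕ} (h : inS p c = false) : xc p j c = false := by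
  unfold xc
  rw [h]
  simp

theorem inS_two : inS p 2 = false := by
  unfold inS
  simp

theorem At.dom {z : ℝ × ℝ} {j k : ℕ} (h : At g z j k) (hj : 2 < j) :
    0 < ev (g.f (true, 2)) z :=
  (h.2 2 le_rfl (by have := T_pos p; unfold T at this; omega) (xc_false inS_two)).1 hj

/-- The positivity used for comparisons. -/
theorem Ch.Kpos (C : Ch g) {S r : ℕ} (hS : 2 ≤ S) (hS' : S < 10 * G p + 3)
    (hr : 2 ≤ r) (hr' : r < 2 * T p + 2) (hin : inS p S = false) :
    0 < -C.π (true, S) * C.D (false, r) + C.π (false, r) * C.D (true, S) := by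
  have hκ := C.hcol S hS hS'
  have hD := C.hD r hr hr'
  rcases Nat.eq_or_lt_of_le hS with rfl | hS2
  · rw [C.hD2, mul_zero, add_zero]
    exact mul_pos (neg_pos.2 hκ) hD
  have hG : 10 * G p + 3 > 2 := by omega
  obtain ⟨a1, a2, a3⟩ := XR_at g (S := 2) (r := r) le_rfl hG hr hr'
  obtain ⟨b1, b2, b3⟩ := XR_at g hS hS' hr hr'
  set q := g.X (true, 2) (false, r)
  set s0 := g.X (true, S) (false, r)
  have c1 := (a1.2 S hS hS' (xc_false hin)).2 hS2
  have d1 := b1.dom hS2
  have e1 := C.h1 q a2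
  have e2 := C.h2 s0 d1
  have f1 := C.zero a2.ge a3
  have f2 := C.neg a2.ge c1
  have f3 := C.zero d1.le b3
  have f4 := C.zero d1.le b2
  set κ := C.π (true, S)
  set πr := C.π (false, r)
  set D := C.D (false, r)
  set E := C.E (false, r)
  set β := C.D (true, S)
  set α := C.E (true, S)
  have key : (-κ * D + πr * β) * (C.Y q - C.Y s0) = πr * (β * C.Y q + α + κ * C.h q) := by
    linear_combination -κ * f1 + κ * f3 - πr * f4
  have key2 : D * (C.Y q - C.Y s0) = - πr * (C.h q - C.h s0) := by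
    linear_combination f1 - f3
  have hpos : 0 < C.h q - C.h s0 := by linarith
  rcases Nat.mod_two_eq_zero_or_one r with hpar | hpar
  · have hπ := C.hlo r hr hr' hpar
    have g1 : D * (C.Y q - C.Y s0) < 0 := by
      rw [key2]
      have := mul_pos hπ hpos
      linarith
    have g2 : C.Y q - C.Y s0 < 0 := by
      by_contra hcon
      push Not at hcon
      have := mul_nonneg hD.le hcon
      linarith
    have g3 : (-κ * D + πr * β) * (C.Y q - C.Y s0) < 0 := by
      rw [key]
      exact mul_neg_of_pos_of_neg hπ f2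
    by_contra hcon
    push Not at hcon
    have := mul_nonneg_of_nonpos_of_nonpos hcon g2.le
    linarith
  · have hπ := C.hhi r hr hr' hpar
    have g1 : 0 < D * (C.Y q - C.Y s0) := by
      rw [key2]
      have := mul_pos (neg_pos.2 hπ) hpos
      linarith
    have g2 : 0 < C.Y q - C.Y s0 := (mul_pos_iff_of_pos_left hD).1 g1
    have g3 : 0 < (-κ * D + πr * β) * (C.Y q - C.Y s0) := by
      rw [key]
      exact mul_pos_of_neg_of_neg hπ f2
    by_contra hcon
    push Not at hcon
    have := mul_nonpos_of_nonpos_of_nonneg hcon g2.le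
    linarith

/-- (b) Comparison with the point of a column on a row. -/
theorem Ch.cmp (C : Ch g) {S r : ℕ} (hS : 2 ≤ S) (hS' : S < 10 * G p + 3)
    (hr : 2 ≤ r) (hr' : r < 2 * T p + 2) (hin : inS p S = false) {z : ℝ × ℝ}
    (hz : 0 ≤ ev (g.f (true, 2)) z) :
    (r % 2 = 1 → ev (g.f (false, r)) z < 0 → 0 < ev (g.f (true, S)) z →
      C.Y z < C.Y (g.X (true, S) (false, r))) ∧
    (r % 2 = 1 → 0 < ev (g.f (false, r)) z → ev (g.f (true, S)) z < 0 →
      C.Y (g.X (true, S) (false, r)) < C.Y z) ∧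
    (r % 2 = 0 → 0 < ev (g.f (false, r)) z → 0 < ev (g.f (true, S)) z →
      C.Y (g.X (true, S) (false, r)) < C.Y z) ∧
    (r % 2 = 0 → ev (g.f (false, r)) z < 0 → ev (g.f (true, S)) z < 0 →
      C.Y z < C.Y (g.X (true, S) (false, r))) := by
  have hK := C.Kpos hS hS' hr hr' hin
  have hκ := C.hcol S hS hS'
  obtain ⟨b1, b2, b3⟩ := XR_at g hS hS' hr hr'
  set s0 := g.X (true, S) (false, r)
  have hd : 0 ≤ ev (g.f (true, 2)) s0 := by
    rcases Nat.eq_or_lt_of_le hS with rfl | hS2
    · exact b2.ge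
    · exact (b1.dom hS2).le
  have f3 := C.zero hd b3
  have f4 := C.zero hd b2
  set κ := C.π (true, S)
  set πr := C.π (false, r)
  set D := C.D (false, r)
  set E := C.E (false, r)
  set β := C.D (true, S)
  set α := C.E (true, S)
  have key : (-κ * D + πr * β) * (C.Y z - C.Y s0) =
      -κ * (D * C.Y z + E + πr * C.h z) + πr * (β * C.Y z + α + κ * C.h z) := by
    linear_combination κ * f3 - πr * f4
  have up : 0 < (-κ * D + πr * β) * (C.Y z - C.Y s0) → C.Y s0 < C.Y z := by
    intro h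
    have := (mul_pos_iff_of_pos_left hK).1 h
    linarith
  have dn : (-κ * D + πr * β) * (C.Y z - C.Y s0) < 0 → C.Y z < C.Y s0 := by
    intro h
    by_contra hcon
    push Not at hcon
    have := mul_nonneg hK.le (sub_nonneg.2 hcon)
    linarith
  refine ⟨fun hp h1 h2 => dn ?_, fun hp h1 h2 => up ?_, fun hp h1 h2 => up ?_,
    fun hp h1 h2 => dn ?_⟩
  · have e1 := C.neg hz h1
    have e2 := C.posi hz h2
    have hπ := C.hhi r hr hr' hp
    rw [key]
    have := mul_neg_of_pos_of_neg (neg_pos.2 hκ) e1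
    have := mul_neg_of_neg_of_pos hπ e2
    linarith
  · have e1 := C.posi hz h1
    have e2 := C.neg hz h2
    have hπ := C.hhi r hr hr' hp
    rw [key]
    have := mul_pos (neg_pos.2 hκ) e1
    have := mul_pos_of_neg_of_neg hπ e2
    linarith
  · have e1 := C.posi hz h1
    have e2 := C.posi hz h2
    have hπ := C.hlo r hr hr' hp
    rw [key]
    have := mul_pos (neg_pos.2 hκ) e1
    have := mul_pos hπ e2
    linarith
  · have e1 := C.neg hz h1
    have e2 := C.neg hz h2
    have hπ := C.hlo r hr hr' hp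
    rw [key]
    have := mul_neg_of_pos_of_neg (neg_pos.2 hκ) e1
    have := mul_neg_of_pos_of_neg hπ e2
    linarith

end

end Run7.h688.Seg
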