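import Pool.Agent.Run7.h688.Seg.Alg2

/-!
# Piece S_ALG of MP_beb3fe_lc, part 3: slabs
-/

set_option autoImplicit false

namespace Run7.h688.Seg

open Run7.h749 Run7.h749.Arr Pool.Agent.NPC.ER.Oslp Pool.Agent.NPC.ER.Sgn
open Pool.Agent.K1H23.PC.BS (PH)

variable {p : List Ins}

theorem PH_lines {B1 B2 B3 B4 C1 C2 C3 C4 y12 y13 y14 y23 y24 y34 : ℝ}
    (h12 : B1 ≠ B2) (h13 : B1 ≠ B3) (h14 : B1 ≠ B4) (h23 : B2 ≠ B3) (h24 : B2 ≠ B4)
    (h34 : B3 ≠ B4) (e12 : B1 * y12 + C1 = B2 * y12 + C2) (e13 : B1 * y13 + C1 = B3 * y13 + C3)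
    (e14 : B1 * y14 + C1 = B4 * y14 + C4) (e23 : B2 * y23 + C2 = B3 * y23 + C3)
    (e24 : B2 * y24 + C2 = B4 * y24 + C4) (e34 : B3 * y34 + C3 = B4 * y34 + C4) :
    PH y23 y12 y14 y13 y24 y34 = 0 := by
  have s12 := sub_ne_zero.2 h12
  have s13 := sub_ne_zero.2 h13
  have s14 := sub_ne_zero.2 h14
  have s23 := sub_ne_zero.2 h23
  have s24 := sub_ne_zero.2 h24
  have s34 := sub_ne_zero.2 h34
  have r12 : y12 = (C2 - C1) / (B1 - B2) := by rw [eq_div_iff s12]; linarith
  have r13 : y13 = (C3 - C1) / (B1 - B3) := by rw [eq_div_iff s13]; linarith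
  have r14 : y14 = (C4 - C1) / (B1 - B4) := by rw [eq_div_iff s14]; linarith
  have r23 : y23 = (C3 - C2) / (B2 - B3) := by rw [eq_div_iff s23]; linarith
  have r24 : y24 = (C4 - C2) / (B2 - B4) := by rw [eq_div_iff s24]; linarith
  have r34 : y34 = (C4 - C3) / (B3 - B4) := by rw [eq_div_iff s34]; linarith
  rw [r12, r13, r14, r23, r24, r34]
  unfold PH
  field_simp
  ring

/-- The column left of the block of a value. -/
def Sa (p : List Ins) (a : ℕ) : ℕ := 2 + 10 * (G p - 1 - a)

theorem inS_Sa (a : ℕ) : inS p (Sa p a) = false := by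
  unfold inS Sa bpo
  rcases Nat.eq_zero_or_pos (G p - 1 - a) with h | h
  · rw [h]; simp
  · have : (2 + 10 * (G p - 1 - a) - 3) % 10 % 5 = 4 := by omega
    simp [this]

/-- The columns of a slab. -/
def co (p : List Ins) (k b z : ℕ) : ℕ := 3 + 10 * (G p - 1 - k) + 5 * b + z

section

variable {k b : ℕ} {c : ℕ × ℕ × ℕ × ℕ}

theorem blk_co {z : ℕ} (hb : b < 2) (hz : z < 5) : blk (co p k b z) = G p - 1 - k := by
  unfold blk co
  omega

theorem bpo_co {z : ℕ} (hb : b < 2) (hz : z < 5) : bpo (co p k b z) = 5 * b + z := by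
  unfold bpo co
  omega

theorem kof_co {z : ℕ} (hk : k < G p) (hb : b < 2) (hz : z < 5) : kof p (co p k b z) = k := by
  unfold kof
  rw [blk_co hb hz]
  omega

theorem inS_co {z : ℕ} (hop : opd p k = some c) (hk : k < G p) (hb : b < 2) (hz : z < 4) :
    inS p (co p k b z) = true := by
  have h1 : opc p (co p k b z) = some c := by
    unfold opc
    rw [kof_co hk hb (by omega), hop]
  unfold inS
  rw [h1, bpo_co hb (by omega)]
  have h2 : 3 ≤ co p k b z := by unfold co; omega
  have h3 : co p k b z < 3 + 10 * G p := by unfold co; omega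
  have h4 : ¬ z % 5 = 4 := by omega
  simp [h2, h3, h4]

theorem xc_co {z z' : ℕ} (hop : opd p k = some c) (hk : k < G p) (hb : b < 2) (hz : z < 4)
    (hz' : z' < 4) (hne : z ≠ z') : xc p (co p k b z) (co p k b z') = true := by
  unfold xc same
  rw [inS_co hop hk hb hz, inS_co hop hk hb hz', blk_co hb (by omega), blk_co hb (by omega),
    bpo_co hb (by omega), bpo_co hb (by omega)]
  have h1 : (5 * b + z) / 5 = (5 * b + z') / 5 := by omega
  have h2 : ¬ co p k b z = co p k b z' := by unfold co; omega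
  simp [h1, h2]

theorem ssc_co {z z' : ℕ} (hop : opd p k = some c) (hk : k < G p) (hb : b < 2) (hz : z < 4)
    (hz' : z' < 4) (hne : z < z') :
    ssc p (co p k b z) (co p k b z') = hs p c k b (qq (decide (c.1 = 0)) z z') ∧
    ssc p (co p k b z') (co p k b z) = hs p c k b (qq (decide (c.1 = 0)) z z') := by
  have h1 : ∀ z < 4, opc p (co p k b z) = some c := by
    intro z hz
    unfold opc
    rw [kof_co hk hb (by omega), hop]
  have h2 : co p k b z < co p k b z' := by unfold co; omega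
  have e1 : (5 * b + z) % 5 = z := by omega
  have e2 : (5 * b + z') % 5 = z' := by omega
  have e3 : (5 * b + z) / 5 = b := by omega
  have e4 : (5 * b + z') / 5 = b := by omega
  constructor
  · unfold ssc cs
    rw [if_pos h2, h1 z hz, bpo_co hb (by omega), bpo_co hb (by omega), e1, e2, e3,
      kof_co hk hb (by omega)]
  · unfold ssc cs
    rw [if_neg (by omega), h1 z' hz', bpo_co hb (by omega), bpo_co hb (by omega), e1, e2, e4,
      kof_co hk hb (by omega)]

theorem co_bd {z : ℕ} (hk : k < G p) (hb : b < 2) (hz : z < 4) :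
    2 ≤ co p k b z ∧ co p k b z < 10 * G p + 3 ∧ 3 + 10 * (G p - 1 - k) ≤ co p k b z ∧
      co p k b z < 12 + 10 * (G p - 1 - k) := by
  unfold co
  omega

theorem sp0 : sp p 0 = 2 * (p.length + 1) := by unfold sp; rw [if_pos rfl]

theorem spp {a : ℕ} (h : 0 < a) : sp p a = 2 * (a - 1) := by unfold sp; rw [if_neg (by omega)]

theorem sp_bd {a : ℕ} (h : a < G p) : sp p a + 2 ≤ T p := by
  have hG : G p = p.length + 2 := rfl
  have hT : T p = 2 * G p := rfl
  rcases Nat.eq_zero_or_pos a with rfl | h0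
  · rw [sp0]; omega
  · rw [spp h0]; omega

theorem hs_bd (hp : WF 2 p) (hop : opd p k = some c) (q : ℕ) :
    1 < hs p c k b q ∧ hs p c k b q < 2 * (mr p - 1) + 1 := by
  obtain ⟨o, l, i, j⟩ := c
  obtain ⟨w1, w2, w3, w4, w5, w6, w7⟩ := opd_wf hp hop
  have hG : G p = p.length + 2 := rfl
  have hmr : mr p = 2 * T p + 4 := rfl
  have : vl (o, l, i, j) k q < G p := by
    unfold vl
    simp only
    split_ifs <;> omega
  have := sp_bd this
  unfold hs
  split_ifs <;> omega

variable {g : GD p}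

/-- The slope of a column in the chart. -/
noncomputable def Ch.B (C : Ch g) (c : ℕ) : ℝ := -(C.D (true, c) / C.π (true, c))

/-- The intercept of a column in the chart. -/
noncomputable def Ch.Ci (C : Ch g) (c : ℕ) : ℝ := -(C.E (true, c) / C.π (true, c))

theorem Ch.on (C : Ch g) {c : ℕ} (hc : 2 ≤ c) (hc' : c < 10 * G p + 3) {z : ℝ × ℝ}
    (hz : 0 ≤ ev (g.f (true, 2)) z) :
    ev (g.f (true, c)) z = 0 ↔ C.h z = C.B c * C.Y z + C.Ci c := by
  have hπ := (C.hcol c hc hc').ne
  unfold Ch.B Ch.Ci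
  constructor
  · intro h
    have := C.zero hz h
    field_simp
    linarith
  · intro h
    obtain ⟨u, hu, he⟩ := C.pos (true, c) z hz
    rw [he, h]
    field_simp
    ring

theorem Ch.Bne (C : Ch g) (hp : WF 2 p) (hop : opd p k = some c) (hk : k < G p) (hb : b < 2)
    {z z' z'' : ℕ} (hz : z < 4) (hz' : z' < 4) (hz'' : z'' < 4) (h1 : z ≠ z') (h2 : z ≠ z'')
    (h3 : z' ≠ z'') (hne : ssc p (co p k b z) (co p k b z') ≠ ssc p (co p k b z) (co p k b z'')) :
    C.B (co p k b z) ≠ C.B (co p k b z') := by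
  intro hB
  have bd : ∀ z z', z < 4 → z' < 4 → z ≠ z' → 1 < ssc p (co p k b z) (co p k b z') ∧
      ssc p (co p k b z) (co p k b z') < 2 * (mr p - 1) + 1 := by
    intro z z' hz hz' hne
    rcases Nat.lt_or_gt_of_ne hne with h | h
    · rw [(ssc_co hop hk hb hz hz' h).1]; exact hs_bd hp hop _
    · rw [(ssc_co hop hk hb hz' hz h).2]; exact hs_bd hp hop _
  obtain ⟨a1, a2, a3, a4⟩ := co_bd (p := p) hk hb hz
  obtain ⟨b1, b2, b3, b4⟩ := co_bd (p := p) hk hb hz'
  obtain ⟨c1, c2, c3, c4⟩ := co_bd (p := p) hk hb hz''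
  obtain ⟨d1, d2, d3, -⟩ := XC_at g a1 a2 b1 b2 (xc_co hop hk hb hz hz' h1)
    (bd z z' hz hz' h1).1 (bd z z' hz hz' h1).2
  obtain ⟨e1, e2, e3, e4⟩ := XC_at g a1 a2 c1 c2 (xc_co hop hk hb hz hz'' h2)
    (bd z z'' hz hz'' h2).1 (bd z z'' hz hz'' h2).2
  have D1 := (d1.dom (by omega)).le
  have E1 := (e1.dom (by omega)).le
  rw [C.on a1 a2 D1] at d2
  rw [C.on b1 b2 D1] at d3
  rw [C.on a1 a2 E1] at e2
  refine e4 (co p k b z') b1 b2 ?_ ?_ (xc_co hop hk hb hz hz' h1) hne ?_
  · unfold co; omega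
  · unfold co; omega
  · rw [C.on b1 b2 E1, ← hB, e2]
    rw [hB] at d2
    have : C.Ci (co p k b z) = C.Ci (co p k b z') := by linarith
    rw [this]

/-- The heights of the crossings of a slab. -/
theorem Ch.slab (C : Ch g) (hp : WF 2 p) (hop : opd p k = some c) (hk : k < G p) (hb : b < 2) :
    ∃ z : ℕ → ℝ × ℝ, (∀ q < 6, ∃ j, 3 + 10 * (G p - 1 - k) ≤ j ∧ j < 12 + 10 * (G p - 1 - k) ∧
        At g (z q) j (hs p c k b q)) ∧
      PH (C.Y (z 1)) (C.Y (z 5)) (C.Y (z 4)) (C.Y (z 2)) (C.Y (z 3)) (C.Y (z 0)) = 0 := by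
  have bd : ∀ z z', z < 4 → z' < 4 → z ≠ z' → 1 < ssc p (co p k b z) (co p k b z') ∧
      ssc p (co p k b z) (co p k b z') < 2 * (mr p - 1) + 1 := by
    intro z z' hz hz' hne
    rcases Nat.lt_or_gt_of_ne hne with h | h
    · rw [(ssc_co hop hk hb hz hz' h).1]; exact hs_bd hp hop _
    · rw [(ssc_co hop hk hb hz' hz h).2]; exact hs_bd hp hop _
  have cbd := fun z (hz : z < 4) => co_bd (p := p) hk hb hz
  have hX := fun z z' (hz : z < 4) (hz' : z' < 4) (h1 : z ≠ z') =>
    XC_at g (cbd z hz).1 (cbd z hz).2.1 (cbd z' hz').1 (cbd z' hz').2.1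
      (xc_co hop hk hb hz hz' h1) (bd z z' hz hz' h1).1 (bd z z' hz hz' h1).2
  set Z : ℕ → ℕ → ℝ × ℝ := fun z z' => g.X (true, co p k b z) (true, co p k b z') with hZ
  have hat : ∀ z z', z < z' → z' < 4 →
      At g (Z z z') (co p k b z) (hs p c k b (qq (decide (c.1 = 0)) z z')) := by
    intro z z' h h'
    have := (hX z z' (by omega) h' (by omega)).1
    rwa [(ssc_co hop hk hb (by omega) h' h).1] at this
  have hcr : ∀ z z', z < z' → z' < 4 →
      C.B (co p k b z) * C.Y (Z z z') + C.Ci (co p k b z) =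
        C.B (co p k b z') * C.Y (Z z z') + C.Ci (co p k b z') := by
    intro z z' h h'
    obtain ⟨d1, d2, d3, -⟩ := hX z z' (by omega) h' (by omega)
    have hge := (cbd z (by omega)).2.2.1
    have D1 := (d1.dom (by omega)).le
    rw [C.on (cbd z (by omega)).1 (cbd z (by omega)).2.1 D1] at d2
    rw [C.on (cbd z' h').1 (cbd z' h').2.1 D1] at d3
    rw [← d2, ← d3]
  have hBne := fun z z' z'' (hz : z < 4) (hz' : z' < 4) (hz'' : z'' < 4) (h1 : z ≠ z')
    (h2 : z ≠ z'') (h3 : z' ≠ z'') hne => C.Bne hp hop hk hb hz hz' hz'' h1 h2 h3 hne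
  have hwf : ∃ o l i j, c = (o, l, i, j) := ⟨c.1, c.2.1, c.2.2.1, c.2.2.2, rfl⟩
  obtain ⟨o, l, i, j, rfl⟩ := hwf
  obtain ⟨w1, w2, w3, w4, w5, w6, w7⟩ := opd_wf hp hop
  have hG : G p = p.length + 2 := rfl
  have sk := spp (p := p) (a := k) (by omega)
  have sl := spp (p := p) (a := l) (by omega)
  have si := spp (p := p) (a := i) (by omega)
  have sj := spp (p := p) (a := j) (by omega)
  have s0 := sp0 (p := p)
  by_cases ho : o = 0
  · -- addition
    subst ho
    simp only [decide_true] at hat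
    have s12 := ssc_co (z := 2) (z' := 3) hop hk hb (by omega) (by omega) (by omega)
    have s13 := ssc_co (z := 0) (z' := 2) hop hk hb (by omega) (by omega) (by omega)
    have s14 := ssc_co (z := 1) (z' := 2) hop hk hb (by omega) (by omega) (by omega)
    have s23 := ssc_co (z := 0) (z' := 3) hop hk hb (by omega) (by omega) (by omega)
    have s24 := ssc_co (z := 1) (z' := 3) hop hk hb (by omega) (by omega) (by omega)
    have s34 := ssc_co (z := 0) (z' := 1) hop hk hb (by omega) (by omega) (by omega)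
    simp only [decide_true, qq, hs, vl] at s12 s13 s14 s23 s24 s34
    norm_num at s12 s13 s14 s23 s24 s34
    refine ⟨fun q => if q = 0 then Z 0 1 else if q = 1 then Z 0 3 else if q = 2 then Z 0 2 else
      if q = 3 then Z 1 3 else if q = 4 then Z 1 2 else Z 2 3, ?_, ?_⟩
    · intro q hq
      interval_cases q
      · exact ⟨_, (cbd 0 (by omega)).2.2.1, (cbd 0 (by omega)).2.2.2, hat 0 1 (by omega) (by omega)⟩
      · exact ⟨_, (cbd 0 (by omega)).2.2.1, (cbd 0 (by omega)).2.2.2, hat 0 3 (by omega) (by omega)⟩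
      · exact ⟨_, (cbd 0 (by omega)).2.2.1, (cbd 0 (by omega)).2.2.2, hat 0 2 (by omega) (by omega)⟩
      · exact ⟨_, (cbd 1 (by omega)).2.2.1, (cbd 1 (by omega)).2.2.2, hat 1 3 (by omega) (by omega)⟩
      · exact ⟨_, (cbd 1 (by omega)).2.2.1, (cbd 1 (by omega)).2.2.2, hat 1 2 (by omega) (by omega)⟩
      · exact ⟨_, (cbd 2 (by omega)).2.2.1, (cbd 2 (by omega)).2.2.2, hat 2 3 (by omega) (by omega)⟩
    · norm_num
      -- labels: line 1 is column 2, line 2 is column 3, line 3 is column 0, line 4 is column 1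
      refine PH_lines (B1 := C.B (co p k b 2)) (B2 := C.B (co p k b 3)) (B3 := C.B (co p k b 0))
        (B4 := C.B (co p k b 1)) (C1 := C.Ci (co p k b 2)) (C2 := C.Ci (co p k b 3))
        (C3 := C.Ci (co p k b 0)) (C4 := C.Ci (co p k b 1)) ?_ ?_ ?_ ?_ ?_ ?_
        (hcr 2 3 (by omega) (by omega)) (hcr 0 2 (by omega) (by omega)).symm
        (hcr 1 2 (by omega) (by omega)).symm (hcr 0 3 (by omega) (by omega)).symm
        (hcr 1 3 (by omega) (by omega)).symm (hcr 0 1 (by omega) (by omega))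
      · refine hBne 2 3 0 (by omega) (by omega) (by omega) (by omega) (by omega) (by omega) ?_
        rw [s12.1, s13.2]
        split_ifs <;> omega
      · refine hBne 2 0 1 (by omega) (by omega) (by omega) (by omega) (by omega) (by omega) ?_
        rw [s13.2, s14.2]
        split_ifs <;> omega
      · refine hBne 2 1 0 (by omega) (by omega) (by omega) (by omega) (by omega) (by omega) ?_
        rw [s13.2, s14.2]
        split_ifs <;> omega
      · refine hBne 3 0 1 (by omega) (by omega) (by omega) (by omega) (by omega) (by omega) ?_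
        rw [s23.2, s24.2]
        split_ifs <;> omega
      · refine hBne 3 1 0 (by omega) (by omega) (by omega) (by omega) (by omega) (by omega) ?_
        rw [s23.2, s24.2]
        split_ifs <;> omega
      · refine hBne 0 1 3 (by omega) (by omega) (by omega) (by omega) (by omega) (by omega) ?_
        rw [s34.1, s23.1]
        split_ifs <;> omega
  · have so := spp (p := p) (a := o) (by omega)
    have hd : decide (o = 0) = false := by simp [ho]
    simp only [hd] at hat
    have s12 := ssc_co (z := 2) (z' := 3) hop hk hb (by omega) (by omega) (by omega)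
    have s13 := ssc_co (z := 0) (z' := 3) hop hk hb (by omega) (by omega) (by omega)
    have s14 := ssc_co (z := 1) (z' := 3) hop hk hb (by omega) (by omega) (by omega)
    have s23 := ssc_co (z := 0) (z' := 2) hop hk hb (by omega) (by omega) (by omega)
    have s24 := ssc_co (z := 1) (z' := 2) hop hk hb (by omega) (by omega) (by omega)
    have s34 := ssc_co (z := 0) (z' := 1) hop hk hb (by omega) (by omega) (by omega)
    simp only [hd, qq, hs, vl] at s12 s13 s14 s23 s24 s34
    norm_num at s12 s13 s14 s23 s24 s34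
    refine ⟨fun q => if q = 0 then Z 0 1 else if q = 1 then Z 0 2 else if q = 2 then Z 0 3 else
      if q = 3 then Z 1 2 else if q = 4 then Z 1 3 else Z 2 3, ?_, ?_⟩
    · intro q hq
      interval_cases q
      · exact ⟨_, (cbd 0 (by omega)).2.2.1, (cbd 0 (by omega)).2.2.2, hat 0 1 (by omega) (by omega)⟩
      · exact ⟨_, (cbd 0 (by omega)).2.2.1, (cbd 0 (by omega)).2.2.2, hat 0 2 (by omega) (by omega)⟩
      · exact ⟨_, (cbd 0 (by omega)).2.2.1, (cbd 0 (by omega)).2.2.2, hat 0 3 (by omega) (by omega)⟩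
      · exact ⟨_, (cbd 1 (by omega)).2.2.1, (cbd 1 (by omega)).2.2.2, hat 1 2 (by omega) (by omega)⟩
      · exact ⟨_, (cbd 1 (by omega)).2.2.1, (cbd 1 (by omega)).2.2.2, hat 1 3 (by omega) (by omega)⟩
      · exact ⟨_, (cbd 2 (by omega)).2.2.1, (cbd 2 (by omega)).2.2.2, hat 2 3 (by omega) (by omega)⟩
    · norm_num
      -- labels: line 1 is column 3, line 2 is column 2, line 3 is column 0, line 4 is column 1
      refine PH_lines (B1 := C.B (co p k b 3)) (B2 := C.B (co p k b 2)) (B3 := C.B (co p k b 0))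
        (B4 := C.B (co p k b 1)) (C1 := C.Ci (co p k b 3)) (C2 := C.Ci (co p k b 2))
        (C3 := C.Ci (co p k b 0)) (C4 := C.Ci (co p k b 1)) ?_ ?_ ?_ ?_ ?_ ?_
        (hcr 2 3 (by omega) (by omega)).symm (hcr 0 3 (by omega) (by omega)).symm
        (hcr 1 3 (by omega) (by omega)).symm (hcr 0 2 (by omega) (by omega)).symm
        (hcr 1 2 (by omega) (by omega)).symm (hcr 0 1 (by omega) (by omega))
      · refine hBne 3 2 0 (by omega) (by omega) (by omega) (by omega) (by omega) (by omega) ?_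
        rw [s12.2, s13.2]
        split_ifs <;> omega
      · refine hBne 3 0 1 (by omega) (by omega) (by omega) (by omega) (by omega) (by omega) ?_
        rw [s13.2, s14.2]
        split_ifs <;> omega
      · refine hBne 3 1 0 (by omega) (by omega) (by omega) (by omega) (by omega) (by omega) ?_
        rw [s13.2, s14.2]
        split_ifs <;> omega
      · refine hBne 2 0 1 (by omega) (by omega) (by omega) (by omega) (by omega) (by omega) ?_
        rw [s23.2, s24.2]
        split_ifs <;> omega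
      · refine hBne 2 1 0 (by omega) (by omega) (by omega) (by omega) (by omega) (by omega) ?_
        rw [s23.2, s24.2]
        split_ifs <;> omega
      · refine hBne 0 1 2 (by omega) (by omega) (by omega) (by omega) (by omega) (by omega) ?_
        rw [s34.1, s23.1]
        split_ifs <;> omega

end

end Run7.h688.Seg
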