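import Pool.Agent.Run7.h688.Seg.Lin6

/-!
# Piece S_LIN of MP_beb3fe_lc: a solution gives straight lines realising the arrangement
-/

set_option autoImplicit false

namespace Run7.h688.Seg

open Run7.h749 Run7.h749.Arr Pool.Agent.NPC.ER.Oslp Pool.Agent.NPC.ER.Sgn

variable {p : List Ins}

/-- The heights of the rows. -/
noncomputable def alf (p : List Ins) (s w : ℕ → ℝ) (i : ℕ) : ℝ :=
  if i < 2 then -15 + i else if i < 2 * T p + 2 then
    (if i % 2 = 0 then s ((i - 2) / 2) - w ((i - 2) / 2) else s ((i - 3) / 2) + w ((i - 3) / 2))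
  else 14 + ((i - (2 * T p + 2) : ℕ) : ℝ)

/-- The numerical hypotheses. -/
structure Num (p : List Ins) (s w : ℕ → ℝ) (g w0 wm : ℝ) : Prop where
  wm0 : 0 < wm
  wm1 : wm ≤ w0
  w01 : w0 ≤ 1 / 20
  g1 : 16 * w0 ≤ g
  hs : ∀ t < T p, |s t| ≤ 1
  hg : ∀ t, t + 1 < T p → s t + g ≤ s (t + 1)
  hw : ∀ t < T p, wm ≤ w t ∧ w t ≤ w0

section

variable {s w : ℕ → ℝ} {g w0 wm : ℝ}

theorem alf_lo {t : ℕ} (h : t < T p) : alf p s w (2 + 2 * t) = s t - w t := by
  unfold alf
  rw [if_neg (by omega), if_pos (by omega), if_pos (by omega),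
    show (2 + 2 * t - 2) / 2 = t by omega]

theorem alf_hi {t : ℕ} (h : t < T p) : alf p s w (3 + 2 * t) = s t + w t := by
  unfold alf
  rw [if_neg (by omega), if_pos (by omega), if_neg (by omega),
    show (3 + 2 * t - 3) / 2 = t by omega]

theorem alf_0 : alf p s w 0 = -15 := by unfold alf; rw [if_pos (by omega)]; simp
theorem alf_1 : alf p s w 1 = -14 := by unfold alf; rw [if_pos (by omega)]; norm_num
theorem alf_A : alf p s w (2 * T p + 2) = 14 := by
  unfold alf
  rw [if_neg (by omega), if_neg (by omega)]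
  simp
theorem alf_B : alf p s w (2 * T p + 3) = 15 := by
  unfold alf
  rw [if_neg (by omega), if_neg (by omega), show 2 * T p + 3 - (2 * T p + 2) = 1 by omega]
  norm_num

theorem alf_step1 (N : Num p s w g w0 wm) {i : ℕ} (h : i + 1 < mr p) :
    alf p s w i + wm < alf p s w (i + 1) := by
  have hmr : mr p = 2 * T p + 4 := rfl
  have hT := T_pos p
  have n1 := N.wm0
  have n2 := N.wm1
  have n3 := N.w01
  have n4 := N.g1
  rcases Nat.lt_or_ge i 2 with h1 | h1
  · have : i = 0 ∨ i = 1 := by omega
    rcases this with rfl | rfl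
    · rw [alf_0, alf_1]; linarith
    · rw [alf_1, show 1 + 1 = 2 + 2 * 0 by omega, alf_lo (by omega)]
      have a1 := abs_le.1 (N.hs 0 (by omega))
      have a2 := N.hw 0 (by omega)
      linarith [a1.1, a2.2]
  · rcases Nat.lt_or_ge i (2 * T p + 2) with h2 | h2
    · rcases Nat.mod_two_eq_zero_or_one i with h3 | h3
      · obtain ⟨t, rfl⟩ : ∃ t, i = 2 + 2 * t := ⟨(i - 2) / 2, by omega⟩
        rw [alf_lo (by omega), show 2 + 2 * t + 1 = 3 + 2 * t by omega, alf_hi (by omega)]
        have a2 := N.hw t (by omega)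
        linarith
      · obtain ⟨t, rfl⟩ : ∃ t, i = 3 + 2 * t := ⟨(i - 3) / 2, by omega⟩
        rw [alf_hi (by omega)]
        have a1 := abs_le.1 (N.hs t (by omega))
        have a2 := N.hw t (by omega)
        rcases Nat.lt_or_ge (t + 1) (T p) with h4 | h4
        · rw [show 3 + 2 * t + 1 = 2 + 2 * (t + 1) by omega, alf_lo (by omega)]
          have a3 := N.hg t h4
          have a4 := N.hw (t + 1) (by omega)
          linarith
        · rw [show 3 + 2 * t + 1 = 2 * T p + 2 by omega, alf_A]
          linarith [a1.2]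
    · have : i = 2 * T p + 2 := by omega
      rw [this, alf_A, alf_B]
      linarith

theorem alf_step (N : Num p s w g w0 wm) {i i' : ℕ} (h : i < i') (h' : i' < mr p) :
    alf p s w i + wm < alf p s w i' := by
  induction i' with
  | zero => omega
  | succ n ih =>
    have h1 := alf_step1 N h'
    have n1 := N.wm0
    rcases Nat.eq_or_lt_of_le (Nat.lt_succ_iff.1 h) with rfl | h2
    · exact h1
    · have := ih h2 (by omega)
      linarith

theorem s_lt (N : Num p s w g w0 wm) {t t' : ℕ} (h : t < t') (h' : t' < T p) :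
    s t + g ≤ s t' := by
  have n1 := N.wm0
  have n2 := N.wm1
  have n4 := N.g1
  induction t' with
  | zero => omega
  | succ n ih =>
    have h1 := N.hg n h'
    rcases Nat.eq_or_lt_of_le (Nat.lt_succ_iff.1 h) with rfl | h2
    · exact h1
    · have := ih h2 (by omega)
      linarith

end

/-- The width of a strip. -/
noncomputable def wf (p : List Ins) (w0 : ℝ) (w : ℕ → ℝ) (t : ℕ) : ℝ :=
  if t % 2 = 0 then w (val p t) else w0

/-- The height number `q` of a slab. -/
noncomputable def hts (v w : ℕ → ℝ) (c : ℕ × ℕ × ℕ × ℕ) (k b q : ℕ) : ℝ :=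
  if (b = 0 ∧ q ≠ 4) ∨ (b ≠ 0 ∧ q = 4) then th v (vl c k q) + 2 * w (vl c k q)
  else th v (vl c k q) - 2 * w (vl c k q)

/-- The unscaled slope of a column. -/
noncomputable def sB (v w : ℕ → ℝ) (c : ℕ × ℕ × ℕ × ℕ) (k b z : ℕ) : ℝ :=
  bp (decide (c.1 = 0)) (hts v w c k b 5) (hts v w c k b 4) (hts v w c k b 2) (hts v w c k b 3)
    (hts v w c k b 0) z

/-- The unscaled intercept of a column. -/
noncomputable def sC (v w : ℕ → ℝ) (c : ℕ × ℕ × ℕ × ℕ) (k b z : ℕ) : ℝ :=
  cp (decide (c.1 = 0)) (hts v w c k b 5) (hts v w c k b 4) (hts v w c k b 2) (hts v w c k b 3)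
    (hts v w c k b 0) z

/-- The scale of a slab. -/
noncomputable def dl (σ : ℝ) (v w : ℕ → ℝ) (c : ℕ × ℕ × ℕ × ℕ) (k b : ℕ) : ℝ :=
  σ / (128 * (1 + ∑ z ∈ Finset.range 5, (|sB v w c k b z| + |sC v w c k b z|)))

theorem dl_pos {σ : ℝ} (hσ : 0 < σ) (v w : ℕ → ℝ) (c : ℕ × ℕ × ℕ × ℕ) (k b : ℕ) :
    0 < dl σ v w c k b := by
  unfold dl
  have : 0 ≤ ∑ z ∈ Finset.range 5, (|sB v w c k b z| + |sC v w c k b z|) :=
    Finset.sum_nonneg fun _ _ => by positivity
  positivity

theorem dl_bd {σ : ℝ} (hσ : 0 < σ) (v w : ℕ → ℝ) (c : ℕ × ℕ × ℕ × ℕ) (k b : ℕ) {z : ℕ}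
    (hz : z < 5) : |dl σ v w c k b * sB v w c k b z| ≤ σ / 128 ∧
      |dl σ v w c k b * sC v w c k b z| ≤ σ / 128 := by
  have h0 : 0 ≤ ∑ z ∈ Finset.range 5, (|sB v w c k b z| + |sC v w c k b z|) :=
    Finset.sum_nonneg fun _ _ => by positivity
  have h1 : |sB v w c k b z| + |sC v w c k b z| ≤
      ∑ z ∈ Finset.range 5, (|sB v w c k b z| + |sC v w c k b z|) :=
    Finset.single_le_sum (f := fun z => |sB v w c k b z| + |sC v w c k b z|)
      (fun _ _ => by positivity) (Finset.mem_range.2 hz)
  have hd := dl_pos hσ v w c k b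
  have key : dl σ v w c k b *
      (1 + ∑ z ∈ Finset.range 5, (|sB v w c k b z| + |sC v w c k b z|)) = σ / 128 := by
    unfold dl
    have : (1 + ∑ z ∈ Finset.range 5, (|sB v w c k b z| + |sC v w c k b z|)) ≠ 0 := by linarith
    field_simp
  have a1 := abs_nonneg (sB v w c k b z)
  have a2 := abs_nonneg (sC v w c k b z)
  rw [abs_mul, abs_mul, abs_of_pos hd, ← key]
  constructor
  · exact mul_le_mul_of_nonneg_left (by linarith) hd.le
  · exact mul_le_mul_of_nonneg_left (by linarith) hd.le

/-- The slope of a column. -/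
noncomputable def Bf (p : List Ins) (σ : ℝ) (v w : ℕ → ℝ) (j : ℕ) : ℝ :=
  if inS p j = true then (match opc p j with
    | none => 0
    | some c => dl σ v w c (kof p j) (bpo j / 5) * sB v w c (kof p j) (bpo j / 5) (bpo j % 5))
  else 0

/-- The intercept of a column. -/
noncomputable def Cf (p : List Ins) (σ : ℝ) (v w : ℕ → ℝ) (j : ℕ) : ℝ :=
  if inS p j = true then (match opc p j with
    | none => 0
    | some c => dl σ v w c (kof p j) (bpo j / 5) * sC v w c (kof p j) (bpo j / 5) (bpo j % 5))
  else 0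

theorem Bf_bd {σ : ℝ} (hσ : 0 < σ) (v w : ℕ → ℝ) (j : ℕ) :
    |Bf p σ v w j| ≤ σ / 128 ∧ |Cf p σ v w j| ≤ σ / 128 := by
  unfold Bf Cf
  have h5 : bpo j % 5 < 5 := Nat.mod_lt _ (by omega)
  by_cases h : inS p j = true
  · rw [if_pos h, if_pos h]
    rcases hc : opc p j with _ | c
    · simp only [abs_zero]
      constructor <;> positivity
    · simp only
      exact dl_bd hσ v w c _ _ h5
  · rw [if_neg h, if_neg h, abs_zero]
    constructor <;> positivity

theorem vl_lt (hp : WF 2 p) {k o l i j : ℕ} (hop : opd p k = some (o, l, i, j)) (q : ℕ) :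
    vl (o, l, i, j) k q < G p := by
  obtain ⟨w1, w2, w3, w4, w5, w6, w7⟩ := opd_wf hp hop
  have hG : G p = p.length + 2 := rfl
  unfold vl
  simp only
  split_ifs <;> omega

/-- Everything about a slab. -/
theorem slab_all (hp : WF 2 p) {v w : ℕ → ℝ} {g w0 wm : ℝ}
    (N : Num p (ts p v) (wf p w0 w) g w0 wm) (hw : ∀ a, 0 < w a ∧ w a ≤ w0)
    (hcond : ∀ k < G p, Cond p v w k) {k o l i j b : ℕ} (hop : opd p k = some (o, l, i, j)) :
    ∀ z z', z < z' → z' < 4 →
      sB v w (o, l, i, j) k b z < sB v w (o, l, i, j) k b z' ∧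
      ∃ H, sB v w (o, l, i, j) k b z * H + sC v w (o, l, i, j) k b z =
        sB v w (o, l, i, j) k b z' * H + sC v w (o, l, i, j) k b z' ∧
      alf p (ts p v) (wf p w0 w) (hs p (o, l, i, j) k b (qq (decide (o = 0)) z z') / 2 - 1)
        + wm / 4 < H ∧
      H < alf p (ts p v) (wf p w0 w) (hs p (o, l, i, j) k b (qq (decide (o = 0)) z z') / 2)
        - wm / 4 := by
  obtain ⟨w1, w2, w3, w4, w5, w6, w7⟩ := opd_wf hp hop
  have hG : G p = p.length + 2 := rfl
  have hT : T p = 2 * G p := rfl
  have n1 := N.wm0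
  have n2 := N.wm1
  have n3 := N.w01
  have n4 := N.g1
  -- widths and centres of values
  have wsp : ∀ a < G p, wf p w0 w (sp p a) = w a := by
    intro a ha
    unfold wf
    have : sp p a % 2 = 0 := by unfold sp; split_ifs <;> omega
    rw [if_pos this, val_sp ha]
  have wge : ∀ a < G p, wm ≤ w a := by
    intro a ha
    have := N.hw (sp p a) (by have := sp_bd ha; omega)
    rw [wsp a ha] at this
    exact this.1
  have sM := spp (p := p) (a := k) (by omega)
  have sl := spp (p := p) (a := l) (by omega)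
  have si := spp (p := p) (a := i) (by omega)
  have sj := spp (p := p) (a := j) (by omega)
  have s0 := sp0 (p := p)
  have gap : ∀ a a', a < G p → a' < G p → sp p a < sp p a' → th v a + g ≤ th v a' := by
    intro a a' ha ha' h
    have := s_lt N h (by have := sp_bd ha'; omega)
    rwa [ts_sp v ha, ts_sp v ha'] at this
  -- the bounds of the heights
  have hbd : ∀ q, |hts v w (o, l, i, j) k b q - th v (vl (o, l, i, j) k q)| ≤
      2 * w (vl (o, l, i, j) k q) := by
    intro q
    have hq := (hw (vl (o, l, i, j) k q)).1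
    unfold hts
    split_ifs
    · rw [add_sub_cancel_left, abs_of_pos (by linarith)]
    · rw [show ∀ x y : ℝ, x - y - x = -y by intro x y; ring, abs_neg, abs_of_pos (by linarith)]
  have v0 : vl (o, l, i, j) k 0 = 0 := rfl
  have v2 : vl (o, l, i, j) k 2 = i := rfl
  have v3 : vl (o, l, i, j) k 3 = j := rfl
  have v4 : vl (o, l, i, j) k 4 = l := rfl
  have v5 : vl (o, l, i, j) k 5 = o := rfl
  have b0 := hbd 0
  have b2 := hbd 2
  have b3 := hbd 3
  have b4 := hbd 4
  have b5 := hbd 5
  rw [v0] at b0
  rw [v2] at b2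
  rw [v3] at b3
  rw [v4] at b4
  rw [v5] at b5
  have c0 := abs_le.1 b0
  have c2 := abs_le.1 b2
  have c3 := abs_le.1 b3
  have c4 := abs_le.1 b4
  have c5 := abs_le.1 b5
  have W := fun a => (hw a).2
  have Wl := W l
  have Wi := W i
  have Wj := W j
  have Wo := W o
  have W0 := W 0
  have g1 := gap l i (by omega) (by omega) (by omega)
  have g2 := gap l j (by omega) (by omega) (by omega)
  have g3 := gap i 0 (by omega) (by omega) (by omega)
  have g4 := gap j 0 (by omega) (by omega) (by omega)
  -- the lines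
  have hline := slab_lines (add := decide (o = 0)) (o := hts v w (o, l, i, j) k b 5)
    (l := hts v w (o, l, i, j) k b 4) (i := hts v w (o, l, i, j) k b 2)
    (j := hts v w (o, l, i, j) k b 3) (w := hts v w (o, l, i, j) k b 0)
    (by linarith [c4.2, c2.1]) (by linarith [c4.2, c3.1]) (by linarith [c2.2, c0.1])
    (by linarith [c3.2, c0.1])
    (by
      intro h
      have ho : o ≠ 0 := by simpa using h
      have so := spp (p := p) (a := o) (by omega)
      have := gap o l (by omega) (by omega) (by omega)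
      linarith [c5.2, c4.1])
    (by
      intro h
      have ho : o = 0 := by simpa using h
      subst ho
      linarith [c5.1, c3.2])
  intro z z' hz hz'
  obtain ⟨l1, l2⟩ := hline z z' hz hz'
  refine ⟨l1, _, l2, ?_⟩
  -- the bounds
  have hq6 : qq (decide (o = 0)) z z' < 6 := by
    unfold qq
    split_ifs <;> omega
  have main : ∀ q, q ≠ 1 →
      alf p (ts p v) (wf p w0 w) (hs p (o, l, i, j) k b q / 2 - 1) + wm / 4 <
        hts v w (o, l, i, j) k b q ∧
      hts v w (o, l, i, j) k b q <
        alf p (ts p v) (wf p w0 w) (hs p (o, l, i, j) k b q / 2) - wm / 4 := by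
    intro q hq
    set a := vl (o, l, i, j) k q with ha
    have haG : a < G p := vl_lt hp hop q
    have hsb := sp_bd haG
    have hwa := wge a haG
    have hwa' := W a
    have e1 : ts p v (sp p a) = th v a := ts_sp v haG
    have e2 := wsp a haG
    unfold hs hts
    rw [if_neg hq]
    by_cases hup : (b = 0 ∧ q ≠ 4) ∨ (b ≠ 0 ∧ q = 4)
    · rw [if_pos hup, if_pos hup, ← ha]
      have i1 : (4 * sp p a + 8) / 2 - 1 = 3 + 2 * sp p a := by omega
      have i2 : (4 * sp p a + 8) / 2 = 2 + 2 * (sp p a + 1) := by omega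
      rw [i1, i2, alf_hi (by omega), alf_lo (by omega), e1, e2]
      have a1 := N.hg (sp p a) (by omega)
      have a2 := N.hw (sp p a + 1) (by omega)
      rw [e1] at a1
      constructor <;> linarith
    · rw [if_neg hup, if_neg hup, ← ha]
      have i2 : (4 * sp p a + 4) / 2 = 2 + 2 * sp p a := by omega
      rw [i2, alf_lo (by omega), e1, e2]
      refine ⟨?_, by linarith⟩
      rcases Nat.eq_zero_or_pos (sp p a) with h0 | h0
      · rw [h0, show 2 + 2 * 0 - 1 = 1 by omega, alf_1]
        have := abs_le.1 (N.hs (sp p a) (by omega))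
        rw [e1] at this
        linarith [this.1]
      · rw [show 2 + 2 * sp p a - 1 = 3 + 2 * (sp p a - 1) by omega, alf_hi (by omega)]
        have a1 := N.hg (sp p a - 1) (by omega)
        rw [show sp p a - 1 + 1 = sp p a by omega, e1] at a1
        have a2 := N.hw (sp p a - 1) (by omega)
        linarith
  by_cases hq1 : qq (decide (o = 0)) z z' = 1
  · rw [hq1]
    have hH : Hq (hts v w (o, l, i, j) k b 5) (hts v w (o, l, i, j) k b 4)
        (hts v w (o, l, i, j) k b 2) (hts v w (o, l, i, j) k b 3) (hts v w (o, l, i, j) k b 0) 1 =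
        Ph (hts v w (o, l, i, j) k b 5) (hts v w (o, l, i, j) k b 4)
        (hts v w (o, l, i, j) k b 2) (hts v w (o, l, i, j) k b 3)
        (hts v w (o, l, i, j) k b 0) := rfl
    rw [hH]
    have hc := abs_lt.1 (hcond k (by omega) o l i j hop _ _ _ _ _ b5 b4 b2 b3 b0)
    have hs1 : hs p (o, l, i, j) k b 1 = 4 * sp p k + 6 := by simp [hs, vl]
    have hsb := sp_bd (p := p) (a := k) (by omega)
    rw [hs1, show (4 * sp p k + 6) / 2 - 1 = 2 + 2 * sp p k by omega,
      show (4 * sp p k + 6) / 2 = 3 + 2 * sp p k by omega, alf_lo (by omega), alf_hi (by omega),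
      ts_sp v (by omega), wsp k (by omega)]
    have := wge k (by omega)
    constructor <;> linarith [hc.1, hc.2]
  · have hH : Hq (hts v w (o, l, i, j) k b 5) (hts v w (o, l, i, j) k b 4)
        (hts v w (o, l, i, j) k b 2) (hts v w (o, l, i, j) k b 3) (hts v w (o, l, i, j) k b 0)
          (qq (decide (o = 0)) z z') = hts v w (o, l, i, j) k b (qq (decide (o = 0)) z z') := by
      generalize qq (decide (o = 0)) z z' = q at hq6 hq1
      interval_cases q
      · rfl
      · exact absurd rfl hq1
      · rfl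
      · rfl
      · rfl
      · rfl
    rw [hH]
    exact main _ hq1

theorem lin : S_LIN := by
  intro p hp hsat
  obtain ⟨v, hrun⟩ := hsat
  have hv : Sol p v := fun k h1 h2 => run_iff.1 hrun k h1 h2
  have hT : T p = 2 * G p := rfl
  have hmr : mr p = 2 * T p + 4 := rfl
  have hmc : mc p = 10 * G p + 5 := rfl
  obtain ⟨g, hg, hg1, hgt⟩ := exists_lb (fun t => ts p v (t + 1) - ts p v t) (T p - 1)
    (fun t ht => sub_pos.2 (ts_lt hv (by omega)))
  set w0 : ℝ := g / 20 with hw0
  have hw0p : 0 < w0 := by positivity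
  obtain ⟨w, h1, h2⟩ := exists_w hp hv hw0p (G p) le_rfl
  obtain ⟨wm', hm, hm1, hmt⟩ := exists_lb (fun t => wf p w0 w t) (T p) (fun t ht => by
    unfold wf
    split_ifs
    · exact (h1 _).1
    · exact hw0p)
  set wm := min wm' w0 with hwm
  have hwmp : 0 < wm := lt_min hm hw0p
  have N : Num p (ts p v) (wf p w0 w) g w0 wm :=
    { wm0 := hwmp
      wm1 := min_le_right _ _
      w01 := by rw [hw0]; linarith
      g1 := by rw [hw0]; linarith
      hs := fun t ht => ts_abs hv ht
      hg := fun t ht => by have := hgt t (by omega); linarith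
      hw := fun t ht => ⟨(min_le_left _ _).trans (hmt t ht), by
        unfold wf
        split_ifs
        · exact (h1 _).2
        · exact le_rfl⟩ }
  have hσ : 0 < sw p wm := by
    unfold sw
    positivity
  have n2 := N.wm1
  have n3 := N.w01
  let L : LD p :=
    { al := alf p (ts p v) (wf p w0 w)
      wm := wm
      B := Bf p (sw p wm) v w
      C := Cf p (sw p wm) v w
      hwm := hwmp
      hwm1 := by linarith
      al0 := alf_0
      al1 := alf_1
      alA := alf_A
      alB := alf_B
      alp := by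
        intro i hi hi'
        rcases Nat.mod_two_eq_zero_or_one i with h3 | h3
        · obtain ⟨t, rfl⟩ : ∃ t, i = 2 + 2 * t := ⟨(i - 2) / 2, by omega⟩
          rw [alf_lo (by omega)]
          have a1 := abs_le.1 (N.hs t (by omega))
          have a2 := N.hw t (by omega)
          rw [abs_le]
          constructor <;> linarith [a1.1, a1.2, a2.1, a2.2]
        · obtain ⟨t, rfl⟩ : ∃ t, i = 3 + 2 * t := ⟨(i - 3) / 2, by omega⟩
          rw [alf_hi (by omega)]
          have a1 := abs_le.1 (N.hs t (by omega))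
          have a2 := N.hw t (by omega)
          rw [abs_le]
          constructor <;> linarith [a1.1, a1.2, a2.1, a2.2]
      step := fun i i' h h' => alf_step N h h'
      B0 := by
        intro j hj
        unfold Bf Cf
        rw [hj]
        simp
      hB := fun j => (Bf_bd hσ v w j).1
      hC := fun j => by
        have := (Bf_bd (p := p) hσ v w j).2
        linarith
      sl := by
        intro j j' h h' hs' hlt
        have a1 := inS_iff'.1 h
        have a2 := inS_iff'.1 h'
        have hsm := same_iff.1 hs'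
        obtain ⟨⟨o, l, i, j0⟩, hc⟩ := Option.isSome_iff_exists.1 a1.2.2.2
        set k := G p - 1 - (j - 3) / 5 / 2 with hk
        have hkG : k < G p := by
          have := G_two p
          omega
        set b := (j - 3) / 5 % 2 with hb
        have hb2 : b < 2 := by omega
        have e1 : j = co p k b ((j - 3) % 5) := by
          unfold co
          omega
        have e2 : j' = co p k b ((j' - 3) % 5) := by
          unfold co
          omega
        have hz : (j - 3) % 5 < (j' - 3) % 5 := by omega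
        have hz' : (j' - 3) % 5 < 4 := by omega
        set z := (j - 3) % 5 with hzd
        set z' := (j' - 3) % 5 with hzd'
        clear_value z z'
        obtain ⟨s1, s2⟩ := ssc_co (z := z) (z' := z') hc hkG hb2 (by omega) hz' hz
        rw [← e1, ← e2] at s1 s2
        obtain ⟨m1, H, m2, m3, m4⟩ := slab_all hp N h1
          (fun k hk => h2 k (by omega) hk) (b := b) hc z z' hz hz'
        have hd := dl_pos hσ v w (o, l, i, j0) k b
        have val : ∀ z < 4, ∀ j, j = co p k b z → inS p j = true →
            Bf p (sw p wm) v w j = dl (sw p wm) v w (o, l, i, j0) k b *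
              sB v w (o, l, i, j0) k b z ∧
            Cf p (sw p wm) v w j = dl (sw p wm) v w (o, l, i, j0) k b *
              sC v w (o, l, i, j0) k b z := by
          intro z hz j hj hin
          have q1 : opc p j = some (o, l, i, j0) := by
            unfold opc
            rw [hj, kof_co hkG hb2 (by omega), hc]
          have q2 : kof p j = k := by rw [hj, kof_co hkG hb2 (by omega)]
          have q3 : bpo j = 5 * b + z := by rw [hj, bpo_co hb2 (by omega)]
          unfold Bf Cf
          rw [if_pos hin, if_pos hin, q1, q2, q3, show (5 * b + z) / 5 = b by omega,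
            show (5 * b + z) % 5 = z by omega]
          exact ⟨rfl, rfl⟩
        obtain ⟨v1, v2⟩ := val z (by omega) j e1 h
        obtain ⟨v3, v4⟩ := val z' hz' j' e2 h'
        rw [v1, v2, v3, v4, s1]
        refine ⟨mul_lt_mul_of_pos_left m1 hd, H, ?_, m3, m4⟩
        linear_combination dl (sw p wm) v w (o, l, i, j0) k b * m2 }
  exact L.lines hp

end Run7.h688.Seg
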