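import Pool.Agent.Run7.h749.Stm

/-!
# Piece S_LIN of MP_beb3fe_lc, part 1: from lines in a box to lines in the unit square
-/

set_option autoImplicit false

namespace Run7.h688.Seg

open Run7.h749 Run7.h749.Arr

/-- The coordinate of the crossing of the lines with intercepts `A` and slopes `S`. -/
noncomputable def cc (A S : Bool → ℕ → ℝ) (a b : Ln) : ℝ :=
  if a.1 = b.1 then (A b.1 b.2 - A a.1 a.2) / (S a.1 a.2 - S b.1 b.2)
  else (A b.1 b.2 + S b.1 b.2 * A a.1 a.2) / (1 - S a.1 a.2 * S b.1 b.2)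

theorem tt_box {A S : Bool → ℕ → ℝ} {lo hi : Bool → ℝ} (hlh : ∀ c, lo c < hi c)
    {a b : Ln} (h1 : a.1 = b.1 → S a.1 a.2 ≠ S b.1 b.2)
    (h2 : a.1 ≠ b.1 → S a.1 a.2 * S b.1 b.2 < 1) :
    tt (fun c i => (A c i + S c i * lo c - lo (!c)) / (hi (!c) - lo (!c)))
      (fun c i => (A c i + S c i * hi c - lo (!c)) / (hi (!c) - lo (!c))) a b =
      (cc A S a b - lo a.1) / (hi a.1 - lo a.1) := by
  obtain ⟨ca, i⟩ := a
  obtain ⟨cb, j⟩ := b
  simp only at h1 h2
  unfold tt cc
  simp only
  by_cases hc : ca = cb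
  · subst hc
    rw [if_pos rfl, if_pos rfl]
    have e1 := sub_ne_zero.2 (h1 rfl)
    have e2 : hi ca - lo ca ≠ 0 := by have := hlh ca; linarith
    have e3 : hi (!ca) - lo (!ca) ≠ 0 := by have := hlh (!ca); linarith
    have e4 : (A ca i + S ca i * lo ca - lo (!ca)) / (hi (!ca) - lo (!ca)) -
        (A ca j + S ca j * lo ca - lo (!ca)) / (hi (!ca) - lo (!ca)) =
        ((A ca i - A ca j) + (S ca i - S ca j) * lo ca) / (hi (!ca) - lo (!ca)) := by
      rw [← sub_div]
      congr 1
      ring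
    have e5 : (A ca i + S ca i * lo ca - lo (!ca)) / (hi (!ca) - lo (!ca)) -
        (A ca j + S ca j * lo ca - lo (!ca)) / (hi (!ca) - lo (!ca)) -
        ((A ca i + S ca i * hi ca - lo (!ca)) / (hi (!ca) - lo (!ca)) -
        (A ca j + S ca j * hi ca - lo (!ca)) / (hi (!ca) - lo (!ca))) =
        - ((S ca i - S ca j) * (hi ca - lo ca)) / (hi (!ca) - lo (!ca)) := by
      rw [← sub_div, ← sub_div, ← sub_div]
      congr 1
      ring
    rw [e5, e4]
    field_simp
    ring
  · rw [if_neg hc, if_neg hc]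
    have hcb : cb = !ca := by cases ca <;> cases cb <;> simp_all
    subst hcb
    have h3 := h2 hc
    have e1 : 1 - S ca i * S (!ca) j ≠ 0 := by linarith
    have e2 : hi ca - lo ca ≠ 0 := by have := hlh ca; linarith
    have e3 : hi (!ca) - lo (!ca) ≠ 0 := by have := hlh (!ca); linarith
    simp only [Bool.not_not]
    have e4 : (A (!ca) j + S (!ca) j * hi (!ca) - lo ca) / (hi ca - lo ca) -
        (A (!ca) j + S (!ca) j * lo (!ca) - lo ca) / (hi ca - lo ca) =
        S (!ca) j * (hi (!ca) - lo (!ca)) / (hi ca - lo ca) := by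
      rw [← sub_div]
      congr 1
      ring
    have e5 : (A ca i + S ca i * hi ca - lo (!ca)) / (hi (!ca) - lo (!ca)) -
        (A ca i + S ca i * lo ca - lo (!ca)) / (hi (!ca) - lo (!ca)) =
        S ca i * (hi ca - lo ca) / (hi (!ca) - lo (!ca)) := by
      rw [← sub_div]
      congr 1
      ring
    rw [e4, e5]
    have e6 : S (!ca) j * (hi (!ca) - lo (!ca)) / (hi ca - lo ca) *
        (S ca i * (hi ca - lo ca) / (hi (!ca) - lo (!ca))) = S ca i * S (!ca) j := by
      field_simp
    rw [e6]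
    have e7 : (A (!ca) j + S (!ca) j * lo (!ca) - lo ca) / (hi ca - lo ca) +
        S (!ca) j * (hi (!ca) - lo (!ca)) / (hi ca - lo ca) *
          ((A ca i + S ca i * lo ca - lo (!ca)) / (hi (!ca) - lo (!ca))) =
        (A (!ca) j + S (!ca) j * A ca i - (1 - S ca i * S (!ca) j) * lo ca) / (hi ca - lo ca) := by
      field_simp
      ring
    rw [e7, div_right_comm, sub_div, mul_div_cancel_left₀ _ e1]

/-- Lines in a box. -/
theorem lines_box (R : Arr) (A S : Bool → ℕ → ℝ) (lo hi : Bool → ℝ) (hlh : ∀ c, lo c < hi c)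
    (hS : ∀ a b : Ln, R.IsL a → R.IsL b → a.1 ≠ b.1 → S a.1 a.2 * S b.1 b.2 < 1)
    (hcr : ∀ c i j, R.x c i j = true → S c i ≠ S c j)
    (hlo : ∀ c i, i < R.m c → lo (!c) < A c i + S c i * lo c ∧ A c i + S c i * lo c < hi (!c))
    (hhi : ∀ c i, i < R.m c → lo (!c) < A c i + S c i * hi c ∧ A c i + S c i * hi c < hi (!c))
    (hst : ∀ c i j, i < R.m c → j < R.m c → R.st c i < R.st c j →
      A c i + S c i * lo c < A c j + S c j * lo c)
    (hen : ∀ c i j, i < j → j < R.m c → A c i + S c i * hi c < A c j + S c j * hi c)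
    (hsl : ∀ a b b', R.IsL a → R.IsL b → R.IsL b' → b ≠ a → b' ≠ a → R.cr a b = true →
      R.cr a b' = true → R.sl a b < R.sl a b' → cc A S a b < cc A S a b') : R.Lines := by
  have hpos : ∀ c, 0 < hi c - lo c := fun c => by have := hlh c; linarith
  refine ⟨fun c i => (A c i + S c i * lo c - lo (!c)) / (hi (!c) - lo (!c)),
    fun c i => (A c i + S c i * hi c - lo (!c)) / (hi (!c) - lo (!c)), ?_, ?_, ?_, ?_⟩
  · intro c i hi'
    have h1 := hlo c i hi'
    have h2 := hhi c i hi'
    refine ⟨div_pos (by linarith) (hpos _), ?_, div_pos (by linarith) (hpos _), ?_⟩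
    · rw [div_lt_one (hpos _)]; linarith
    · rw [div_lt_one (hpos _)]; linarith
  · intro c i j hi' hj h
    exact div_lt_div_of_pos_right (by linarith [hst c i j hi' hj h]) (hpos _)
  · intro c i j hij hj
    exact div_lt_div_of_pos_right (by linarith [hen c i j hij hj]) (hpos _)
  · intro a b b' ha hb hb' hne hne' hc hc' hs
    have key : ∀ b, R.IsL b → R.cr a b = true → _ := fun b hb hc =>
      tt_box (A := A) (S := S) hlh (a := a) (b := b) (fun he => by
        unfold Arr.cr at hc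
        rw [if_pos he] at hc
        have := hcr _ _ _ hc
        rwa [← he]) (fun hne => hS a b ha hb hne)
    rw [key b hb hc, key b' hb' hc']
    exact div_lt_div_of_pos_right (by linarith [hsl a b b' ha hb hb' hne hne' hc hc' hs])
      (hpos _)

end Run7.h688.Seg
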