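import Pool.Agent.Run7.h688.Seg.Lin1
import Pool.Agent.Run7.h688.Seg.Alg3

/-!
# Piece S_LIN of MP_beb3fe_lc, part 2: the lines and their crossings
-/

set_option autoImplicit false

namespace Run7.h688.Seg

open Run7.h749 Run7.h749.Arr Pool.Agent.NPC.ER.Oslp Pool.Agent.NPC.ER.Sgn

variable {p : List Ins}

/-- The distance of consecutive columns. -/
noncomputable def sw (p : List Ins) (wm : ℝ) : ℝ := wm / (2 * (10 * G p + 5))

/-- The data of the lines. -/
structure LD (p : List Ins) where
  al : ℕ → ℝ
  wm : ℝ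
  B : ℕ → ℝ
  C : ℕ → ℝ
  hwm : 0 < wm
  hwm1 : wm ≤ 1 / 10
  al0 : al 0 = -15
  al1 : al 1 = -14
  alA : al (2 * T p + 2) = 14
  alB : al (2 * T p + 3) = 15
  alp : ∀ i, 2 ≤ i → i < 2 * T p + 2 → |al i| ≤ 2
  step : ∀ i i', i < i' → i' < mr p → al i + wm < al i'
  B0 : ∀ j, inS p j = false → B j = 0 ∧ C j = 0
  hB : ∀ j, |B j| ≤ sw p wm / 128
  hC : ∀ j, |C j| ≤ sw p wm / 8
  sl : ∀ j j', inS p j = true → inS p j' = true → same j j' = true → j < j' →
    B j < B j' ∧ ∃ H, B j * H + C j = B j' * H + C j' ∧
      al (ssc p j j' / 2 - 1) + wm / 4 < H ∧ H < al (ssc p j j' / 2) - wm / 4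

/-- The slope of a row. -/
noncomputable def be (p : List Ins) (i : ℕ) : ℝ :=
  if isR p i = true then (if i % 2 = 0 then 1 else -1) else 0

/-- The base of the group of a column. -/
def gb (p : List Ins) (j : ℕ) : ℕ := if inS p j = true then j - bpo j % 5 else j

namespace LD

variable (L : LD p)

/-- The position of a column. -/
noncomputable def Xp (j : ℕ) : ℝ :=
  if j = 0 then -10 else if j = 1 then -9 else -L.wm / 4 + gb p j * sw p L.wm

noncomputable def AA (c : Bool) (i : ℕ) : ℝ := if c = true then L.Xp i + L.C i else L.al i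
noncomputable def SS (c : Bool) (i : ℕ) : ℝ := if c = true then L.B i else be p i
noncomputable def lo (_L : LD p) (c : Bool) : ℝ := if c = true then -16 else -11
noncomputable def hi (c : Bool) : ℝ := if c = true then 16 else L.wm / 2

/-- The first coordinate of the crossing of a row and a column. -/
noncomputable def xc (i j : ℕ) : ℝ :=
  (L.Xp j + L.C j + L.B j * L.al i) / (1 - be p i * L.B j)

/-- The second coordinate of the crossing of a row and a column. -/
noncomputable def yc (i j : ℕ) : ℝ := L.al i + be p i * L.xc i j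

end LD

/-! ### Groups -/

theorem inS_iff' {j : ℕ} : inS p j = true ↔
    3 ≤ j ∧ j < 3 + 10 * G p ∧ (j - 3) % 5 ≠ 4 ∧
      (opd p (G p - 1 - (j - 3) / 5 / 2)).isSome = true := by
  unfold inS bpo opc kof blk
  have e1 : (j - 3) % 10 % 5 = (j - 3) % 5 := by omega
  have e2 : (j - 3) / 10 = (j - 3) / 5 / 2 := by omega
  rw [e1, e2]
  simp only [Bool.and_eq_true, decide_eq_true_eq, Bool.not_eq_true', decide_eq_false_iff_not,
    and_assoc, ne_eq]

theorem gb_in {j : ℕ} (h : inS p j = true) : gb p j = 3 + 5 * ((j - 3) / 5) := by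
  unfold gb bpo
  rw [if_pos h]
  have := inS_iff'.1 h
  omega

theorem gb_out {j : ℕ} (h : inS p j = false) : gb p j = j := by
  unfold gb
  rw [h]
  simp

theorem same_iff {i j : ℕ} : same i j = true ↔ (i - 3) / 5 = (j - 3) / 5 := by
  unfold same blk bpo
  simp only [Bool.and_eq_true, decide_eq_true_eq]
  omega

theorem grp {j j' : ℕ} (h : j < j') :
    (inS p j = true ∧ inS p j' = true ∧ same j j' = true ∧ gb p j = gb p j') ∨
      (gb p j < gb p j' ∧ (inS p j = true → gb p j + 3 < gb p j')) := by
  by_cases h1 : inS p j = true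
  · by_cases h2 : inS p j' = true
    · rw [gb_in h1, gb_in h2]
      have a1 := inS_iff'.1 h1
      have a2 := inS_iff'.1 h2
      rcases Nat.lt_or_ge ((j - 3) / 5) ((j' - 3) / 5) with h3 | h3
      · right; omega
      · left
        refine ⟨h1, h2, same_iff.2 (by omega), by omega⟩
    · have h2' : inS p j' = false := by simpa using h2
      rw [gb_in h1, gb_out h2']
      have a1 := inS_iff'.1 h1
      right
      have h4 : 3 + 5 * ((j - 3) / 5) + 3 < j' := by
        by_contra hcon
        push Not at hcon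
        apply h2
        rw [inS_iff']
        have e : (j' - 3) / 5 = (j - 3) / 5 := by omega
        rw [e]
        refine ⟨by omega, ?_, by omega, a1.2.2.2⟩
        omega
      exact ⟨by omega, fun _ => h4⟩
  · have h1' : inS p j = false := by simpa using h1
    right
    rw [gb_out h1']
    refine ⟨?_, fun h => absurd h h1⟩
    by_cases h2 : inS p j' = true
    · rw [gb_in h2]
      by_contra hcon
      push Not at hcon
      have a2 := inS_iff'.1 h2
      apply h1
      rw [inS_iff']
      have e : (j - 3) / 5 = (j' - 3) / 5 := by omega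
      rw [e]
      refine ⟨by omega, by omega, by omega, a2.2.2.2⟩
    · have h2' : inS p j' = false := by simpa using h2
      rw [gb_out h2']
      exact h

theorem gb_le {j : ℕ} : gb p j ≤ j := by
  by_cases h : inS p j = true
  · rw [gb_in h]
    have := inS_iff'.1 h
    omega
  · rw [gb_out (by simpa using h)]

theorem le_gb {j : ℕ} (h : 2 ≤ j) : 2 ≤ gb p j := by
  by_cases h' : inS p j = true
  · rw [gb_in h']
    omega
  · rw [gb_out (by simpa using h')]
    exact h

/-! ### Slots -/

theorem isR_iff {i : ℕ} : isR p i = true ↔ 2 ≤ i ∧ i < 2 * T p + 2 := by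
  unfold isR
  simp

theorem be_abs (i : ℕ) : |be p i| ≤ 1 := by
  unfold be
  split_ifs <;> norm_num

theorem posz_le {i j : ℕ} (_h : inS p j = true) : posz p i j ≤ 3 := by
  unfold posz
  simp only
  have h0 : ¬ (0 > bpo j % 5) := by omega
  have : bpo j % 5 < 5 := Nat.mod_lt _ (by omega)
  rcases Nat.lt_or_ge (bpo j % 5) 1 with h | h
  · have h4 : ¬ 0 < bpo j % 5 := by omega
    simp only [h4, false_and, h0, or_self, if_false]
    split_ifs <;> omega
  · rcases Nat.lt_or_ge (bpo j % 5) 2 with h' | h'
    · have h5 : ¬ 1 < bpo j % 5 := by omega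
      have h6 : ¬ 1 > bpo j % 5 := by omega
      simp only [h5, false_and, h6, or_self, if_false]
      split_ifs <;> omega
    · rcases Nat.lt_or_ge (bpo j % 5) 3 with h'' | h''
      · have h5 : ¬ 2 < bpo j % 5 := by omega
        have h6 : ¬ 2 > bpo j % 5 := by omega
        simp only [h5, false_and, h6, or_self, if_false]
        split_ifs <;> omega
      · have h6 : ¬ 3 > bpo j % 5 := by omega
        simp only [false_and, h6, if_false]
        split_ifs <;> omega

theorem sdr_bd {i j : ℕ} (h : 2 ≤ j) :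
    T p + gb p j ≤ sdr p i j ∧ (inS p j = false → sdr p i j = T p + gb p j) ∧
      (inS p j = true → sdr p i j = T p + gb p j + posz p i j) := by
  unfold sdr
  rw [if_neg (by omega)]
  by_cases h' : inS p j = true
  · rw [if_pos h']
    have e : T p + j - bpo j % 5 = T p + gb p j := by
      unfold gb
      rw [if_pos h']
      have := inS_iff'.1 h'
      have : bpo j % 5 ≤ j := by unfold bpo; omega
      omega
    rw [e]
    refine ⟨by omega, fun h2 => ?_, fun _ => rfl⟩
    rw [h'] at h2
    exact absurd h2 (by decide)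
  · rw [if_neg h', gb_out (by simpa using h')]
    exact ⟨le_rfl, fun _ => rfl, fun h2 => absurd h2 h'⟩

theorem sdr_grp {i j j' : ℕ} (h : 2 ≤ j) (_h' : j < j')
    (hg : gb p j < gb p j' ∧ (inS p j = true → gb p j + 3 < gb p j')) :
    sdr p i j < sdr p i j' := by
  obtain ⟨a1, a2, a3⟩ := sdr_bd (p := p) (i := i) h
  obtain ⟨b1, -, -⟩ := sdr_bd (p := p) (i := i) (j := j') (by omega)
  by_cases hj : inS p j = true
  · have := hg.2 hj
    have := posz_le (p := p) (i := i) hj
    rw [a3 hj]
    omega
  · rw [a2 (by simpa using hj)]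
    omega

theorem stc_in {j : ℕ} (h : inS p j = true) : stc p j + (j - 3) % 5 = gb p j + 3 := by
  unfold stc
  rw [if_pos h, gb_in h]
  have := inS_iff'.1 h
  unfold bpo
  omega

theorem stc_out {j : ℕ} (h : inS p j = false) : stc p j = j := by
  unfold stc
  rw [h]
  simp

theorem stc_grp {j j' : ℕ} (_h' : j < j')
    (hg : gb p j < gb p j' ∧ (inS p j = true → gb p j + 3 < gb p j')) :
    stc p j < stc p j' := by
  have lo : ∀ j, gb p j ≤ stc p j := by
    intro j
    by_cases hj : inS p j = true
    · have := stc_in hj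
      have := inS_iff'.1 hj
      omega
    · rw [gb_out (by simpa using hj), stc_out (by simpa using hj)]
  have := lo j'
  by_cases hj : inS p j = true
  · have := stc_in hj
    have := hg.2 hj
    omega
  · have e := stc_out (p := p) (j := j) (by simpa using hj)
    have e' := gb_out (p := p) (j := j) (by simpa using hj)
    omega

theorem ssc_even {j j' : ℕ} (hp : WF 2 p) (h : inS p j = true) (h' : inS p j' = true)
    (hs' : same j j' = true) (hne : j ≠ j') : ssc p j j' % 2 = 0 ∧ 4 ≤ ssc p j j' ∧
      ssc p j j' ≤ 4 * T p ∧ ssc p j j' = ssc p j' j := by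
  have a1 := inS_iff'.1 h
  have a2 := inS_iff'.1 h'
  have hsm := same_iff.1 hs'
  obtain ⟨c, hc⟩ := Option.isSome_iff_exists.1 a1.2.2.2
  set k := G p - 1 - (j - 3) / 5 / 2 with hk
  have hkG : k < G p := by
    have : 2 ≤ G p := by unfold G; omega
    omega
  set b := (j - 3) / 5 % 2 with hb
  have hb2 : b < 2 := by omega
  have e1 : j = co p k b ((j - 3) % 5) := by
    unfold co
    omega
  have e2 : j' = co p k b ((j' - 3) % 5) := by
    unfold co
    omega
  have key : ∀ q, hs p c k b q % 2 = 0 ∧ 4 ≤ hs p c k b q ∧ hs p c k b q ≤ 4 * T p := by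
    intro q
    obtain ⟨o, l, i, j⟩ := c
    obtain ⟨w1, w2, w3, w4, w5, w6, w7⟩ := opd_wf hp hc
    have hG : G p = p.length + 2 := rfl
    have : vl (o, l, i, j) k q < G p := by
      unfold vl
      simp only
      split_ifs <;> omega
    have := sp_bd this
    unfold hs
    split_ifs <;> omega
  rcases Nat.lt_or_gt_of_ne hne with hlt | hlt
  · have hz : (j - 3) % 5 < (j' - 3) % 5 := by omega
    obtain ⟨s1, s2⟩ := ssc_co (z := (j - 3) % 5) (z' := (j' - 3) % 5) hc hkG hb2 (by omega)
      (by omega) hz
    rw [← e1, ← e2] at s1 s2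
    rw [s1, s2]
    exact ⟨(key _).1, (key _).2.1, (key _).2.2, rfl⟩
  · have hz : (j' - 3) % 5 < (j - 3) % 5 := by omega
    obtain ⟨s1, s2⟩ := ssc_co (z := (j' - 3) % 5) (z' := (j - 3) % 5) hc hkG hb2 (by omega)
      (by omega) hz
    rw [← e1, ← e2] at s1 s2
    rw [s1, s2]
    exact ⟨(key _).1, (key _).2.1, (key _).2.2, rfl⟩

end Run7.h688.Seg
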