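import Pool.Agent.Run7.h688.Seg.Lin2

/-!
# Piece S_LIN of MP_beb3fe_lc, part 3: the order of the crossings
-/

set_option autoImplicit false

namespace Run7.h688.Seg

open Run7.h749 Run7.h749.Arr Pool.Agent.NPC.ER.Oslp Pool.Agent.NPC.ER.Sgn

variable {p : List Ins}

theorem G_two (p : List Ins) : 2 ≤ G p := by unfold G; omega

namespace LD

variable (L : LD p)

theorem sw_pos : 0 < sw p L.wm := by
  unfold sw
  have := L.hwm
  positivity

theorem sw_eq : (10 * (G p : ℝ) + 5) * sw p L.wm = L.wm / 2 := by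
  unfold sw
  field_simp

theorem sw_le : 50 * sw p L.wm ≤ L.wm := by
  have h1 := L.sw_eq
  have h2 : (2 : ℝ) ≤ G p := by exact_mod_cast G_two p
  have h3 := L.sw_pos
  nlinarith

theorem Xp_bd {j : ℕ} (h : 2 ≤ j) (h' : j < mc p) :
    -L.wm / 4 + 2 * sw p L.wm ≤ L.Xp j ∧ L.Xp j ≤ L.wm / 4 - sw p L.wm := by
  unfold Xp
  rw [if_neg (by omega), if_neg (by omega)]
  have h1 := L.sw_eq
  have h3 := L.sw_pos
  have hg : (2 : ℝ) ≤ gb p j := by exact_mod_cast le_gb (p := p) h
  have hg' : (gb p j : ℝ) ≤ 10 * G p + 4 := by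
    have h5 := gb_le (p := p) (j := j)
    have h6 : gb p j ≤ 10 * G p + 4 := by
      unfold mc at h'
      omega
    exact_mod_cast h6
  constructor
  · nlinarith
  · nlinarith

theorem Xp_lt {j j' : ℕ} (h : 2 ≤ j) (h' : j < j') (hg : gb p j < gb p j') :
    L.Xp j + sw p L.wm ≤ L.Xp j' := by
  unfold Xp
  rw [if_neg (by omega), if_neg (by omega), if_neg (by omega), if_neg (by omega)]
  have h3 := L.sw_pos
  have : (gb p j : ℝ) + 1 ≤ gb p j' := by exact_mod_cast hg
  nlinarith

theorem B_bd (j : ℕ) : |L.B j| ≤ 1 / 64000 := by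
  have h1 := L.hB j
  have h2 := L.sw_le
  have h3 := L.hwm1
  linarith

theorem beB (i j : ℕ) : |be p i * L.B j| ≤ 1 / 64000 := by
  rw [abs_mul]
  have h1 := be_abs (p := p) i
  have h2 := L.B_bd j
  have h3 := abs_nonneg (L.B j)
  nlinarith

theorem den_pos (i j : ℕ) : 0 < 1 - be p i * L.B j := by
  have := (abs_le.1 (L.beB i j)).2
  linarith

theorem xc_fix (i j : ℕ) :
    L.xc i j = L.Xp j + L.C j + L.B j * (L.al i + be p i * L.xc i j) := by
  have h := (L.den_pos i j).ne'
  have h2 : L.xc i j * (1 - be p i * L.B j) = L.Xp j + L.C j + L.B j * L.al i := by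
    unfold xc
    rw [div_mul_cancel₀ _ h]
  linarith

/-- The classes of rows. -/
theorem cls {i : ℕ} (h : i < mr p) :
    (i < 2 ∧ be p i = 0 ∧ str p i = i ∧ L.al i = -15 + i) ∨
    (2 ≤ i ∧ i < 2 * T p + 2 ∧ i % 2 = 0 ∧ be p i = 1 ∧ str p i = 2 + (i - 2) / 2 ∧
      |L.al i| ≤ 2) ∨
    (2 ≤ i ∧ i < 2 * T p + 2 ∧ i % 2 = 1 ∧ be p i = -1 ∧ str p i = 2 + T p + (i - 3) / 2 ∧
      |L.al i| ≤ 2) ∨
    (2 * T p + 2 ≤ i ∧ be p i = 0 ∧ str p i = i ∧ L.al i = 14 + ((i - (2 * T p + 2) : ℕ) : ℝ)) := by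
  unfold be str
  by_cases hR : isR p i = true
  · obtain ⟨h1, h2⟩ := isR_iff.1 hR
    rw [if_pos hR, if_pos hR]
    rcases Nat.mod_two_eq_zero_or_one i with h3 | h3
    · right; left
      rw [if_pos h3, if_pos h3]
      exact ⟨h1, h2, h3, rfl, rfl, L.alp i h1 h2⟩
    · right; right; left
      rw [if_neg (by omega), if_neg (by omega)]
      exact ⟨h1, h2, h3, rfl, rfl, L.alp i h1 h2⟩
  · rw [if_neg hR, if_neg hR]
    have h1 : ¬ (2 ≤ i ∧ i < 2 * T p + 2) := fun h => hR (isR_iff.2 h)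
    unfold mr at h
    rcases Nat.lt_or_ge i 2 with h2 | h2
    · left
      refine ⟨h2, rfl, rfl, ?_⟩
      interval_cases i
      · rw [L.al0]; norm_num
      · rw [L.al1]; norm_num
    · right; right; right
      refine ⟨by omega, rfl, rfl, ?_⟩
      have : i = 2 * T p + 2 ∨ i = 2 * T p + 3 := by omega
      rcases this with rfl | rfl
      · rw [L.alA]; simp
      · rw [L.alB, show 2 * T p + 3 - (2 * T p + 2) = 1 by omega]; norm_num

theorem al_abs {i : ℕ} (h : i < mr p) : |L.al i| ≤ 15 := by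
  rcases L.cls h with ⟨h1, -, -, h2⟩ | ⟨-, -, -, -, -, h2⟩ | ⟨-, -, -, -, -, h2⟩ | ⟨h1, -, -, h2⟩
  · rw [h2]
    interval_cases i <;> norm_num
  · linarith
  · linarith
  · unfold mr at h
    have : i - (2 * T p + 2) = 0 ∨ i - (2 * T p + 2) = 1 := by omega
    rw [h2]
    rcases this with h3 | h3 <;> rw [h3] <;> norm_num

theorem inS_lt {j : ℕ} (h : j < 2) : inS p j = false := by
  by_contra hc
  have := inS_iff'.1 (by simpa using hc : inS p j = true)
  omega

theorem xc_small {i j : ℕ} (h : j < 2) : L.xc i j = L.Xp j := by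
  obtain ⟨h1, h2⟩ := L.B0 j (inS_lt h)
  unfold xc
  rw [h1, h2]
  simp

theorem Xp_zero : L.Xp 0 = -10 := by unfold Xp; rw [if_pos rfl]
theorem Xp_one : L.Xp 1 = -9 := by unfold Xp; rw [if_neg (by omega), if_pos rfl]

theorem xc_near {i j : ℕ} (hi : i < mr p) (h : 2 ≤ j) (h' : j < mc p) :
    |L.xc i j - L.Xp j| ≤ sw p L.wm / 4 := by
  have hs := L.sw_pos
  have hs2 := L.sw_le
  have hw := L.hwm1
  have hw0 := L.hwm
  obtain ⟨x1, x2⟩ := L.Xp_bd h h'
  have hB := L.hB j
  have hC := L.hC j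
  have hal := L.al_abs hi
  have hbe := be_abs (p := p) i
  have hfix := L.xc_fix i j
  set x := L.xc i j with hx
  have hX : |L.Xp j| ≤ 1 / 40 := by
    rw [abs_le]
    constructor <;> linarith
  have hBn := abs_nonneg (L.B j)
  have hxn := abs_nonneg x
  have m1 : |L.B j * (L.al i + be p i * x)| ≤ |L.B j| * (15 + |x|) := by
    rw [abs_mul]
    refine mul_le_mul_of_nonneg_left ?_ hBn
    refine (abs_add_le _ _).trans ?_
    rw [abs_mul]
    have : |be p i| * |x| ≤ 1 * |x| := mul_le_mul_of_nonneg_right hbe hxn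
    linarith
  have m2 : |x - L.Xp j| ≤ |L.C j| + |L.B j| * (15 + |x|) := by
    have e : x - L.Xp j = L.C j + L.B j * (L.al i + be p i * x) := by linarith
    rw [e]
    exact (abs_add_le _ _).trans (by linarith)
  have m3 : |x| ≤ |L.Xp j| + |x - L.Xp j| := by
    have := abs_add_le (L.Xp j) (x - L.Xp j)
    rwa [add_sub_cancel] at this
  have hBb : |L.B j| ≤ 1 / 64000 := L.B_bd j
  have m4 : |x| ≤ 1 := by
    by_contra hcon
    push Not at hcon
    have : |L.B j| * (15 + |x|) ≤ 1 / 64000 * (15 + |x|) :=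
      mul_le_mul_of_nonneg_right hBb (by linarith)
    linarith
  have m5 : |L.B j| * (15 + |x|) ≤ sw p L.wm / 128 * 16 := by
    refine mul_le_mul hB (by linarith) (by linarith) (by linarith)
  linarith

theorem xc_abs {i j : ℕ} (hi : i < mr p) (h : 2 ≤ j) (h' : j < mc p) :
    |L.xc i j| < L.wm / 4 := by
  have h1 := abs_le.1 (L.xc_near hi h h')
  obtain ⟨x1, x2⟩ := L.Xp_bd h h'
  have hs := L.sw_pos
  rw [abs_lt]
  constructor <;> linarith [h1.1, h1.2]

theorem row_lt {i i' : ℕ} (h : i < i') (h' : i' < mr p) {x x' : ℝ} (hx : |x| ≤ L.wm / 2)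
    (hx' : |x'| ≤ L.wm / 2) : L.al i + be p i * x < L.al i' + be p i' * x' := by
  have h1 := L.step i i' h h'
  have h2 : |be p i * x| ≤ L.wm / 2 := by
    rw [abs_mul]
    have := be_abs (p := p) i
    have := abs_nonneg x
    nlinarith
  have h3 : |be p i' * x'| ≤ L.wm / 2 := by
    rw [abs_mul]
    have := be_abs (p := p) i'
    have := abs_nonneg x'
    nlinarith
  have h4 := (abs_le.1 h2).2
  have h5 := (abs_le.1 h3).1
  linarith

theorem yc_near {i j : ℕ} (hi : i < mr p) (h : 2 ≤ j) (h' : j < mc p) :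
    |L.yc i j - L.al i| < L.wm / 4 := by
  unfold yc
  rw [add_sub_cancel_left, abs_mul]
  have h1 := L.xc_abs hi h h'
  have h2 := be_abs (p := p) i
  have h3 := abs_nonneg (L.xc i j)
  have h4 := abs_nonneg (be p i)
  nlinarith

theorem row_left {i i' : ℕ} (h : i < mr p) (h' : i' < mr p) (hs : str p i < str p i') {x : ℝ}
    (hx : -11 ≤ x) (hx' : x ≤ -9) : L.al i + be p i * x < L.al i' + be p i' * x := by
  have hT := T_pos p
  have hmr : mr p = 2 * T p + 4 := rfl
  have hstep := fun h => L.step i i' h h'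
  have hw := L.hwm
  have cast_lt : ∀ a b : ℕ, a < b → (a : ℝ) < b := fun a b h => by exact_mod_cast h
  rcases L.cls h with ⟨h1, h2, h3, h4⟩ | ⟨h0, h1, h2, h3, h4, h5⟩ | ⟨h0, h1, h2, h3, h4, h5⟩ |
      ⟨h1, h2, h3, h4⟩ <;>
    rcases L.cls h' with ⟨k1, k2, k3, k4⟩ | ⟨k0, k1, k2, k3, k4, k5⟩ | ⟨k0, k1, k2, k3, k4, k5⟩ |
      ⟨k1, k2, k3, k4⟩
  · rw [h2, h4, k2, k4]
    have := cast_lt i i' (by omega)
    linarith
  · rw [h2, h4, k3]
    have := abs_le.1 k5
    have := cast_lt i 2 (by omega)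
    push_cast at this
    linarith [this, (abs_le.1 k5).1]
  · rw [h2, h4, k3]
    have := abs_le.1 k5
    have := cast_lt i 2 (by omega)
    push_cast at this
    linarith [this, (abs_le.1 k5).1]
  · rw [h2, h4, k2, k4]
    have := cast_lt i 2 (by omega)
    push_cast at this
    have h6 : (0 : ℝ) ≤ ((i' - (2 * T p + 2) : ℕ) : ℝ) := Nat.cast_nonneg _
    linarith
  · omega
  · rw [h3, k3]
    have := hstep (by omega)
    linarith
  · rw [h3, k3]
    linarith [(abs_le.1 k5).1, (abs_le.1 h5).2]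
  · rw [h3, k2, k4]
    have h6 : (0 : ℝ) ≤ ((i' - (2 * T p + 2) : ℕ) : ℝ) := Nat.cast_nonneg _
    linarith [(abs_le.1 h5).2]
  · omega
  · omega
  · rw [h3, k3]
    have := hstep (by omega)
    linarith
  · rw [h3, k2, k4]
    have h6 : (0 : ℝ) ≤ ((i' - (2 * T p + 2) : ℕ) : ℝ) := Nat.cast_nonneg _
    linarith [(abs_le.1 h5).2]
  · omega
  · omega
  · omega
  · rw [h2, h4, k2, k4]
    have := cast_lt (i - (2 * T p + 2)) (i' - (2 * T p + 2)) (by omega)
    linarith

/-! ### The crossings in terms of `cc` -/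

theorem cc_ft (i j : ℕ) : cc L.AA L.SS (false, i) (true, j) = L.xc i j := by
  unfold cc AA SS xc
  simp

theorem cc_tf (j i : ℕ) : cc L.AA L.SS (true, j) (false, i) = L.yc i j := by
  unfold cc AA SS yc xc
  simp only [Bool.true_eq_false, if_false, if_true, Bool.false_eq_true]
  have h := (L.den_pos i j).ne'
  have h' : 1 - L.B j * be p i ≠ 0 := by rwa [mul_comm]
  rw [mul_comm (L.B j) (be p i)]
  field_simp
  ring

theorem cc_ff (i i' : ℕ) :
    cc L.AA L.SS (false, i) (false, i') = (L.al i' - L.al i) / (be p i - be p i') := by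
  unfold cc AA SS
  simp

theorem cc_tt (j j' : ℕ) : cc L.AA L.SS (true, j) (true, j') =
    (L.Xp j' + L.C j' - (L.Xp j + L.C j)) / (L.B j - L.B j') := by
  unfold cc AA SS
  simp

/-- The height of the crossing of two columns of a slab. -/
theorem cc_slab (hp : WF 2 p) {j j' : ℕ} (h : inS p j = true) (h' : inS p j' = true)
    (hs : same j j' = true) (hne : j ≠ j') : L.B j ≠ L.B j' ∧
    L.al (ssc p j j' / 2 - 1) + L.wm / 4 < cc L.AA L.SS (true, j) (true, j') ∧
    cc L.AA L.SS (true, j) (true, j') < L.al (ssc p j j' / 2) - L.wm / 4 ∧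
    (j < j' → L.B j < L.B j') ∧
    L.B j * cc L.AA L.SS (true, j) (true, j') + L.C j =
      L.B j' * cc L.AA L.SS (true, j) (true, j') + L.C j' := by
  have hX : L.Xp j = L.Xp j' := by
    have a1 := inS_iff'.1 h
    have a2 := inS_iff'.1 h'
    have := same_iff.1 hs
    unfold Xp
    rw [if_neg (by omega), if_neg (by omega), if_neg (by omega), if_neg (by omega), gb_in h,
      gb_in h', this]
  rw [cc_tt, hX]
  rcases Nat.lt_or_gt_of_ne hne with hlt | hlt
  · obtain ⟨b1, H, b2, b3, b4⟩ := L.sl j j' h h' hs hlt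
    have hne' : L.B j - L.B j' ≠ 0 := by linarith
    have hH : (L.Xp j' + L.C j' - (L.Xp j' + L.C j)) / (L.B j - L.B j') = H := by
      rw [div_eq_iff hne']
      linarith
    rw [hH]
    exact ⟨b1.ne, b3, b4, fun _ => b1, b2⟩
  · have hs' : same j' j = true := same_iff.2 (same_iff.1 hs).symm
    obtain ⟨b1, H, b2, b3, b4⟩ := L.sl j' j h' h hs' hlt
    have hne' : L.B j - L.B j' ≠ 0 := by linarith
    have hH : (L.Xp j' + L.C j' - (L.Xp j' + L.C j)) / (L.B j - L.B j') = H := by
      rw [div_eq_iff hne']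
      linarith
    rw [hH, (ssc_even hp h h' hs hne).2.2.2]
    exact ⟨b1.ne', b3, b4, fun h => absurd h (by omega), b2.symm⟩

/-- The order on a row of the crossings with two columns of a slab. -/
theorem slab_row (hp : WF 2 p) {i j j' : ℕ} (hi : i < mr p) (h : inS p j = true)
    (h' : inS p j' = true) (hs : same j j' = true) (hlt : j < j') :
    (ssc p j j' < 2 * i + 1 → L.xc i j < L.xc i j') ∧
    (2 * i + 1 < ssc p j j' → L.xc i j' < L.xc i j) := by
  obtain ⟨c1, c2, c3, c4, c5⟩ := L.cc_slab hp h h' hs (by omega)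
  obtain ⟨e1, e2, e3, -⟩ := ssc_even hp h h' hs (by omega)
  have a1 := inS_iff'.1 h
  have a2 := inS_iff'.1 h'
  have hmc : mc p = 10 * G p + 5 := rfl
  have hmr : mr p = 2 * T p + 4 := rfl
  have hX : L.Xp j = L.Xp j' := by
    have := same_iff.1 hs
    unfold Xp
    rw [if_neg (by omega), if_neg (by omega), if_neg (by omega), if_neg (by omega), gb_in h,
      gb_in h', this]
  have hB := c4 hlt
  set H := cc L.AA L.SS (true, j) (true, j') with hH
  have y1 := abs_lt.1 (L.yc_near hi (j := j) (by omega) (by omega))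
  have f1 := L.xc_fix i j
  have f2 := L.xc_fix i j'
  have hy : L.yc i j = L.al i + be p i * L.xc i j := rfl
  have key : (1 - be p i * L.B j') * (L.xc i j' - L.xc i j) =
      (L.B j' - L.B j) * (L.yc i j - H) := by
    rw [hy]
    rw [hX] at f1
    linear_combination f2 - f1 - c5
  have hd := L.den_pos i j'
  have hw := L.hwm
  have mono : ∀ a b, a ≤ b → b < mr p → L.al a ≤ L.al b := by
    intro a b hab hb
    rcases Nat.eq_or_lt_of_le hab with rfl | h
    · exact le_rfl
    · have := L.step a b h hb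
      linarith
  constructor
  · intro hlt'
    have m := mono (ssc p j j' / 2) i (by omega) hi
    have : 0 < (1 - be p i * L.B j') * (L.xc i j' - L.xc i j) := by
      rw [key]
      exact mul_pos (by linarith) (by linarith)
    have := (mul_pos_iff_of_pos_left hd).1 this
    linarith
  · intro hlt'
    have m := mono i (ssc p j j' / 2 - 1) (by omega) (by omega)
    have : (1 - be p i * L.B j') * (L.xc i j' - L.xc i j) < 0 := by
      rw [key]
      exact mul_neg_of_pos_of_neg (by linarith) (by linarith)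
    by_contra hcon
    push Not at hcon
    have := mul_nonneg hd.le (sub_nonneg.2 hcon)
    linarith

end LD

end Run7.h688.Seg
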