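import Pool.Agent.Run7.h688.Seg.Lin3

/-!
# Piece S_LIN of MP_beb3fe_lc, part 4: the realisation from the data
-/

set_option autoImplicit false

namespace Run7.h688.Seg

open Run7.h749 Run7.h749.Arr Pool.Agent.NPC.ER.Oslp Pool.Agent.NPC.ER.Sgn

variable {p : List Ins}

namespace LD

variable (L : LD p)

theorem gb_add {j a : ℕ} (h : inS p j = true) (ha : a < 4) :
    inS p (gb p j + a) = true ∧ same j (gb p j + a) = true ∧ gb p j + (j - 3) % 5 = j ∧
      bpo (gb p j + a) % 5 = a ∧ bpo j % 5 = (j - 3) % 5 ∧ (j - 3) % 5 < 4 := by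
  have a1 := inS_iff'.1 h
  rw [gb_in h, inS_iff', same_iff]
  have e : (3 + 5 * ((j - 3) / 5) + a - 3) / 5 = (j - 3) / 5 := by omega
  rw [e]
  unfold bpo
  refine ⟨⟨by omega, by omega, by omega, a1.2.2.2⟩, rfl, by omega, by omega, by omega, by omega⟩

theorem left_iff (hp : WF 2 p) {i j a : ℕ} (hi : i < mr p) (h : inS p j = true) (ha : a < 4) :
    (a < bpo j % 5 ∧ cs p j a (bpo j % 5) < 2 * i + 1 ∨
      a > bpo j % 5 ∧ 2 * i + 1 < cs p j (bpo j % 5) a) ↔
    L.xc i (gb p j + a) < L.xc i j := by
  obtain ⟨h1, h2, h3, h4, h5, h6⟩ := gb_add h ha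
  have h2' : same (gb p j + a) j = true := same_iff.2 (same_iff.1 h2).symm
  rcases Nat.lt_trichotomy a (bpo j % 5) with hlt | heq | hgt
  · have hlt' : gb p j + a < j := by omega
    obtain ⟨s1, s2⟩ := L.slab_row hp hi h1 h h2' hlt'
    have e1 : ssc p (gb p j + a) j = cs p j a (bpo j % 5) := by
      rw [← (ssc_even hp h h1 h2 (by omega)).2.2.2]
      unfold ssc
      rw [if_neg (by omega), h4]
    have e2 := (ssc_even hp h1 h h2' (by omega)).1
    rw [e1] at s1 s2 e2
    constructor
    · rintro (⟨-, h7⟩ | ⟨h7, -⟩)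
      · exact s1 h7
      · omega
    · intro h7
      left
      refine ⟨hlt, ?_⟩
      by_contra hcon
      have := s2 (by omega)
      linarith
  · have : gb p j + a = j := by omega
    rw [this]
    constructor
    · rintro (⟨h7, -⟩ | ⟨h7, -⟩) <;> omega
    · intro h7
      exact absurd h7 (lt_irrefl _)
  · have hlt' : j < gb p j + a := by omega
    obtain ⟨s1, s2⟩ := L.slab_row hp hi h h1 h2 hlt'
    have e1 : ssc p j (gb p j + a) = cs p j (bpo j % 5) a := by
      unfold ssc
      rw [if_pos hlt', h4]
    have e2 := (ssc_even hp h h1 h2 (by omega)).1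
    rw [e1] at s1 s2 e2
    constructor
    · rintro (⟨h7, -⟩ | ⟨-, h7⟩)
      · omega
      · exact s2 h7
    · intro h7
      right
      refine ⟨hgt, ?_⟩
      by_contra hcon
      have := s1 (by omega)
      linarith

open Classical in
theorem posz_eq (hp : WF 2 p) {i j : ℕ} (hi : i < mr p) (h : inS p j = true) :
    posz p i j = ∑ a ∈ Finset.range 4, if L.xc i (gb p j + a) < L.xc i j then 1 else 0 := by
  have key : ∀ a < 4, (if L.xc i (gb p j + a) < L.xc i j then 1 else 0) =
      (if (a < bpo j % 5 ∧ cs p j a (bpo j % 5) < 2 * i + 1 ∨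
      a > bpo j % 5 ∧ 2 * i + 1 < cs p j (bpo j % 5) a) then 1 else 0) := by
    intro a ha
    simp only [L.left_iff hp hi h ha]
  rw [Finset.sum_range_succ, Finset.sum_range_succ, Finset.sum_range_succ, Finset.sum_range_succ,
    Finset.sum_range_zero, key 0 (by omega), key 1 (by omega), key 2 (by omega),
    key 3 (by omega), zero_add]
  unfold posz
  simp only
  congr 1
  have h6 := (gb_add h (show 0 < 4 by omega)).2.2.2.2
  refine if_congr ?_ rfl rfl
  constructor
  · intro h7
    exact Or.inr h7
  · rintro (h7 | h7)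
    · omega
    · exact h7

/-- The order of the crossings on a row with two columns of a slab. -/
theorem posz_lt (hp : WF 2 p) {i j j' : ℕ} (hi : i < mr p) (h : inS p j = true)
    (h' : inS p j' = true) (hs : same j j' = true) (hlt : posz p i j < posz p i j') :
    L.xc i j < L.xc i j' := by
  classical
  have hg : gb p j = gb p j' := by
    rw [gb_in h, gb_in h', same_iff.1 hs]
  by_contra hcon
  push Not at hcon
  apply absurd hlt
  rw [L.posz_eq hp hi h, L.posz_eq hp hi h', hg, not_lt]
  refine Finset.sum_le_sum fun a _ => ?_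
  by_cases h1 : L.xc i (gb p j' + a) < L.xc i j'
  · rw [if_pos h1, if_pos (lt_of_lt_of_le h1 hcon)]
  · rw [if_neg h1]
    exact Nat.zero_le _

/-- The order of the crossings on a row with two columns. -/
theorem row_cols (hp : WF 2 p) {i j j' : ℕ} (hi : i < mr p) (hj : j < mc p) (hj' : j' < mc p)
    (hlt : sdr p i j < sdr p i j') : L.xc i j < L.xc i j' := by
  have hs := L.sw_pos
  have hw := L.hwm
  have hw1 := L.hwm1
  have hs2 := L.sw_le
  rcases Nat.lt_or_ge j 2 with h1 | h1
  · rcases Nat.lt_or_ge j' 2 with h2 | h2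
    · unfold sdr at hlt
      rw [if_pos h1, if_pos h2] at hlt
      rw [L.xc_small h1, L.xc_small h2]
      have e1 : j = 0 := by omega
      have e2 : j' = 1 := by omega
      rw [e1, e2, L.Xp_zero, L.Xp_one]
      norm_num
    · have h3 := abs_lt.1 (L.xc_abs hi h2 hj')
      rw [L.xc_small h1]
      have : j = 0 ∨ j = 1 := by omega
      rcases this with rfl | rfl
      · rw [L.Xp_zero]; linarith [h3.1]
      · rw [L.Xp_one]; linarith [h3.1]
  · rcases Nat.lt_or_ge j' 2 with h2 | h2
    · exfalso
      have h3 := (sdr_bd (p := p) (i := i) h1).1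
      have h4 := le_gb (p := p) h1
      unfold sdr at hlt h3
      rw [if_pos h2] at hlt
      rw [if_neg (by omega)] at hlt h3
      omega
    · rcases Nat.lt_trichotomy j j' with h3 | h3 | h3
      · rcases grp (p := p) h3 with ⟨g1, g2, g3, g4⟩ | hg
        · refine L.posz_lt hp hi g1 g2 g3 ?_
          rw [(sdr_bd h1).2.2 g1, (sdr_bd h2).2.2 g2, g4] at hlt
          omega
        · have h4 := L.Xp_lt h1 h3 hg.1
          have h5 := abs_le.1 (L.xc_near hi h1 hj)
          have h6 := abs_le.1 (L.xc_near hi h2 hj')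
          linarith [h5.2, h6.1]
      · subst h3
        exact absurd hlt (lt_irrefl _)
      · rcases grp (p := p) h3 with ⟨g1, g2, g3, g4⟩ | hg
        · refine L.posz_lt hp hi g2 g1 (same_iff.2 (same_iff.1 g3).symm) ?_
          rw [(sdr_bd h1).2.2 g2, (sdr_bd h2).2.2 g1, g4] at hlt
          omega
        · exfalso
          have := sdr_grp (i := i) h2 h3 hg
          omega

theorem rr_data {i i1 : ℕ} (h : xr p i i1 = true) :
    (i1 < i ∧ i % 2 = 0 ∧ i1 % 2 = 1 ∧ be p i = 1 ∧ be p i1 = -1 ∧ 2 ≤ i1 ∧ i < 2 * T p + 2) ∨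
    (i < i1 ∧ i % 2 = 1 ∧ i1 % 2 = 0 ∧ be p i = -1 ∧ be p i1 = 1 ∧ 2 ≤ i ∧ i1 < 2 * T p + 2) := by
  unfold xr at h
  simp only [Bool.and_eq_true, Bool.or_eq_true, decide_eq_true_eq] at h
  obtain ⟨⟨h1, h2⟩, h3⟩ := h
  have h1' := isR_iff.1 h1
  have h2' := isR_iff.1 h2
  unfold be
  rw [if_pos h1, if_pos h2]
  rcases h3 with ⟨⟨h3, h4⟩, h5⟩ | ⟨⟨h3, h4⟩, h5⟩
  · right
    rw [if_neg (by omega), if_pos h5]
    exact ⟨h3, h4, h5, rfl, rfl, h1'.1, h2'.2⟩
  · left
    rw [if_pos h5, if_neg (by omega)]
    exact ⟨h3, h5, h4, rfl, rfl, h2'.1, h1'.2⟩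

theorem cc_rr {i i1 : ℕ} (h : xr p i i1 = true) :
    cc L.AA L.SS (false, i) (false, i1) = -|L.al i - L.al i1| / 2 ∧
      L.wm < |L.al i - L.al i1| ∧ |L.al i - L.al i1| ≤ 4 := by
  have hmr : mr p = 2 * T p + 4 := rfl
  have hw := L.hwm
  rw [cc_ff]
  rcases rr_data h with ⟨h1, h2, h3, h4, h5, h6, h7⟩ | ⟨h1, h2, h3, h4, h5, h6, h7⟩
  · have hs := L.step i1 i h1 (by omega)
    have a1 := abs_le.1 (L.alp i (by omega) h7)
    have a2 := abs_le.1 (L.alp i1 h6 (by omega))
    rw [h4, h5, abs_of_pos (by linarith)]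
    refine ⟨by ring, by linarith, by linarith [a1.2, a2.1]⟩
  · have hs := L.step i i1 h1 (by omega)
    have a1 := abs_le.1 (L.alp i h6 (by omega))
    have a2 := abs_le.1 (L.alp i1 (by omega) h7)
    rw [h4, h5, abs_of_neg (by linarith)]
    refine ⟨by ring, by linarith, by linarith [a1.1, a2.2]⟩

theorem ssr_bd {i i1 : ℕ} (h : xr p i i1 = true) : 2 ≤ ssr p i i1 ∧ ssr p i i1 ≤ T p + 1 := by
  unfold ssr
  rcases rr_data h with ⟨h1, h2, h3, h4, h5, h6, h7⟩ | ⟨h1, h2, h3, h4, h5, h6, h7⟩
  · rw [if_pos h2]; omega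
  · rw [if_neg (by omega)]; omega

theorem hsl_row (hp : WF 2 p) {i : ℕ} {b b' : Ln} (hi : i < mr p)
    (hb : (arrOf p).IsL b) (hb' : (arrOf p).IsL b')
    (hc : (arrOf p).cr (false, i) b = true) (hc' : (arrOf p).cr (false, i) b' = true)
    (hlt : (arrOf p).sl (false, i) b < (arrOf p).sl (false, i) b') :
    cc L.AA L.SS (false, i) b < cc L.AA L.SS (false, i) b' := by
  obtain ⟨cb, j⟩ := b
  obtain ⟨cb', j'⟩ := b'
  have hs := L.sw_pos
  have hw := L.hwm
  have hw1 := L.hwm1
  cases cb <;> cases cb'
  · change ssr p i j < ssr p i j' at hlt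
    change xr p i j = true at hc
    change xr p i j' = true at hc'
    have hmr : mr p = 2 * T p + 4 := rfl
    rw [cc_ff, cc_ff]
    unfold ssr at hlt
    rcases rr_data hc with ⟨h1, h2, h3, h4, h5, h6, h7⟩ | ⟨h1, h2, h3, h4, h5, h6, h7⟩ <;>
      rcases rr_data hc' with ⟨k1, k2, k3, k4, k5, k6, k7⟩ | ⟨k1, k2, k3, k4, k5, k6, k7⟩
    · rw [if_pos h2, if_pos h2] at hlt
      have := L.step j j' (by omega) (by omega)
      rw [h4, h5, k5]
      linarith
    · omega
    · omega
    · rw [if_neg (by omega), if_neg (by omega)] at hlt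
      have := L.step j' j (by omega) (by omega)
      have e : (-1 - 1 : ℝ) = -2 := by norm_num
      rw [h4, h5, k5, e, div_neg, div_neg]
      linarith
  · change ssr p i j < sdr p i j' at hlt
    change xr p i j = true at hc
    change j' < mc p at hb'
    obtain ⟨e1, e2, e3⟩ := L.cc_rr hc
    have h1 := ssr_bd hc
    have h2 : 2 ≤ j' := by
      by_contra hcon
      unfold sdr at hlt
      rw [if_pos (by omega)] at hlt
      omega
    have h3 := abs_lt.1 (L.xc_abs hi h2 hb')
    rw [e1, cc_ft]
    linarith [h3.1]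
  · change sdr p i j < ssr p i j' at hlt
    change xr p i j' = true at hc'
    obtain ⟨e1, e2, e3⟩ := L.cc_rr hc'
    have h1 := ssr_bd hc'
    have h2 : j < 2 := by
      by_contra hcon
      have h3 := (sdr_bd (p := p) (i := i) (j := j) (by omega)).1
      have h4 := le_gb (p := p) (j := j) (by omega)
      omega
    rw [e1, cc_ft, L.xc_small h2]
    have : j = 0 ∨ j = 1 := by omega
    rcases this with rfl | rfl
    · rw [L.Xp_zero]; linarith
    · rw [L.Xp_one]; linarith
  · change sdr p i j < sdr p i j' at hlt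
    change j < mc p at hb
    change j' < mc p at hb'
    rw [cc_ft, cc_ft]
    exact L.row_cols hp hi hb hb' hlt

theorem xc_data {j j' : ℕ} (h : Run7.h749.xc p j j' = true) :
    inS p j = true ∧ inS p j' = true ∧ same j j' = true ∧ j ≠ j' := by
  unfold Run7.h749.xc at h
  simp only [Bool.and_eq_true, Bool.not_eq_true', decide_eq_false_iff_not] at h
  exact ⟨h.1.1.1, h.1.1.2, h.1.2, h.2⟩

theorem hsl_col (hp : WF 2 p) {j : ℕ} {b b' : Ln} (hj : j < mc p)
    (hb : (arrOf p).IsL b) (hb' : (arrOf p).IsL b')
    (hc : (arrOf p).cr (true, j) b = true) (hc' : (arrOf p).cr (true, j) b' = true)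
    (hlt : (arrOf p).sl (true, j) b < (arrOf p).sl (true, j) b') :
    cc L.AA L.SS (true, j) b < cc L.AA L.SS (true, j) b' := by
  obtain ⟨cb, i⟩ := b
  obtain ⟨cb', i'⟩ := b'
  have hs := L.sw_pos
  have hw := L.hwm
  have hw1 := L.hwm1
  have hmr : mr p = 2 * T p + 4 := rfl
  have hmc : mc p = 10 * G p + 5 := rfl
  have mono : ∀ a b, a ≤ b → b < mr p → L.al a ≤ L.al b := by
    intro a b hab hb
    rcases Nat.eq_or_lt_of_le hab with rfl | h
    · exact le_rfl
    · have := L.step a b h hb
      linarith
  cases cb <;> cases cb'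
  · change sdc p j i < sdc p j i' at hlt
    change i < mr p at hb
    change i' < mr p at hb'
    rw [cc_tf, cc_tf]
    unfold sdc at hlt
    rcases Nat.lt_or_ge j 2 with h1 | h1
    · rw [if_pos h1, if_pos h1] at hlt
      unfold yc
      rw [L.xc_small h1, L.xc_small h1]
      have : j = 0 ∨ j = 1 := by omega
      rcases this with rfl | rfl
      · rw [L.Xp_zero]
        exact L.row_left hb hb' (by omega) (by norm_num) (by norm_num)
      · rw [L.Xp_one]
        exact L.row_left hb hb' (by omega) (by norm_num) (by norm_num)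
    · rw [if_neg (by omega), if_neg (by omega)] at hlt
      unfold yc
      have a1 := L.xc_abs hb h1 hj
      have a2 := L.xc_abs hb' h1 hj
      exact L.row_lt (by omega) hb' (by linarith) (by linarith)
  · change sdc p j i < ssc p j i' at hlt
    change Run7.h749.xc p j i' = true at hc'
    change i < mr p at hb
    obtain ⟨d1, d2, d3, d4⟩ := xc_data hc'
    obtain ⟨c1, c2, c3, c4, c5⟩ := L.cc_slab hp d1 d2 d3 d4
    obtain ⟨e1, e2, e3, -⟩ := ssc_even hp d1 d2 d3 d4
    have a1 := inS_iff'.1 d1
    unfold sdc at hlt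
    rw [if_neg (by omega)] at hlt
    have h1 := abs_lt.1 (L.yc_near hb (j := j) (by omega) hj)
    have m := mono i (ssc p j i' / 2 - 1) (by omega) (by omega)
    rw [cc_tf]
    linarith [h1.2]
  · change ssc p j i < sdc p j i' at hlt
    change Run7.h749.xc p j i = true at hc
    change i' < mr p at hb'
    obtain ⟨d1, d2, d3, d4⟩ := xc_data hc
    obtain ⟨c1, c2, c3, c4, c5⟩ := L.cc_slab hp d1 d2 d3 d4
    obtain ⟨e1, e2, e3, -⟩ := ssc_even hp d1 d2 d3 d4
    have a1 := inS_iff'.1 d1
    unfold sdc at hlt
    rw [if_neg (by omega)] at hlt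
    have h1 := abs_lt.1 (L.yc_near hb' (j := j) (by omega) hj)
    have m := mono (ssc p j i / 2) i' (by omega) (by omega)
    rw [cc_tf]
    linarith [h1.1]
  · change ssc p j i < ssc p j i' at hlt
    change Run7.h749.xc p j i = true at hc
    change Run7.h749.xc p j i' = true at hc'
    obtain ⟨d1, d2, d3, d4⟩ := xc_data hc
    obtain ⟨c1, c2, c3, c4, c5⟩ := L.cc_slab hp d1 d2 d3 d4
    obtain ⟨e1, e2, e3, -⟩ := ssc_even hp d1 d2 d3 d4
    obtain ⟨d1', d2', d3', d4'⟩ := xc_data hc'
    obtain ⟨c1', c2', c3', c4', c5'⟩ := L.cc_slab hp d1' d2' d3' d4'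
    obtain ⟨e1', e2', e3', -⟩ := ssc_even hp d1' d2' d3' d4'
    have m := mono (ssc p j i / 2) (ssc p j i' / 2 - 1) (by omega) (by omega)
    linarith

/-- The columns at a height `y` outside of the crossings. -/
theorem col_ord {j j' : ℕ} {y : ℝ}
    (hy : |y| = 16) (h : j < j') (hg : gb p j < gb p j') (h2 : 2 ≤ j) :
    L.Xp j + L.C j + L.B j * y < L.Xp j' + L.C j' + L.B j' * y := by
  have h4 := L.Xp_lt h2 h hg
  have hs := L.sw_pos
  have key : ∀ j, |L.C j + L.B j * y| ≤ sw p L.wm / 4 := by
    intro j
    refine (abs_add_le _ _).trans ?_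
    rw [abs_mul, hy]
    have := L.hB j
    have := L.hC j
    linarith
  have a1 := abs_le.1 (key j)
  have a2 := abs_le.1 (key j')
  linarith [a1.2, a2.1]

include L in
theorem lines (hp : WF 2 p) : (arrOf p).Lines := by
  have hs := L.sw_pos
  have hs2 := L.sw_le
  have hw := L.hwm
  have hw1 := L.hwm1
  have hT := T_pos p
  have hmr : mr p = 2 * T p + 4 := rfl
  have hmc : mc p = 10 * G p + 5 := rfl
  have hcb : ∀ (j : ℕ) (y : ℝ), |y| = 16 → |L.C j + L.B j * y| ≤ sw p L.wm / 4 := by
    intro j y hy
    refine (abs_add_le _ _).trans ?_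
    rw [abs_mul, hy]
    have := L.hB j
    have := L.hC j
    linarith
  -- bounds for the columns at the bottom and at the top
  have hcol : ∀ (j : ℕ) (y : ℝ), j < mc p → |y| = 16 →
      -11 < L.Xp j + L.C j + L.B j * y ∧ L.Xp j + L.C j + L.B j * y < L.wm / 2 := by
    intro j y hj hy
    have h1 := abs_le.1 (hcb j y hy)
    rcases Nat.lt_or_ge j 2 with h2 | h2
    · have : j = 0 ∨ j = 1 := by omega
      rcases this with rfl | rfl
      · rw [L.Xp_zero]
        constructor <;> linarith [h1.1, h1.2]
      · rw [L.Xp_one]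
        constructor <;> linarith [h1.1, h1.2]
    · obtain ⟨x1, x2⟩ := L.Xp_bd h2 hj
      constructor <;> linarith [h1.1, h1.2]
  have habs : |(-16 : ℝ)| = 16 := by norm_num
  have habs' : |(16 : ℝ)| = 16 := by norm_num
  -- small columns
  have hsm : ∀ j < 2, ∀ y : ℝ, L.Xp j + L.C j + L.B j * y = -10 + (j : ℝ) := by
    intro j hj y
    obtain ⟨h1, h2⟩ := L.B0 j (inS_lt hj)
    rw [h1, h2]
    have : j = 0 ∨ j = 1 := by omega
    rcases this with rfl | rfl
    · rw [L.Xp_zero]; norm_num
    · rw [L.Xp_one]; norm_num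
  refine lines_box (arrOf p) L.AA L.SS L.lo L.hi ?_ ?_ ?_ ?_ ?_ ?_ ?_ ?_
  · intro c
    cases c
    · unfold lo hi
      simp only [Bool.false_eq_true, if_false]
      linarith
    · unfold lo hi
      simp only [if_true]
      norm_num
  · rintro ⟨ca, i⟩ ⟨cb, j⟩ _ _ hne
    cases ca <;> cases cb
    · exact absurd rfl hne
    · change be p i * L.B j < 1
      have := (abs_le.1 (L.beB i j)).2
      linarith
    · change L.B i * be p j < 1
      have := (abs_le.1 (L.beB j i)).2
      rw [mul_comm] at this
      linarith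
    · exact absurd rfl hne
  · intro c i j hx
    cases c
    · change xr p i j = true at hx
      change be p i ≠ be p j
      rcases rr_data hx with ⟨h1, h2, h3, h4, h5, h6, h7⟩ | ⟨h1, h2, h3, h4, h5, h6, h7⟩
      · rw [h4, h5]; norm_num
      · rw [h4, h5]; norm_num
    · change Run7.h749.xc p i j = true at hx
      obtain ⟨d1, d2, d3, d4⟩ := xc_data hx
      exact (L.cc_slab hp d1 d2 d3 d4).1
  · intro c i hi'
    cases c
    · change -16 < L.al i + be p i * -11 ∧ L.al i + be p i * -11 < 16
      rcases L.cls hi' with ⟨h1, h2, h3, h4⟩ | ⟨h0, h1, h2, h3, h4, h5⟩ |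
        ⟨h0, h1, h2, h3, h4, h5⟩ | ⟨h1, h2, h3, h4⟩
      · rw [h2, h4]
        have : i = 0 ∨ i = 1 := by omega
        rcases this with rfl | rfl <;> norm_num
      · rw [h3]
        have := abs_le.1 h5
        constructor <;> linarith [this.1, this.2]
      · rw [h3]
        have := abs_le.1 h5
        constructor <;> linarith [this.1, this.2]
      · change i < mr p at hi'
        rw [h2, h4]
        have : i - (2 * T p + 2) = 0 ∨ i - (2 * T p + 2) = 1 := by omega
        rcases this with h6 | h6 <;> rw [h6] <;> norm_num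
    · exact hcol i (-16) hi' habs
  · intro c i hi'
    cases c
    · change -16 < L.al i + be p i * (L.wm / 2) ∧ L.al i + be p i * (L.wm / 2) < 16
      have h1 : |be p i * (L.wm / 2)| ≤ 1 / 20 := by
        rw [abs_mul, abs_of_pos (by linarith : (0 : ℝ) < L.wm / 2)]
        have := be_abs (p := p) i
        nlinarith
      have h2 := abs_le.1 h1
      have h3 := abs_le.1 (L.al_abs hi')
      constructor <;> linarith [h2.1, h2.2, h3.1, h3.2]
    · exact hcol i 16 hi' habs'
  · intro c i j hi' hj' hst
    cases c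
    · change i < mr p at hi'
      change j < mr p at hj'
      change str p i < str p j at hst
      change L.al i + be p i * -11 < L.al j + be p j * -11
      exact L.row_left hi' hj' hst le_rfl (by norm_num)
    · change i < mc p at hi'
      change j < mc p at hj'
      change stc p i < stc p j at hst
      change L.Xp i + L.C i + L.B i * -16 < L.Xp j + L.C j + L.B j * -16
      rcases Nat.lt_or_ge i 2 with h1 | h1
      · rw [hsm i h1]
        rcases Nat.lt_or_ge j 2 with h2 | h2
        · rw [hsm j h2]
          rw [stc_out (inS_lt h1), stc_out (inS_lt h2)] at hst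
          have : (i : ℝ) < j := by exact_mod_cast hst
          linarith
        · obtain ⟨x1, x2⟩ := L.Xp_bd h2 hj'
          have h3 := abs_le.1 (hcb j (-16) habs)
          have : (i : ℝ) ≤ 1 := by exact_mod_cast (by omega : i ≤ 1)
          linarith [h3.1]
      · rcases Nat.lt_or_ge j 2 with h2 | h2
        · exfalso
          have hgi : gb p i ≤ stc p i := by
            by_cases hj : inS p i = true
            · have := stc_in hj
              have := inS_iff'.1 hj
              omega
            · rw [gb_out (by simpa using hj), stc_out (by simpa using hj)]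
          have := le_gb (p := p) h1
          rw [stc_out (inS_lt h2)] at hst
          omega
        · have hmain : ∀ i j, inS p i = true → inS p j = true → same i j = true → i < j →
              L.Xp j + L.C j + L.B j * -16 < L.Xp i + L.C i + L.B i * -16 := by
            intro i j g1 g2 g3 hlt
            obtain ⟨c1, c2, c3, c4, c5⟩ := L.cc_slab hp g1 g2 g3 (by omega)
            obtain ⟨e1, e2, e3, -⟩ := ssc_even hp g1 g2 g3 (by omega)
            have a1 := inS_iff'.1 g1
            have a2 := inS_iff'.1 g2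
            have hX : L.Xp i = L.Xp j := by
              unfold Xp
              rw [if_neg (by omega), if_neg (by omega), if_neg (by omega), if_neg (by omega),
                gb_in g1, gb_in g2, same_iff.1 g3]
            have hB := c4 hlt
            have h5 := (abs_le.1 (L.al_abs (i := ssc p i j / 2 - 1) (by omega))).1
            set H := cc L.AA L.SS (true, i) (true, j)
            have : (L.B j - L.B i) * (H + 16) > 0 := mul_pos (by linarith) (by linarith)
            rw [hX]
            nlinarith
          rcases Nat.lt_trichotomy i j with h3 | h3 | h3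
          · rcases grp (p := p) h3 with ⟨g1, g2, g3, g4⟩ | hg
            · exfalso
              have s1 := stc_in g1
              have s2 := stc_in g2
              have a1 := inS_iff'.1 g1
              have a2 := inS_iff'.1 g2
              have := same_iff.1 g3
              omega
            · exact L.col_ord habs h3 hg.1 h1
          · subst h3
            exact absurd hst (lt_irrefl _)
          · rcases grp (p := p) h3 with ⟨g1, g2, g3, g4⟩ | hg
            · exact hmain j i g1 g2 g3 h3
            · exfalso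
              have := stc_grp h3 hg
              omega
  · intro c i j hij hj'
    cases c
    · change j < mr p at hj'
      change L.al i + be p i * (L.wm / 2) < L.al j + be p j * (L.wm / 2)
      refine L.row_lt hij hj' ?_ ?_ <;> rw [abs_of_pos (by linarith)]
    · change j < mc p at hj'
      change L.Xp i + L.C i + L.B i * 16 < L.Xp j + L.C j + L.B j * 16
      rcases Nat.lt_or_ge i 2 with h1 | h1
      · rw [hsm i h1]
        rcases Nat.lt_or_ge j 2 with h2 | h2
        · rw [hsm j h2]
          have : (i : ℝ) < j := by exact_mod_cast hij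
          linarith
        · obtain ⟨x1, x2⟩ := L.Xp_bd h2 hj'
          have h3 := abs_le.1 (hcb j 16 habs')
          have : (i : ℝ) ≤ 1 := by exact_mod_cast (by omega : i ≤ 1)
          linarith [h3.1]
      · rcases grp (p := p) hij with ⟨g1, g2, g3, g4⟩ | hg
        · obtain ⟨c1, c2, c3, c4, c5⟩ := L.cc_slab hp g1 g2 g3 (by omega)
          obtain ⟨e1, e2, e3, -⟩ := ssc_even hp g1 g2 g3 (by omega)
          have a1 := inS_iff'.1 g1
          have a2 := inS_iff'.1 g2
          have hX : L.Xp i = L.Xp j := by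
            unfold Xp
            rw [if_neg (by omega), if_neg (by omega), if_neg (by omega), if_neg (by omega),
              gb_in g1, gb_in g2, same_iff.1 g3]
          have hB := c4 hij
          have h5 := (abs_le.1 (L.al_abs (i := ssc p i j / 2) (by omega))).2
          set H := cc L.AA L.SS (true, i) (true, j)
          have : (L.B j - L.B i) * (16 - H) > 0 := mul_pos (by linarith) (by linarith)
          rw [hX]
          nlinarith
        · exact L.col_ord habs' hij hg.1 h1
  · rintro ⟨ca, i⟩ b b' ha hb hb' _ _ hc hc' hlt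
    cases ca
    · exact L.hsl_row hp ha hb hb' hc hc' hlt
    · exact L.hsl_col hp ha hb hb' hc hc' hlt

end LD

end Run7.h688.Seg
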