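import Pool.Agent.Run7.h688.Seg.Lin4

/-!
# Piece S_LIN of MP_beb3fe_lc, part 5: the four lines of a slab
-/

set_option autoImplicit false

namespace Run7.h688.Seg

open Run7.h749 Run7.h749.Arr Pool.Agent.NPC.ER.Oslp Pool.Agent.NPC.ER.Sgn
open Pool.Agent.K1H23.PC.BS (PH kap kap_pos kap_neg PH_sub)

/-- The slope of the second line. -/
noncomputable def b2 (o l j : ℝ) : ℝ := (l - o) / (j - o)
/-- The slope of the third line. -/
noncomputable def b3 (l i w : ℝ) : ℝ := -((i - l) / (w - i))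
/-- The height of the crossing of the second and the third line. -/
noncomputable def Ph (o l i j w : ℝ) : ℝ :=
  (b2 o l j * j - b3 l i w * w) / (b2 o l j - b3 l i w)

/-- The slope of the line at the position `z`. -/
noncomputable def bp (add : Bool) (o l i j w : ℝ) (z : ℕ) : ℝ :=
  if z = 0 then b3 l i w else if z = 1 then 0 else if z = 2 then (if add = true then 1 else b2 o l j)
  else (if add = true then b2 o l j else 1)

/-- The intercept of the line at the position `z`. -/
noncomputable def cp (add : Bool) (o l i j w : ℝ) (z : ℕ) : ℝ :=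
  if z = 0 then -(b3 l i w * w) else if z = 1 then 0 else
    if z = 2 then (if add = true then -l else -(b2 o l j * j))
  else (if add = true then -(b2 o l j * j) else -l)

/-- The height number `q`. -/
noncomputable def Hq (o l i j w : ℝ) (q : ℕ) : ℝ :=
  if q = 0 then w else if q = 1 then Ph o l i j w else if q = 2 then i else if q = 3 then j
  else if q = 4 then l else o

theorem b3_neg {l i w : ℝ} (h1 : l < i) (h2 : i < w) : b3 l i w < 0 := by
  unfold b3
  have := div_pos (sub_pos.2 h1) (sub_pos.2 h2)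
  linarith

theorem b2_pos {o l j : ℝ} (h1 : o < l) (h2 : l < j) : 0 < b2 o l j ∧ b2 o l j < 1 := by
  unfold b2
  refine ⟨div_pos (by linarith) (by linarith), ?_⟩
  rw [div_lt_one (by linarith)]
  linarith

theorem b2_pos' {o l j : ℝ} (h1 : l < j) (h2 : j < o) : 1 < b2 o l j := by
  unfold b2
  have e : (l - o) / (j - o) = (o - l) / (o - j) := by
    rw [← neg_sub o l, ← neg_sub o j, neg_div_neg_eq]
  rw [e, lt_div_iff₀ (by linarith)]
  linarith

theorem cr12 {o l j : ℝ} (h : j ≠ o) : 1 * o + -l = b2 o l j * o + -(b2 o l j * j) := by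
  unfold b2
  have := sub_ne_zero.2 h
  field_simp
  ring

theorem cr13 {l i w : ℝ} (h : w ≠ i) : 1 * i + -l = b3 l i w * i + -(b3 l i w * w) := by
  unfold b3
  have := sub_ne_zero.2 h
  field_simp
  ring

theorem cr23 {o l i j w : ℝ} (h : b2 o l j - b3 l i w ≠ 0) :
    b2 o l j * Ph o l i j w + -(b2 o l j * j) = b3 l i w * Ph o l i j w + -(b3 l i w * w) := by
  have : (b2 o l j - b3 l i w) * Ph o l i j w = b2 o l j * j - b3 l i w * w := by
    unfold Ph
    rw [mul_div_cancel₀ _ h]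
  linarith

/-- The lines of a slab. -/
theorem slab_lines {add : Bool} {o l i j w : ℝ} (h1 : l < i) (h2 : l < j) (h3 : i < w)
    (_h4 : j < w) (h5 : add = false → o < l) (h6 : add = true → j < o) :
    ∀ z z', z < z' → z' < 4 → bp add o l i j w z < bp add o l i j w z' ∧
      bp add o l i j w z * Hq o l i j w (qq add z z') + cp add o l i j w z =
        bp add o l i j w z' * Hq o l i j w (qq add z z') + cp add o l i j w z' := by
  have n3 := b3_neg h1 h3
  intro z z' hz hz'
  have e13 := cr13 (l := l) h3.ne'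
  cases add with
  | false =>
    have h5 := h5 rfl
    obtain ⟨p1, p2⟩ := b2_pos h5 h2
    have e12 := cr12 (l := l) (h5.trans h2).ne'
    have e23 := cr23 (o := o) (l := l) (i := i) (j := j) (w := w) (by linarith)
    interval_cases z' <;> interval_cases z <;>
      simp only [bp, cp, Hq, qq, if_true, if_false, Bool.false_eq_true, one_ne_zero,
        OfNat.ofNat_ne_zero, OfNat.ofNat_ne_one, Nat.reduceEqDiff] <;>
      constructor <;> linarith
  | true =>
    have h6 := h6 rfl
    have p1 := b2_pos' h2 h6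
    have e12 := cr12 (l := l) h6.ne
    have e23 := cr23 (o := o) (l := l) (i := i) (j := j) (w := w) (by linarith)
    interval_cases z' <;> interval_cases z <;>
      simp only [bp, cp, Hq, qq, if_true, if_false, one_ne_zero,
        OfNat.ofNat_ne_zero, OfNat.ofNat_ne_one, Nat.reduceEqDiff] <;>
      constructor <;> linarith

theorem Ph_PH {o l i j w : ℝ} (h1 : l < i) (h2 : l < j) (h3 : i < w) (_h4 : j < w)
    (h5 : o < l ∨ j < o) : PH (Ph o l i j w) o l i j w = 0 := by
  have n3 := b3_neg h1 h3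
  have n2 : 0 < b2 o l j ∧ b2 o l j ≠ 1 := by
    rcases h5 with h5 | h5
    · obtain ⟨a, b⟩ := b2_pos h5 h2
      exact ⟨a, b.ne⟩
    · have := b2_pos' h2 h5
      exact ⟨by linarith, this.ne'⟩
  have hjo : j ≠ o := by
    rcases h5 with h5 | h5
    · exact (h5.trans h2).ne'
    · exact h5.ne
  refine PH_lines (B1 := 1) (B2 := b2 o l j) (B3 := b3 l i w) (B4 := 0) (C1 := -l)
    (C2 := -(b2 o l j * j)) (C3 := -(b3 l i w * w)) (C4 := 0) n2.2.symm ?_ ?_ ?_ n2.1.ne' n3.ne
    (cr12 hjo) (cr13 h3.ne') (by ring) (cr23 ?_) (by ring) (by ring)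
  · linarith
  · norm_num
  · linarith
  · linarith

theorem Ph_eq {k o l i j w : ℝ} (h1 : l < i) (h2 : l < j) (h3 : i < w) (h4 : j < w)
    (h5 : o < l ∨ o = w) (h : PH k o l i j w = 0) : Ph o l i j w = k := by
  have h6 : PH (Ph o l i j w) o l i j w = 0 := by
    refine Ph_PH h1 h2 h3 h4 ?_
    rcases h5 with h5 | h5
    · exact Or.inl h5
    · right; rw [h5]; exact h4
  have h7 := PH_sub (Ph o l i j w) k o l i j w
  rw [h6, h, sub_self] at h7
  have h8 : kap o l i j w ≠ 0 := by
    rcases h5 with h5 | h5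
    · exact (kap_neg h5 h1 h2 h4).ne
    · rw [h5]; exact (kap_pos h1 (h1.trans h3) h3 h4).ne'
  have := (mul_eq_zero.1 h7.symm).resolve_right h8
  linarith

/-- Continuity. -/
theorem Ph_cont {o l i j w : ℝ} (h1 : l < i) (h2 : l < j) (h3 : i < w) (h4 : j < w)
    (h5 : o < l ∨ o = w) {ε : ℝ} (hε : 0 < ε) : ∃ η > 0, ∀ yo yl yi yj yw : ℝ,
      |yo - o| ≤ η → |yl - l| ≤ η → |yi - i| ≤ η → |yj - j| ≤ η → |yw - w| ≤ η →
      |Ph yo yl yi yj yw - Ph o l i j w| < ε := by
  have hjo : j - o ≠ 0 := by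
    rcases h5 with h5 | h5
    · linarith
    · rw [h5]; linarith
  have hwi : w - i ≠ 0 := by linarith
  have n3 := b3_neg h1 h3
  have n2 : 0 < b2 o l j := by
    rcases h5 with h5 | h5
    · exact (b2_pos h5 h2).1
    · have := b2_pos' h2 (show j < o by rw [h5]; exact h4)
      linarith
  have hne : (l - o) / (j - o) - -((i - l) / (w - i)) ≠ 0 := by
    have : 0 < b2 o l j - b3 l i w := by linarith
    exact this.ne'
  have hc : ContinuousAt (fun v : ℝ × ℝ × ℝ × ℝ × ℝ =>
      Ph v.1 v.2.1 v.2.2.1 v.2.2.2.1 v.2.2.2.2) (o, l, i, j, w) := by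
    unfold Ph b2 b3
    have c1 : ContinuousAt (fun v : ℝ × ℝ × ℝ × ℝ × ℝ => (v.2.1 - v.1) / (v.2.2.2.1 - v.1))
        (o, l, i, j, w) := ContinuousAt.div (by fun_prop) (by fun_prop) hjo
    have c2' : ContinuousAt (fun v : ℝ × ℝ × ℝ × ℝ × ℝ =>
        ((v.2.2.1 - v.2.1) / (v.2.2.2.2 - v.2.2.1))) (o, l, i, j, w) :=
      ContinuousAt.div (by fun_prop) (by fun_prop) hwi
    have c2 : ContinuousAt (fun v : ℝ × ℝ × ℝ × ℝ × ℝ =>
        -((v.2.2.1 - v.2.1) / (v.2.2.2.2 - v.2.2.1))) (o, l, i, j, w) := c2'.neg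
    have c3 : ContinuousAt (fun v : ℝ × ℝ × ℝ × ℝ × ℝ => v.2.2.2.1) (o, l, i, j, w) := by fun_prop
    have c4 : ContinuousAt (fun v : ℝ × ℝ × ℝ × ℝ × ℝ => v.2.2.2.2) (o, l, i, j, w) := by fun_prop
    exact ContinuousAt.div ((c1.mul c3).sub (c2.mul c4)) (c1.sub c2) hne
  rw [Metric.continuousAt_iff] at hc
  obtain ⟨δ, hδ, h⟩ := hc ε hε
  refine ⟨δ / 2, by linarith, fun yo yl yi yj yw a1 a2 a3 a4 a5 => ?_⟩
  have := h (x := (yo, yl, yi, yj, yw)) ?_
  · rwa [Real.dist_eq] at this
  · simp only [Prod.dist_eq, Real.dist_eq, max_lt_iff]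
    refine ⟨?_, ?_, ?_, ?_, ?_⟩ <;> linarith

end Run7.h688.Seg
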