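import Pool.Agent.Run7.h688.Seg.Lin5

/-!
# Piece S_LIN of MP_beb3fe_lc, part 6: the exact values and the widths
-/

set_option autoImplicit false

namespace Run7.h688.Seg

open Run7.h749 Run7.h749.Arr Pool.Agent.NPC.ER.Oslp Pool.Agent.NPC.ER.Sgn
open Pool.Agent.K1H23.PC.BS (PH)

variable {p : List Ins}

/-- The exact heights. -/
noncomputable def th (v : ℕ → ℝ) (a : ℕ) : ℝ := if a = 0 then 0 else -1 / (v a - v 1 + 1)

/-- The solution. -/
def Sol (p : List Ins) (v : ℕ → ℝ) : Prop :=
  ∀ k, 2 ≤ k → k < G p → v (k - 1) < v k ∧ Holds v k (opd p k)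

theorem V_lt {v : ℕ → ℝ} (hv : Sol p v) {a b : ℕ} (ha : 1 ≤ a) (hab : a < b) (hb : b < G p) :
    v a < v b := by
  induction b with
  | zero => omega
  | succ b ih =>
    have h1 := (hv (b + 1) (by omega) hb).1
    rw [Nat.add_sub_cancel] at h1
    rcases Nat.eq_or_lt_of_le (Nat.lt_succ_iff.1 hab) with rfl | h
    · exact h1
    · exact (ih h (by omega)).trans h1

theorem V_pos {v : ℕ → ℝ} (hv : Sol p v) {a : ℕ} (ha : 1 ≤ a) (ha' : a < G p) :
    1 ≤ v a - v 1 + 1 := by
  rcases Nat.eq_or_lt_of_le ha with rfl | h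
  · linarith
  · have := V_lt hv le_rfl h ha'
    linarith

theorem th_neg {v : ℕ → ℝ} (hv : Sol p v) {a : ℕ} (ha : 1 ≤ a) (ha' : a < G p) :
    th v a < 0 ∧ -1 ≤ th v a := by
  have h := V_pos hv ha ha'
  unfold th
  rw [if_neg (by omega)]
  refine ⟨div_neg_of_neg_of_pos (by norm_num) (by linarith), ?_⟩
  rw [le_div_iff₀ (by linarith)]
  linarith

theorem th_zero (v : ℕ → ℝ) : th v 0 = 0 := by unfold th; rw [if_pos rfl]

theorem th_lt {v : ℕ → ℝ} (hv : Sol p v) {a b : ℕ} (ha : 1 ≤ a) (hab : a < b) (hb : b < G p) :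
    th v a < th v b := by
  have h1 := V_pos hv ha (by omega)
  have h2 := V_pos hv (by omega : 1 ≤ b) hb
  have h3 := V_lt hv ha hab hb
  unfold th
  rw [if_neg (by omega), if_neg (by omega), neg_div, neg_div, neg_lt_neg_iff]
  exact one_div_lt_one_div_of_lt (by linarith) (by linarith)

theorem PH_exact (hp : WF 2 p) {v : ℕ → ℝ} (hv : Sol p v) {k o l i j : ℕ}
    (hop : opd p k = some (o, l, i, j)) :
    PH (th v k) (th v o) (th v l) (th v i) (th v j) (th v 0) = 0 := by
  obtain ⟨w1, w2, w3, w4, w5, w6, w7⟩ := opd_wf hp hop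
  have hG : G p = p.length + 2 := rfl
  have hh := (hv k w1 (by omega)).2
  rw [hop] at hh
  obtain ⟨ha, hm⟩ := hh
  have pk := V_pos hv (by omega : 1 ≤ k) (by omega)
  have pl := V_pos hv (by omega : 1 ≤ l) (by omega)
  have pi := V_pos hv (by omega : 1 ≤ i) (by omega)
  have pj := V_pos hv (by omega : 1 ≤ j) (by omega)
  have ek : th v k = -1 / (v k - v 1 + 1) := by unfold th; rw [if_neg (by omega)]
  have el : th v l = -1 / (v l - v 1 + 1) := by unfold th; rw [if_neg (by omega)]
  have ei : th v i = -1 / (v i - v 1 + 1) := by unfold th; rw [if_neg (by omega)]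
  have ej : th v j = -1 / (v j - v 1 + 1) := by unfold th; rw [if_neg (by omega)]
  set K := v k - v 1 + 1 with hK
  set L := v l - v 1 + 1 with hL
  set I := v i - v 1 + 1 with hI
  set J := v j - v 1 + 1 with hJ
  have nk : K ≠ 0 := by linarith
  have nl : L ≠ 0 := by linarith
  have ni : I ≠ 0 := by linarith
  have nj : J ≠ 0 := by linarith
  rcases Nat.eq_zero_or_pos o with ho | ho
  · have h1 := ha ho
    have h2 : K + L = I + J := by rw [hK, hL, hI, hJ]; linarith
    rw [ho, th_zero, ek, el, ei, ej]
    unfold PH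
    field_simp
    linear_combination h2
  · have h1 := hm ho
    have po := V_pos hv (by omega : 1 ≤ o) (by omega)
    have eo : th v o = -1 / (v o - v 1 + 1) := by unfold th; rw [if_neg (by omega)]
    set O := v o - v 1 + 1 with hO
    have no : O ≠ 0 := by linarith
    have h2 : (K - O) * (L - O) = (I - O) * (J - O) := by
      rw [hK, hL, hI, hJ, hO]
      linear_combination h1
    rw [th_zero, eo, ek, el, ei, ej]
    unfold PH
    field_simp
    linear_combination -h2

/-! ### Strips -/

/-- The value of a strip. -/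
def val (p : List Ins) (t : ℕ) : ℕ := if t = 2 * (G p - 1) then 0 else t / 2 + 1

theorem val_sp {a : ℕ} (ha : a < G p) : val p (sp p a) = a := by
  have hG : G p = p.length + 2 := rfl
  unfold val
  rcases Nat.eq_zero_or_pos a with rfl | h
  · rw [sp0, if_pos (by omega)]
  · rw [spp h, if_neg (by omega)]
    omega

theorem val_lt {t : ℕ} (h0 : t % 2 = 0) (h : t < T p) : val p t < G p := by
  have hT : T p = 2 * G p := rfl
  have := G_two p
  unfold val
  split_ifs <;> omega

/-- The centres of the strips. -/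
noncomputable def ts (p : List Ins) (v : ℕ → ℝ) (t : ℕ) : ℝ :=
  if t % 2 = 0 then th v (val p t) else if t + 1 = T p then 1
    else (th v (val p (t - 1)) + th v (val p (t + 1))) / 2

theorem ts_sp (v : ℕ → ℝ) {a : ℕ} (ha : a < G p) : ts p v (sp p a) = th v a := by
  unfold ts
  have : sp p a % 2 = 0 := by unfold sp; split_ifs <;> omega
  rw [if_pos this, val_sp ha]

theorem th_val_lt {v : ℕ → ℝ} (hv : Sol p v) {t : ℕ} (ht : t % 2 = 0) (h : t + 2 < T p) :
    th v (val p t) < th v (val p (t + 2)) := by
  have hT : T p = 2 * G p := rfl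
  unfold val
  rw [if_neg (show ¬ t = 2 * (G p - 1) by omega)]
  split_ifs with h1
  · rw [th_zero]
    exact (th_neg hv (by omega) (by omega)).1
  · exact th_lt hv (by omega) (by omega) (by omega)

theorem th_le {v : ℕ → ℝ} (hv : Sol p v) {a : ℕ} (ha : a < G p) : -1 ≤ th v a ∧ th v a ≤ 0 := by
  rcases Nat.eq_zero_or_pos a with rfl | h
  · rw [th_zero]; norm_num
  · have := th_neg hv h ha
    exact ⟨this.2, this.1.le⟩

theorem ts_abs {v : ℕ → ℝ} (hv : Sol p v) {t : ℕ} (h : t < T p) : |ts p v t| ≤ 1 := by
  unfold ts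
  split_ifs with h1 h2
  · have := th_le hv (val_lt h1 h)
    rw [abs_le]
    constructor <;> linarith
  · norm_num
  · have a1 := th_le hv (val_lt (p := p) (t := t - 1) (by omega) (by omega))
    have a2 := th_le hv (val_lt (p := p) (t := t + 1) (by omega) (by omega))
    rw [abs_le]
    constructor <;> linarith

theorem ts_lt {v : ℕ → ℝ} (hv : Sol p v) {t : ℕ} (h : t + 1 < T p) :
    ts p v t < ts p v (t + 1) := by
  unfold ts
  rcases Nat.mod_two_eq_zero_or_one t with h1 | h1
  · rw [if_pos h1, if_neg (by omega)]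
    split_ifs with h2
    · have := th_le hv (val_lt (p := p) (t := t) h1 (by omega))
      linarith
    · have := th_val_lt hv h1 (by omega)
      rw [Nat.add_sub_cancel, show t + 1 + 1 = t + 2 by omega]
      linarith
  · rw [if_neg (by omega), if_pos (by omega : (t + 1) % 2 = 0), if_neg (by omega)]
    have := th_val_lt hv (t := t - 1) (by omega) (by omega)
    rw [show t - 1 + 2 = t + 1 by omega] at this
    linarith

theorem exists_lb (f : ℕ → ℝ) (n : ℕ) (h : ∀ t < n, 0 < f t) :
    ∃ g > 0, g ≤ 1 ∧ ∀ t < n, g ≤ f t := by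
  induction n with
  | zero => exact ⟨1, by norm_num, le_rfl, fun t ht => absurd ht (by omega)⟩
  | succ n ih =>
    obtain ⟨g, hg, hg1, hgt⟩ := ih fun t ht => h t (by omega)
    refine ⟨min g (f n), lt_min hg (h n (by omega)), (min_le_left _ _).trans hg1,
      fun t ht => ?_⟩
    rcases Nat.eq_or_lt_of_le (Nat.lt_succ_iff.1 ht) with rfl | h'
    · exact min_le_right _ _
    · exact (min_le_left _ _).trans (hgt t h')

/-- The condition on the widths at the value `k`. -/
def Cond (p : List Ins) (v w : ℕ → ℝ) (k : ℕ) : Prop :=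
  ∀ o l i j, opd p k = some (o, l, i, j) → ∀ yo yl yi yj yw : ℝ,
    |yo - th v o| ≤ 2 * w o → |yl - th v l| ≤ 2 * w l → |yi - th v i| ≤ 2 * w i →
    |yj - th v j| ≤ 2 * w j → |yw - th v 0| ≤ 2 * w 0 →
    |Ph yo yl yi yj yw - th v k| < w k / 2

theorem exists_w (hp : WF 2 p) {v : ℕ → ℝ} (hv : Sol p v) {w0 : ℝ} (hw0 : 0 < w0) :
    ∀ n ≤ G p, ∃ w : ℕ → ℝ, (∀ a, 0 < w a ∧ w a ≤ w0) ∧
      ∀ k, G p - n ≤ k → k < G p → Cond p v w k := by
  intro n
  induction n with
  | zero =>
    intro _
    exact ⟨fun _ => w0, fun _ => ⟨hw0, le_rfl⟩, fun k h1 h2 => absurd h1 (by omega)⟩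
  | succ n ih =>
    intro hn
    obtain ⟨w, h1, h2⟩ := ih (by omega)
    set m := G p - (n + 1) with hm
    rcases hop : opd p m with _ | ⟨o, l, i, j⟩
    · refine ⟨w, h1, fun k hk hk' => ?_⟩
      rcases Nat.eq_or_lt_of_le hk with rfl | h
      · intro o l i j h
        rw [hop] at h
        simp at h
      · exact h2 k (by omega) hk'
    · obtain ⟨w1, w2, w3, w4, w5, w6, w7⟩ := opd_wf hp hop
      have hG : G p = p.length + 2 := rfl
      have q1 : th v l < th v i := th_lt hv (by omega) w4 (by omega)
      have q2 : th v l < th v j := th_lt hv (by omega) w5 (by omega)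
      have q3 : th v i < th v 0 := by
        rw [th_zero]; exact (th_neg hv (by omega) (by omega)).1
      have q4 : th v j < th v 0 := by
        rw [th_zero]; exact (th_neg hv (by omega) (by omega)).1
      have q5 : th v o < th v l ∨ th v o = th v 0 := by
        rcases Nat.eq_zero_or_pos o with ho | ho
        · right; rw [ho]
        · left; exact th_lt hv ho w3 (by omega)
      have hval := Ph_eq q1 q2 q3 q4 q5 (PH_exact hp hv hop)
      obtain ⟨η, hη, hc⟩ := Ph_cont q1 q2 q3 q4 q5 (ε := w m / 2) (by have := (h1 m).1; linarith)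
      rw [hval] at hc
      set w' : ℕ → ℝ := fun a => if a < m then min (w a) (η / 2) else w a with hw'
      have hle : ∀ a, w' a ≤ w a := by
        intro a
        rw [hw']
        simp only
        split_ifs
        · exact min_le_left _ _
        · exact le_rfl
      have hη' : ∀ a < m, 2 * w' a ≤ η := by
        intro a ha
        rw [hw']
        simp only
        rw [if_pos ha]
        have := min_le_right (w a) (η / 2)
        linarith
      have hge : ∀ a, m ≤ a → w' a = w a := by
        intro a ha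
        rw [hw']
        simp only
        rw [if_neg (by omega)]
      refine ⟨w', fun a => ⟨?_, (hle a).trans (h1 a).2⟩, fun k hk hk' => ?_⟩
      · rw [hw']
        simp only
        split_ifs
        · exact lt_min (h1 a).1 (by linarith)
        · exact (h1 a).1
      · rcases Nat.eq_or_lt_of_le hk with rfl | h
        · intro o' l' i' j' hc' yo yl yi yj yw a1 a2 a3 a4 a5
          rw [hop] at hc'
          simp only [Option.some.injEq, Prod.mk.injEq] at hc'
          obtain ⟨rfl, rfl, rfl, rfl⟩ := hc'
          rw [hge m le_rfl]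
          exact hc yo yl yi yj yw (a1.trans (hη' _ (by omega))) (a2.trans (hη' _ (by omega)))
            (a3.trans (hη' _ (by omega))) (a4.trans (hη' _ (by omega)))
            (a5.trans (hη' _ (by omega)))
        · intro o' l' i' j' hc' yo yl yi yj yw a1 a2 a3 a4 a5
          rw [hge k (by omega)]
          refine h2 k (by omega) hk' o' l' i' j' hc' yo yl yi yj yw ?_ ?_ ?_ ?_ ?_
          · have := hle o'; linarith
          · have := hle l'; linarith
          · have := hle i'; linarith
          · have := hle j'; linarith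
          · have := hle 0; linarith

end Run7.h688.Seg
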